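import Mathlib

set_option autoImplicit false

/-! Convergence of complex random vectors from the moments of the roots of their exponentials. -/

namespace Pool.Agent.R313.CX

open MeasureTheory Filter Topology ProbabilityTheory BoundedContinuousFunction

/-- Taylor's bound for the exponential on the imaginary axis -/
lemma rem_pos (P : ℕ) : ∀ y : ℝ, 0 ≤ y →
    ‖Complex.exp ((y:ℂ) * Complex.I) - ∑ m ∈ Finset.range P, ((y:ℂ) * Complex.I) ^ m / (m.factorial : ℂ)‖ ≤ y ^ P / P.factorial := by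
  induction P with
  | zero =>
    intro y _
    simp [Complex.norm_exp_ofReal_mul_I]
  | succ P ih =>
    intro y hy
    obtain ⟨f, hf⟩ : ∃ f : ℝ → ℂ, ∀ y : ℝ, f y = Complex.exp ((y:ℂ) * Complex.I) -
        (1 + ∑ m ∈ Finset.range P, ((y:ℂ) * Complex.I) ^ (m + 1) / ((m + 1).factorial : ℂ)) := ⟨_, fun _ => rfl⟩
    obtain ⟨f', hf'⟩ : ∃ f' : ℝ → ℂ, ∀ y : ℝ, f' y = (Complex.exp ((y:ℂ) * Complex.I) -
        ∑ m ∈ Finset.range P, ((y:ℂ) * Complex.I) ^ m / (m.factorial : ℂ)) * Complex.I := ⟨_, fun _ => rfl⟩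
    have hlin : ∀ y : ℝ, HasDerivAt (fun y : ℝ => (y:ℂ) * Complex.I) Complex.I y := by
      intro y
      have := (Complex.ofRealCLM.hasDerivAt (x := y)).mul_const Complex.I
      simpa using this
    have hd : ∀ y : ℝ, HasDerivAt f (f' y) y := by
      intro y
      have e0 : f = fun y : ℝ => Complex.exp ((y:ℂ) * Complex.I) -
        (1 + ∑ m ∈ Finset.range P, ((y:ℂ) * Complex.I) ^ (m + 1) / ((m + 1).factorial : ℂ)) := funext hf
      rw [e0, hf']
      have h1 := (hlin y).cexp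
      have h2 : ∀ m ∈ Finset.range P, HasDerivAt (fun y : ℝ => ((y:ℂ) * Complex.I) ^ (m + 1) / ((m + 1).factorial : ℂ))
          (((y:ℂ) * Complex.I) ^ m / (m.factorial : ℂ) * Complex.I) y := by
        intro m _
        have h3 : HasDerivAt (fun y : ℝ => ((y:ℂ) * Complex.I) ^ (m + 1) / ((m + 1).factorial : ℂ)) _ y :=
          ((hlin y).pow (m + 1)).div_const ((m + 1).factorial : ℂ)
        refine h3.congr_deriv ?_
        rw [Nat.factorial_succ]
        have : (m.factorial : ℂ) ≠ 0 := by exact_mod_cast m.factorial_ne_zero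
        have h4 : ((m:ℂ) + 1) ≠ 0 := by exact_mod_cast Nat.succ_ne_zero m
        push_cast
        rw [mul_assoc, mul_div_mul_left _ _ h4]
        ring
      have h5 := h1.sub ((HasDerivAt.fun_sum h2).const_add 1)
      refine h5.congr_deriv ?_
      rw [← Finset.sum_mul]
      ring
    have key := image_norm_le_of_norm_deriv_right_le_deriv_boundary (f := f) (f' := f') (a := 0) (b := y)
      (B := fun y => y ^ (P + 1) / ((P + 1).factorial : ℝ)) (B' := fun y => y ^ P / (P.factorial : ℝ))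
      (fun x _ => (hd x).continuousAt.continuousWithinAt) (fun x _ => (hd x).hasDerivWithinAt) (by rw [hf]; simp)
      (fun x => by
        have h3 : HasDerivAt (fun x : ℝ => x ^ (P + 1) / ((P + 1).factorial : ℝ)) _ x :=
          (hasDerivAt_pow (P + 1) x).div_const ((P + 1).factorial : ℝ)
        refine h3.congr_deriv ?_
        rw [Nat.factorial_succ]
        have : (P.factorial : ℝ) ≠ 0 := by exact_mod_cast P.factorial_ne_zero
        have h4 : ((P:ℝ) + 1) ≠ 0 := by positivity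
        push_cast
        exact mul_div_mul_left _ _ h4)
      (fun x hx => by
        rw [hf', norm_mul, Complex.norm_I, mul_one]
        exact ih x hx.1) (Set.right_mem_Icc.mpr hy)
    rw [hf] at key
    rw [Finset.sum_range_succ']
    simp only [pow_zero, Nat.factorial_zero, Nat.cast_one, div_one]
    rw [add_comm (∑ m ∈ Finset.range P, ((y:ℂ) * Complex.I) ^ (m + 1) / ((m + 1).factorial : ℂ)) 1]
    exact key

lemma rem (P : ℕ) (y : ℝ) :
    ‖Complex.exp ((y:ℂ) * Complex.I) - ∑ m ∈ Finset.range P, ((y:ℂ) * Complex.I) ^ m / (m.factorial : ℂ)‖ ≤ |y| ^ P / P.factorial := by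
  rcases le_total 0 y with h | h
  · rw [abs_of_nonneg h]
    exact rem_pos P y h
  · rw [abs_of_nonpos h]
    have h1 := rem_pos P (-y) (by linarith)
    have e1 : Complex.exp ((y:ℂ) * Complex.I) - ∑ m ∈ Finset.range P, ((y:ℂ) * Complex.I) ^ m / (m.factorial : ℂ) =
      (starRingEnd ℂ) (Complex.exp (((-y : ℝ):ℂ) * Complex.I) - ∑ m ∈ Finset.range P, (((-y : ℝ):ℂ) * Complex.I) ^ m / (m.factorial : ℂ)) := by
      rw [map_sub, map_sum, ← Complex.exp_conj]
      have e2 : (starRingEnd ℂ) (((-y : ℝ):ℂ) * Complex.I) = (y:ℂ) * Complex.I := by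
        rw [map_mul, Complex.conj_ofReal, Complex.conj_I]
        push_cast
        ring
      rw [e2]
      congr 1
      refine Finset.sum_congr rfl fun m _ => ?_
      rw [map_div₀, map_pow, e2, Complex.conj_natCast]
    rw [e1, RCLike.norm_conj]
    exact h1

/-- iterated limits -/
lemma curry_lim {X : Type*} [TopologicalSpace X] {f : ℕ → ℝ → X} {g : ℕ → X} {L : X}
    (h1 : ∀ᶠ N in atTop, Tendsto (f N) atTop (𝓝 (g N))) (h2 : Tendsto g atTop (𝓝 L)) :
    Tendsto (fun i : ℕ × ℝ => f i.1 i.2) ((atTop : Filter ℕ).curry (atTop : Filter ℝ)) (𝓝 L) := by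
  rw [tendsto_nhds]
  intro s hs hL
  show ∀ᶠ i : ℕ × ℝ in (atTop : Filter ℕ).curry (atTop : Filter ℝ), f i.1 i.2 ∈ s
  rw [eventually_curry_iff]
  filter_upwards [h1, h2.eventually (hs.mem_nhds hL)] with N a1 a2
  exact a1.eventually (hs.mem_nhds a2)

variable {n : ℕ}

/-- the letters -/
noncomputable def Xl (N : ℝ) (z : Fin n → ℂ) : Option (Fin n) → ℂ
  | none => 1
  | some j => Complex.exp (z j / N)

/-- the words -/
noncomputable def Wd {p : ℕ} (N : ℝ) (σ τ : Fin p → Option (Fin n)) (z : Fin n → ℂ) : ℂ :=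
  (∏ i, Xl N z (σ i)) * (starRingEnd ℂ) (∏ i, Xl N z (τ i))

/-- the approximate logarithms -/
noncomputable def ZN (N : ℝ) (z : Fin n → ℂ) : Fin n → ℂ := fun j => N * (Complex.exp (z j / N) - 1)

lemma Xl_cont (N : ℝ) (s : Option (Fin n)) : Continuous fun z : Fin n → ℂ => Xl N z s := by
  cases s with
  | none => exact continuous_const
  | some j =>
    show Continuous fun z : Fin n → ℂ => Complex.exp (z j / N)
    fun_prop

lemma Wd_cont {p : ℕ} (N : ℝ) (σ τ : Fin p → Option (Fin n)) : Continuous (Wd N σ τ : (Fin n → ℂ) → ℂ) := by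
  unfold Wd
  refine (continuous_finsetProd _ fun i _ => Xl_cont N _).mul ?_
  exact Complex.continuous_conj.comp (continuous_finsetProd _ fun i _ => Xl_cont N _)

lemma ZN_cont (N : ℝ) : Continuous (ZN N : (Fin n → ℂ) → (Fin n → ℂ)) := by
  unfold ZN
  fun_prop

/-- real linear functionals -/
lemma lin_rep (L : (Fin n → ℂ) →L[ℝ] ℝ) : ∃ c : Fin n → ℂ, ∀ z : Fin n → ℂ,
    ((L z : ℝ) : ℂ) = ∑ j, (c j * z j + (starRingEnd ℂ) (c j) * (starRingEnd ℂ) (z j)) := by
  refine ⟨fun j => (((L (Pi.single j 1) : ℝ) : ℂ) - Complex.I * ((L (Pi.single j Complex.I) : ℝ) : ℂ)) / 2, fun z => ?_⟩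
  have h1 : z = ∑ j, ((z j).re • (Pi.single j (1:ℂ) : Fin n → ℂ) + (z j).im • (Pi.single j Complex.I : Fin n → ℂ)) := by
    funext i
    rw [Finset.sum_apply, Finset.sum_eq_single i]
    · simp only [Pi.add_apply, Pi.smul_apply, Pi.single_eq_same, Complex.real_smul, mul_one]
      exact (Complex.re_add_im _).symm
    · intro j _ hj
      simp [Pi.single_eq_of_ne (Ne.symm hj)]
    · intro h
      exact absurd (Finset.mem_univ i) h
  have h2 : L z = ∑ j, ((z j).re * L (Pi.single j 1) + (z j).im * L (Pi.single j Complex.I)) := by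
    conv_lhs => rw [h1]
    rw [map_sum]
    refine Finset.sum_congr rfl fun j _ => ?_
    rw [map_add, map_smul, map_smul, smul_eq_mul, smul_eq_mul]
  rw [h2]
  push_cast
  refine Finset.sum_congr rfl fun j _ => ?_
  rw [map_div₀, map_sub, map_mul, Complex.conj_I, Complex.conj_ofReal, Complex.conj_ofReal, map_ofNat]
  apply Complex.ext
  · simp
    ring
  · simp
    ring

/-- powers of linear functionals of the approximate logarithms are combinations of words -/
lemma pow_words (L : (Fin n → ℂ) →L[ℝ] ℝ) (N : ℝ) : ∃ C : Option (Fin n) × Option (Fin n) → ℂ, ∀ (p : ℕ) (z : Fin n → ℂ),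
    ((L (ZN N z) : ℝ) : ℂ) ^ p = ∑ f : Fin p → Option (Fin n) × Option (Fin n), (∏ i, C (f i)) *
      Wd N (fun i => (f i).1) (fun i => (f i).2) z := by
  obtain ⟨c, hc⟩ := lin_rep L
  refine ⟨fun s => match s with
    | (none, none) => -(N * ∑ j, (c j + (starRingEnd ℂ) (c j)))
    | (some j, none) => N * c j
    | (none, some j) => N * (starRingEnd ℂ) (c j)
    | (some _, some _) => 0, fun p z => ?_⟩
  have h1 : ((L (ZN N z) : ℝ) : ℂ) = ∑ s : Option (Fin n) × Option (Fin n), (match s with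
    | (none, none) => -(N * ∑ j, (c j + (starRingEnd ℂ) (c j)))
    | (some j, none) => N * c j
    | (none, some j) => N * (starRingEnd ℂ) (c j)
    | (some _, some _) => 0) * (Xl N z s.1 * (starRingEnd ℂ) (Xl N z s.2)) := by
    rw [hc, Fintype.sum_prod_type, Fintype.sum_option, Fintype.sum_option]
    simp_rw [Fintype.sum_option]
    simp only [Xl, map_one, mul_one, one_mul, zero_mul, Finset.sum_const_zero, add_zero]
    unfold ZN
    simp only [map_mul, map_sub, map_one, Complex.conj_ofReal]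
    rw [Finset.mul_sum, ← Finset.sum_neg_distrib, ← Finset.sum_add_distrib, ← Finset.sum_add_distrib]
    refine Finset.sum_congr rfl fun j _ => ?_
    ring
  rw [h1, Fintype.sum_pow]
  refine Finset.sum_congr rfl fun f _ => ?_
  rw [Finset.prod_mul_distrib, Finset.prod_mul_distrib]
  unfold Wd
  rw [map_prod]

lemma ZN_bound (N : ℕ) (hN : N ≠ 0) (z : Fin n → ℂ) : ‖ZN (N:ℝ) z‖ ≤ Real.exp (2 * ‖z‖) := by
  have hN1 : (1:ℝ) ≤ N := by exact_mod_cast Nat.one_le_iff_ne_zero.mpr hN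
  refine (pi_norm_le_iff_of_nonneg (Real.exp_pos _).le).mpr fun j => ?_
  unfold ZN
  rw [norm_mul, Complex.norm_real, Real.norm_of_nonneg (by positivity)]
  have h1 := Complex.norm_exp_sub_sum_le_norm_mul_exp (z j / ((N:ℝ):ℂ)) 1
  simp only [Finset.sum_range_one, pow_zero, Nat.factorial_zero, Nat.cast_one, div_one, pow_one] at h1
  have hz : ‖z j / ((N:ℝ):ℂ)‖ = ‖z j‖ / N := by
    rw [norm_div, Complex.norm_real, Real.norm_of_nonneg (by positivity)]
  rw [hz] at h1
  have h2 : ‖z j‖ / N ≤ ‖z j‖ := div_le_self (norm_nonneg _) hN1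
  have h3 : (N:ℝ) * ‖Complex.exp (z j / ((N:ℝ):ℂ)) - 1‖ ≤ ‖z j‖ * Real.exp ‖z j‖ := by
    have h4 := mul_le_mul_of_nonneg_left h1 (by positivity : (0:ℝ) ≤ N)
    have h5 : (N:ℝ) * (‖z j‖ / N * Real.exp (‖z j‖ / N)) = ‖z j‖ * Real.exp (‖z j‖ / N) := by
      field_simp
    rw [h5] at h4
    exact h4.trans (mul_le_mul_of_nonneg_left (Real.exp_le_exp.mpr h2) (norm_nonneg _))
  refine h3.trans ?_
  have h6 : ‖z j‖ ≤ Real.exp ‖z j‖ := by have := Real.add_one_le_exp ‖z j‖; linarith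
  have h7 : ‖z j‖ ≤ ‖z‖ := norm_le_pi_norm z j
  calc ‖z j‖ * Real.exp ‖z j‖ ≤ Real.exp ‖z j‖ * Real.exp ‖z j‖ := mul_le_mul_of_nonneg_right h6 (Real.exp_pos _).le
    _ = Real.exp (2 * ‖z j‖) := by rw [← Real.exp_add]; congr 1; ring
    _ ≤ Real.exp (2 * ‖z‖) := Real.exp_le_exp.mpr (by linarith)

lemma ZN_lim (z : Fin n → ℂ) : Tendsto (fun N : ℕ => ZN (N:ℝ) z) atTop (𝓝 z) := by
  rw [tendsto_pi_nhds]
  intro j
  rw [tendsto_iff_norm_sub_tendsto_zero]
  have h1 : Tendsto (fun N : ℕ => ‖z j‖ ^ 2 * Real.exp ‖z j‖ / (N:ℝ)) atTop (𝓝 0) := tendsto_const_div_atTop_nhds_zero_nat _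
  refine squeeze_zero' (Eventually.of_forall fun _ => norm_nonneg _) ?_ h1
  filter_upwards [eventually_ge_atTop 1] with N hN
  have hN1 : (1:ℝ) ≤ N := by exact_mod_cast hN
  have hN0 : ((N:ℝ):ℂ) ≠ 0 := by
    have : (N:ℝ) ≠ 0 := by positivity
    exact_mod_cast this
  have h2 := Complex.norm_exp_sub_sum_le_norm_mul_exp (z j / ((N:ℝ):ℂ)) 2
  have e1 : ∑ m ∈ Finset.range 2, (z j / ((N:ℝ):ℂ)) ^ m / (m.factorial : ℂ) = 1 + z j / ((N:ℝ):ℂ) := by
    rw [Finset.sum_range_succ, Finset.sum_range_one]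
    simp
  have hz : ‖z j / ((N:ℝ):ℂ)‖ = ‖z j‖ / N := by
    rw [norm_div, Complex.norm_real, Real.norm_of_nonneg (by positivity)]
  rw [e1, hz] at h2
  have h3 : ‖z j‖ / N ≤ ‖z j‖ := div_le_self (norm_nonneg _) hN1
  have e2 : ZN (N:ℝ) z j - z j = ((N:ℝ):ℂ) * (Complex.exp (z j / ((N:ℝ):ℂ)) - (1 + z j / ((N:ℝ):ℂ))) := by
    unfold ZN
    field_simp
    ring
  rw [e2, norm_mul, Complex.norm_real, Real.norm_of_nonneg (by positivity)]
  have h4 := mul_le_mul_of_nonneg_left h2 (by positivity : (0:ℝ) ≤ N)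
  refine h4.trans ?_
  have h5 : (N:ℝ) * ((‖z j‖ / N) ^ 2 * Real.exp (‖z j‖ / N)) = ‖z j‖ ^ 2 * Real.exp (‖z j‖ / N) / N := by
    field_simp
  rw [h5]
  gcongr

end Pool.Agent.R313.CX
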