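import Pool.Agent.R313.CX.A

set_option autoImplicit false

/-! Convergence of complex random vectors from the moments of the roots of their exponentials. -/

namespace Pool.Agent.R313.CX

open MeasureTheory Filter Topology ProbabilityTheory BoundedContinuousFunction

/-- characteristic functions and moments -/
lemma char_near {Ω : Type*} [MeasurableSpace Ω] {μ : Measure Ω} [IsProbabilityMeasure μ] {y : Ω → ℝ} (hy : Measurable y)
    {P : ℕ} (hP : Even P) (h : ∀ m ≤ P, Integrable (fun ω => y ω ^ m) μ) :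
    ‖∫ ω, Complex.exp ((y ω : ℂ) * Complex.I) ∂μ - ∑ m ∈ Finset.range P, Complex.I ^ m / (m.factorial : ℂ) * ((∫ ω, y ω ^ m ∂μ : ℝ) : ℂ)‖ ≤
      (∫ ω, y ω ^ P ∂μ) / P.factorial := by
  have h1 : ∀ m ∈ Finset.range P, Integrable (fun ω => ((y ω : ℂ) * Complex.I) ^ m / (m.factorial : ℂ)) μ := by
    intro m hm
    have h2 := ((h m (Finset.mem_range.mp hm).le).ofReal (𝕜 := ℂ)).const_mul (Complex.I ^ m / (m.factorial : ℂ))
    refine h2.congr (Eventually.of_forall fun ω => ?_)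
    simp only [Complex.coe_algebraMap]
    push_cast
    ring
  have e1 : ∑ m ∈ Finset.range P, Complex.I ^ m / (m.factorial : ℂ) * ((∫ ω, y ω ^ m ∂μ : ℝ) : ℂ) =
      ∫ ω, ∑ m ∈ Finset.range P, ((y ω : ℂ) * Complex.I) ^ m / (m.factorial : ℂ) ∂μ := by
    rw [integral_finsetSum _ h1]
    refine Finset.sum_congr rfl fun m _ => ?_
    rw [← integral_complex_ofReal, ← integral_const_mul]
    refine integral_congr_ae (Eventually.of_forall fun ω => ?_)
    simp only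
    push_cast
    ring
  have h0 : Integrable (fun ω => Complex.exp ((y ω : ℂ) * Complex.I)) μ := by
    refine (integrable_const (1:ℝ)).mono' ?_ (Eventually.of_forall fun ω => ?_)
    · exact (by fun_prop : Measurable fun ω => Complex.exp ((y ω : ℂ) * Complex.I)).aestronglyMeasurable
    · rw [Complex.norm_exp_ofReal_mul_I]
  rw [e1, ← integral_sub h0 (integrable_finsetSum _ h1), ← integral_div]
  refine norm_integral_le_of_norm_le ((h P le_rfl).div_const _) (Eventually.of_forall fun ω => ?_)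
  have h3 := rem P (y ω)
  rw [hP.pow_abs] at h3
  exact h3

variable {n : ℕ}

lemma Xl_norm (N : ℕ) (hN : N ≠ 0) (z : Fin n → ℂ) (s : Option (Fin n)) : ‖Xl (N:ℝ) z s‖ ≤ Real.exp ‖z‖ := by
  have hN1 : (1:ℝ) ≤ N := by exact_mod_cast Nat.one_le_iff_ne_zero.mpr hN
  cases s with
  | none =>
    show ‖(1:ℂ)‖ ≤ _
    rw [norm_one]
    exact Real.one_le_exp (norm_nonneg _)
  | some j =>
    show ‖Complex.exp (z j / ((N:ℝ):ℂ))‖ ≤ _
    refine (Complex.norm_exp_le_exp_norm _).trans (Real.exp_le_exp.mpr ?_)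
    rw [norm_div, Complex.norm_real, Real.norm_of_nonneg (by positivity)]
    exact (div_le_self (norm_nonneg _) hN1).trans (norm_le_pi_norm z j)

lemma Wd_norm {p : ℕ} (N : ℕ) (hN : N ≠ 0) (σ τ : Fin p → Option (Fin n)) (z : Fin n → ℂ) :
    ‖Wd (N:ℝ) σ τ z‖ ≤ Real.exp (2 * p * ‖z‖) := by
  unfold Wd
  rw [norm_mul, RCLike.norm_conj, norm_prod, norm_prod]
  have h1 : ∀ σ : Fin p → Option (Fin n), ∏ i, ‖Xl (N:ℝ) z (σ i)‖ ≤ Real.exp ‖z‖ ^ p := by
    intro σ
    refine (Finset.prod_le_prod (fun i _ => norm_nonneg _) fun i _ => Xl_norm N hN z (σ i)).trans ?_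
    rw [Finset.prod_const, Finset.card_univ, Fintype.card_fin]
  refine (mul_le_mul (h1 σ) (h1 τ) (Finset.prod_nonneg fun i _ => norm_nonneg _) (by positivity)).trans (le_of_eq ?_)
  rw [← Real.exp_nat_mul, ← Real.exp_add]
  congr 1
  ring

/-- the mixed moments of the roots give the moments of the linear functionals of the approximate logarithms -/
lemma moments {k : ℝ} (hk : 0 < k) {Q : ℝ → ProbabilityMeasure (Fin n → ℂ)} {ρ : ProbabilityMeasure (Fin n → ℂ)}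
    (hρ : ∀ s : ℝ, Integrable (fun z => Real.exp (s * ‖z‖)) (ρ : Measure (Fin n → ℂ)))
    (hQ : ∀ (N p : ℕ), N ≠ 0 → (p:ℝ) < k * N → ∀ σ τ : Fin p → Option (Fin n),
      (∀ᶠ T in atTop, Integrable (Wd (N:ℝ) σ τ) (Q T : Measure (Fin n → ℂ))) ∧
      Tendsto (fun T => ∫ z, Wd (N:ℝ) σ τ z ∂(Q T : Measure (Fin n → ℂ))) atTop (𝓝 (∫ z, Wd (N:ℝ) σ τ z ∂(ρ : Measure (Fin n → ℂ)))))
    (L : (Fin n → ℂ) →L[ℝ] ℝ) (p : ℕ) :
    (∀ᶠ i : ℕ × ℝ in (atTop : Filter ℕ).curry (atTop : Filter ℝ), Integrable (fun z => (L (ZN (i.1:ℝ) z)) ^ p) (Q i.2 : Measure (Fin n → ℂ))) ∧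
    Integrable (fun z => (L z) ^ p) (ρ : Measure (Fin n → ℂ)) ∧
    Tendsto (fun i : ℕ × ℝ => ∫ z, (L (ZN (i.1:ℝ) z)) ^ p ∂(Q i.2 : Measure (Fin n → ℂ))) ((atTop : Filter ℕ).curry (atTop : Filter ℝ))
      (𝓝 (∫ z, (L z) ^ p ∂(ρ : Measure (Fin n → ℂ)))) := by
  have hbig : ∀ᶠ N : ℕ in atTop, N ≠ 0 ∧ (p:ℝ) < k * N := by
    have h1 : Tendsto (fun N : ℕ => k * (N:ℝ)) atTop atTop := tendsto_natCast_atTop_atTop.const_mul_atTop hk
    filter_upwards [eventually_ne_atTop 0, h1.eventually_gt_atTop (p:ℝ)] with N a1 a2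
    exact ⟨a1, a2⟩
  have hWρ : ∀ (N : ℕ), N ≠ 0 → ∀ σ τ : Fin p → Option (Fin n), Integrable (Wd (N:ℝ) σ τ) (ρ : Measure (Fin n → ℂ)) := by
    intro N hN σ τ
    exact (hρ (2 * p)).mono' (Wd_cont _ _ _).aestronglyMeasurable (Eventually.of_forall fun z => Wd_norm N hN σ τ z)
  -- the moments, for each root
  have key : ∀ N : ℕ, N ≠ 0 → (p:ℝ) < k * N →
      (∀ᶠ T in atTop, Integrable (fun z => (L (ZN (N:ℝ) z)) ^ p) (Q T : Measure (Fin n → ℂ))) ∧
      Tendsto (fun T => ∫ z, (L (ZN (N:ℝ) z)) ^ p ∂(Q T : Measure (Fin n → ℂ))) atTop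
        (𝓝 (∫ z, (L (ZN (N:ℝ) z)) ^ p ∂(ρ : Measure (Fin n → ℂ)))) := by
    intro N hN hp
    obtain ⟨C, hC⟩ := pow_words L (N:ℝ)
    have hall : ∀ᶠ T in atTop, ∀ f : Fin p → Option (Fin n) × Option (Fin n),
        Integrable (Wd (N:ℝ) (fun i => (f i).1) (fun i => (f i).2)) (Q T : Measure (Fin n → ℂ)) :=
      eventually_all.mpr fun f => (hQ N p hN hp _ _).1
    have hgen : ∀ (μ : ProbabilityMeasure (Fin n → ℂ)), (∀ f : Fin p → Option (Fin n) × Option (Fin n),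
        Integrable (Wd (N:ℝ) (fun i => (f i).1) (fun i => (f i).2)) (μ : Measure (Fin n → ℂ))) →
        Integrable (fun z => (L (ZN (N:ℝ) z)) ^ p) (μ : Measure (Fin n → ℂ)) ∧
        ((∫ z, (L (ZN (N:ℝ) z)) ^ p ∂(μ : Measure (Fin n → ℂ)) : ℝ) : ℂ) =
          ∑ f : Fin p → Option (Fin n) × Option (Fin n), (∏ i, C (f i)) *
            ∫ z, Wd (N:ℝ) (fun i => (f i).1) (fun i => (f i).2) z ∂(μ : Measure (Fin n → ℂ)) := by
      intro μ hμ
      have i1 : ∀ f ∈ (Finset.univ : Finset (Fin p → Option (Fin n) × Option (Fin n))), Integrable (fun z => (∏ i, C (f i)) *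
          Wd (N:ℝ) (fun i => (f i).1) (fun i => (f i).2) z) (μ : Measure (Fin n → ℂ)) := fun f _ => (hμ f).const_mul _
      have i2 := integrable_finsetSum _ i1
      constructor
      · have i3 := i2.re
        refine i3.congr (Eventually.of_forall fun z => ?_)
        simp only
        rw [← hC p z, ← Complex.ofReal_pow]
        exact Complex.ofReal_re _
      · rw [← integral_complex_ofReal]
        have e1 : ∀ z, (((L (ZN (N:ℝ) z)) ^ p : ℝ) : ℂ) = ∑ f : Fin p → Option (Fin n) × Option (Fin n), (∏ i, C (f i)) *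
            Wd (N:ℝ) (fun i => (f i).1) (fun i => (f i).2) z := by
          intro z
          rw [← hC p z]
          push_cast
          rfl
        simp_rw [e1]
        rw [integral_finsetSum _ i1]
        simp_rw [integral_const_mul]
    refine ⟨hall.mono fun T hT => (hgen (Q T) hT).1, ?_⟩
    have h1 : Tendsto (fun T => ∑ f : Fin p → Option (Fin n) × Option (Fin n), (∏ i, C (f i)) *
            ∫ z, Wd (N:ℝ) (fun i => (f i).1) (fun i => (f i).2) z ∂(Q T : Measure (Fin n → ℂ))) atTop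
        (𝓝 (∑ f : Fin p → Option (Fin n) × Option (Fin n), (∏ i, C (f i)) *
            ∫ z, Wd (N:ℝ) (fun i => (f i).1) (fun i => (f i).2) z ∂(ρ : Measure (Fin n → ℂ)))) :=
      tendsto_finsetSum _ fun f _ => (hQ N p hN hp _ _).2.const_mul _
    rw [← (hgen ρ fun f => hWρ N hN _ _).2] at h1
    have h2 := (Complex.continuous_re.tendsto _).comp h1
    rw [Complex.ofReal_re] at h2
    refine h2.congr' ?_
    filter_upwards [hall] with T hT
    rw [Function.comp, ← (hgen (Q T) hT).2, Complex.ofReal_re]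
  -- the limit in the root
  have hdom : ∀ N : ℕ, N ≠ 0 → ∀ z : Fin n → ℂ, ‖(L (ZN (N:ℝ) z)) ^ p‖ ≤ ‖L‖ ^ p * Real.exp (2 * p * ‖z‖) := by
    intro N hN z
    rw [norm_pow]
    have h1 : ‖L (ZN (N:ℝ) z)‖ ≤ ‖L‖ * Real.exp (2 * ‖z‖) :=
      (L.le_opNorm _).trans (mul_le_mul_of_nonneg_left (ZN_bound N hN z) (norm_nonneg _))
    refine (pow_le_pow_left₀ (norm_nonneg _) h1 p).trans (le_of_eq ?_)
    rw [mul_pow, ← Real.exp_nat_mul]
    congr 2
    ring
  have hlim : Tendsto (fun N : ℕ => ∫ z, (L (ZN (N:ℝ) z)) ^ p ∂(ρ : Measure (Fin n → ℂ))) atTop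
      (𝓝 (∫ z, (L z) ^ p ∂(ρ : Measure (Fin n → ℂ)))) := by
    refine tendsto_integral_filter_of_dominated_convergence (fun z => ‖L‖ ^ p * Real.exp (2 * p * ‖z‖)) ?_ ?_
      ((hρ (2 * p)).const_mul _) (Eventually.of_forall fun z => ?_)
    · exact Eventually.of_forall fun N => ((L.continuous.comp (ZN_cont _)).pow p).aestronglyMeasurable
    · filter_upwards [eventually_ne_atTop 0] with N hN
      exact Eventually.of_forall fun z => hdom N hN z
    · exact ((L.continuous.tendsto _).comp (ZN_lim z)).pow p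
  refine ⟨?_, ?_, curry_lim (f := fun N T => ∫ z, (L (ZN (N:ℝ) z)) ^ p ∂(Q T : Measure (Fin n → ℂ))) (hbig.mono fun N hN => (key N hN.1 hN.2).2) hlim⟩
  · rw [eventually_curry_iff]
    exact hbig.mono fun N hN => (key N hN.1 hN.2).1
  · refine ((hρ p).const_mul (‖L‖ ^ p)).mono' (L.continuous.pow p).aestronglyMeasurable (Eventually.of_forall fun z => ?_)
    rw [norm_pow]
    have h1 : ‖L z‖ ≤ ‖L‖ * Real.exp ‖z‖ :=
      (L.le_opNorm _).trans (mul_le_mul_of_nonneg_left (by have := Real.add_one_le_exp ‖z‖; linarith) (norm_nonneg _))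
    refine (pow_le_pow_left₀ (norm_nonneg _) h1 p).trans (le_of_eq ?_)
    rw [mul_pow, ← Real.exp_nat_mul]

/-- the characteristic functions of the approximate logarithms -/
lemma chars {k : ℝ} (hk : 0 < k) {Q : ℝ → ProbabilityMeasure (Fin n → ℂ)} {ρ : ProbabilityMeasure (Fin n → ℂ)}
    (hρ : ∀ s : ℝ, Integrable (fun z => Real.exp (s * ‖z‖)) (ρ : Measure (Fin n → ℂ)))
    (hQ : ∀ (N p : ℕ), N ≠ 0 → (p:ℝ) < k * N → ∀ σ τ : Fin p → Option (Fin n),
      (∀ᶠ T in atTop, Integrable (Wd (N:ℝ) σ τ) (Q T : Measure (Fin n → ℂ))) ∧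
      Tendsto (fun T => ∫ z, Wd (N:ℝ) σ τ z ∂(Q T : Measure (Fin n → ℂ))) atTop (𝓝 (∫ z, Wd (N:ℝ) σ τ z ∂(ρ : Measure (Fin n → ℂ)))))
    (L : (Fin n → ℂ) →L[ℝ] ℝ) :
    Tendsto (fun i : ℕ × ℝ => ∫ z, Complex.exp ((L (ZN (i.1:ℝ) z) : ℂ) * Complex.I) ∂(Q i.2 : Measure (Fin n → ℂ)))
      ((atTop : Filter ℕ).curry (atTop : Filter ℝ)) (𝓝 (∫ z, Complex.exp ((L z : ℂ) * Complex.I) ∂(ρ : Measure (Fin n → ℂ)))) := by
  have hm := moments hk hρ hQ L
  -- the tail
  have htail : Tendsto (fun q : ℕ => ∫ z, (L z) ^ (2 * q) / ((2 * q).factorial : ℝ) ∂(ρ : Measure (Fin n → ℂ))) atTop (𝓝 0) := by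
    have h1 : Tendsto (fun q : ℕ => ∫ z, (L z) ^ (2 * q) / ((2 * q).factorial : ℝ) ∂(ρ : Measure (Fin n → ℂ))) atTop
        (𝓝 (∫ _z : Fin n → ℂ, (0:ℝ) ∂(ρ : Measure (Fin n → ℂ)))) := by
      refine tendsto_integral_of_dominated_convergence (fun z => Real.exp (‖L‖ * ‖z‖))
        (fun q => ((L.continuous.pow _).div_const _).aestronglyMeasurable) (hρ ‖L‖)
        (fun q => Eventually.of_forall fun z => ?_) (Eventually.of_forall fun z => ?_)
      · rw [norm_div, norm_pow, Real.norm_natCast]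
        refine (Real.pow_div_factorial_le_exp _ (norm_nonneg _) _).trans (Real.exp_le_exp.mpr (L.le_opNorm z))
      · exact (FloorSemiring.tendsto_pow_div_factorial_atTop (L z)).comp (tendsto_id.const_mul_atTop' (by norm_num : 0 < 2))
    rwa [integral_zero] at h1
  rw [Metric.tendsto_nhds]
  intro ε hε
  obtain ⟨q, hq⟩ := (htail.eventually (gt_mem_nhds (by positivity : (0:ℝ) < ε / 4))).exists
  have hP : Even (2 * q) := even_two_mul q
  have hint : ∀ᶠ i : ℕ × ℝ in (atTop : Filter ℕ).curry (atTop : Filter ℝ), ∀ m ≤ 2 * q,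
      Integrable (fun z => (L (ZN (i.1:ℝ) z)) ^ m) (Q i.2 : Measure (Fin n → ℂ)) := by
    have h1 : ∀ᶠ i : ℕ × ℝ in (atTop : Filter ℕ).curry (atTop : Filter ℝ), ∀ m ∈ Finset.range (2 * q + 1),
        Integrable (fun z => (L (ZN (i.1:ℝ) z)) ^ m) (Q i.2 : Measure (Fin n → ℂ)) :=
      (eventually_all_finset _).mpr fun m _ => (hm m).1
    filter_upwards [h1] with i hi m hmq
    exact hi m (Finset.mem_range.mpr (by omega))
  have hs : Tendsto (fun i : ℕ × ℝ => ∑ m ∈ Finset.range (2 * q), Complex.I ^ m / (m.factorial : ℂ) *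
      ((∫ z, (L (ZN (i.1:ℝ) z)) ^ m ∂(Q i.2 : Measure (Fin n → ℂ)) : ℝ) : ℂ)) ((atTop : Filter ℕ).curry (atTop : Filter ℝ))
      (𝓝 (∑ m ∈ Finset.range (2 * q), Complex.I ^ m / (m.factorial : ℂ) * ((∫ z, (L z) ^ m ∂(ρ : Measure (Fin n → ℂ)) : ℝ) : ℂ))) :=
    tendsto_finsetSum _ fun m _ => (((Complex.continuous_ofReal.tendsto _).comp (hm m).2.2)).const_mul _
  have hlast := (hm (2 * q)).2.2.div_const ((2 * q).factorial : ℝ)
  rw [← integral_div] at hlast
  have hlast' := hlast.eventually (gt_mem_nhds hq)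
  filter_upwards [hint, Metric.tendsto_nhds.mp hs (ε / 4) (by positivity), hlast'] with i a1 a2 a3
  have b1 := char_near (μ := (Q i.2 : Measure (Fin n → ℂ))) (y := fun z => L (ZN (i.1:ℝ) z)) (L.continuous.comp (ZN_cont _)).measurable hP a1
  have b2 := char_near (μ := (ρ : Measure (Fin n → ℂ))) (y := fun z => L z) L.continuous.measurable hP (fun m _ => (hm m).2.1)
  rw [← integral_div] at b2
  rw [dist_eq_norm] at a2 ⊢
  set A := ∫ z, Complex.exp ((L (ZN (i.1:ℝ) z) : ℂ) * Complex.I) ∂(Q i.2 : Measure (Fin n → ℂ))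
  set B := ∫ z, Complex.exp ((L z : ℂ) * Complex.I) ∂(ρ : Measure (Fin n → ℂ))
  set U := ∑ m ∈ Finset.range (2 * q), Complex.I ^ m / (m.factorial : ℂ) *
      ((∫ z, (L (ZN (i.1:ℝ) z)) ^ m ∂(Q i.2 : Measure (Fin n → ℂ)) : ℝ) : ℂ)
  set W := ∑ m ∈ Finset.range (2 * q), Complex.I ^ m / (m.factorial : ℂ) * ((∫ z, (L z) ^ m ∂(ρ : Measure (Fin n → ℂ)) : ℝ) : ℂ)
  have e1 : A - B = (A - U) + (U - W) - (B - W) := by ring
  rw [e1]
  have c1 := norm_sub_le ((A - U) + (U - W)) (B - W)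
  have c2 := norm_add_le (A - U) (U - W)
  have c3 : ‖A - U‖ ≤ ε / 4 := b1.trans a3.le
  linarith

end Pool.Agent.R313.CX
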