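import Pool.Agent.R313.CX.B

set_option autoImplicit false

/-! Convergence of complex random vectors from the moments of the roots of their exponentials. -/

namespace Pool.Agent.R313.CX

open MeasureTheory Filter Topology ProbabilityTheory BoundedContinuousFunction

variable {n : ℕ}

/-- bounded second moments -/
def Sq (n : ℕ) (C : ℝ) : Set (ProbabilityMeasure (Fin n → ℂ)) :=
  {μ : ProbabilityMeasure (Fin n → ℂ) | Integrable (fun z => ‖z‖ ^ 2) (μ : Measure (Fin n → ℂ)) ∧ ∫ z, ‖z‖ ^ 2 ∂(μ : Measure (Fin n → ℂ)) ≤ C}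

lemma tight_Sq (C : ℝ) : IsTightMeasureSet {((μ : ProbabilityMeasure (Fin n → ℂ)) : Measure (Fin n → ℂ)) | μ ∈ Sq n C} := by
  rw [isTightMeasureSet_iff_exists_isCompact_measure_compl_le]
  intro ε hε
  obtain ⟨r, hr0, hr⟩ : ∃ r : ℝ, 0 < r ∧ ENNReal.ofReal (C / r ^ 2) ≤ ε := by
    have h0 : Tendsto (fun r : ℝ => C / r ^ 2) atTop (𝓝 0) := tendsto_const_nhds.div_atTop (tendsto_pow_atTop (by norm_num))
    have h1 := ENNReal.tendsto_ofReal h0
    rw [ENNReal.ofReal_zero] at h1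
    obtain ⟨r, a1, a2⟩ := ((h1.eventually (gt_mem_nhds hε)).and (eventually_gt_atTop 0)).exists
    exact ⟨r, a2, a1.le⟩
  refine ⟨Metric.closedBall 0 r, isCompact_closedBall 0 r, ?_⟩
  rintro _ ⟨μ, ⟨h1, h2⟩, rfl⟩
  refine le_trans ?_ hr
  have h5 : (μ : Measure (Fin n → ℂ)).real (Metric.closedBall 0 r)ᶜ ≤ C / r ^ 2 := by
    have hm : MeasurableSet (Metric.closedBall (0:Fin n → ℂ) r)ᶜ := Metric.isClosed_closedBall.measurableSet.compl
    rw [← integral_indicator_one hm]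
    have h6 : ∫ x, (Metric.closedBall (0:Fin n → ℂ) r)ᶜ.indicator 1 x ∂(μ : Measure (Fin n → ℂ)) ≤
        ∫ x, ‖x‖ ^ 2 / r ^ 2 ∂(μ : Measure (Fin n → ℂ)) := by
      refine integral_mono ?_ (h1.div_const _) fun x => ?_
      · exact (integrable_const (1:ℝ)).indicator hm
      · by_cases hx : x ∈ (Metric.closedBall (0:Fin n → ℂ) r)ᶜ
        · rw [Set.indicator_of_mem hx]
          rw [Set.mem_compl_iff, Metric.mem_closedBall, dist_zero_right, not_le] at hx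
          show (1:ℝ) ≤ ‖x‖ ^ 2 / r ^ 2
          rw [one_le_div (by positivity)]
          exact pow_le_pow_left₀ hr0.le hx.le 2
        · rw [Set.indicator_of_notMem hx]
          positivity
    refine h6.trans ?_
    rw [integral_div]
    exact div_le_div_of_nonneg_right h2 (by positivity)
  rw [measureReal_def] at h5
  exact ENNReal.le_ofReal_iff_toReal_le (measure_ne_top _ _) (le_trans ENNReal.toReal_nonneg h5) |>.mpr h5

lemma norm_sq_le (z : Fin n → ℂ) : ‖z‖ ^ 2 ≤ ∑ j, ((z j).re ^ 2 + (z j).im ^ 2) := by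
  have h0 : 0 ≤ ∑ j, ((z j).re ^ 2 + (z j).im ^ 2) := Finset.sum_nonneg fun j _ => by positivity
  have h1 : ‖z‖ ≤ Real.sqrt (∑ j, ((z j).re ^ 2 + (z j).im ^ 2)) := by
    refine (pi_norm_le_iff_of_nonneg (Real.sqrt_nonneg _)).mpr fun j => ?_
    refine Real.le_sqrt_of_sq_le ?_
    have h2 : ‖z j‖ ^ 2 = (z j).re ^ 2 + (z j).im ^ 2 := by
      rw [← Complex.normSq_eq_norm_sq, Complex.normSq_apply]
      ring
    rw [h2]
    exact Finset.single_le_sum (f := fun j => (z j).re ^ 2 + (z j).im ^ 2) (fun j _ => by positivity) (Finset.mem_univ j)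
  calc ‖z‖ ^ 2 ≤ Real.sqrt (∑ j, ((z j).re ^ 2 + (z j).im ^ 2)) ^ 2 := pow_le_pow_left₀ (norm_nonneg _) h1 2
    _ = _ := Real.sq_sqrt h0

/-- the law of the approximate logarithms -/
noncomputable def PN (N : ℝ) (μ : ProbabilityMeasure (Fin n → ℂ)) : ProbabilityMeasure (Fin n → ℂ) :=
  μ.map (ZN_cont N).measurable.aemeasurable

lemma PN_int (N : ℝ) (μ : ProbabilityMeasure (Fin n → ℂ)) {V : Type*} [NormedAddCommGroup V] [NormedSpace ℝ V] {f : (Fin n → ℂ) → V}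
    (hf : StronglyMeasurable f) : ∫ z, f z ∂(PN N μ : Measure (Fin n → ℂ)) = ∫ z, f (ZN N z) ∂(μ : Measure (Fin n → ℂ)) := by
  unfold PN
  rw [ProbabilityMeasure.toMeasure_map, integral_map (ZN_cont N).measurable.aemeasurable hf.aestronglyMeasurable]

/-- the real and imaginary parts of the coordinates -/
noncomputable def Lr (j : Fin n) : (Fin n → ℂ) →L[ℝ] ℝ := Complex.reCLM.comp (ContinuousLinearMap.proj j)
noncomputable def Li (j : Fin n) : (Fin n → ℂ) →L[ℝ] ℝ := Complex.imCLM.comp (ContinuousLinearMap.proj j)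

lemma Lr_apply (j : Fin n) (z : Fin n → ℂ) : Lr j z = (z j).re := rfl
lemma Li_apply (j : Fin n) (z : Fin n → ℂ) : Li j z = (z j).im := rfl

variable {k : ℝ} {Q : ℝ → ProbabilityMeasure (Fin n → ℂ)} {ρ : ProbabilityMeasure (Fin n → ℂ)}

/-- bounded second moments along the filter -/
lemma second (hk : 0 < k)
    (hρ : ∀ s : ℝ, Integrable (fun z => Real.exp (s * ‖z‖)) (ρ : Measure (Fin n → ℂ)))
    (hQ : ∀ (N p : ℕ), N ≠ 0 → (p:ℝ) < k * N → ∀ σ τ : Fin p → Option (Fin n),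
      (∀ᶠ T in atTop, Integrable (Wd (N:ℝ) σ τ) (Q T : Measure (Fin n → ℂ))) ∧
      Tendsto (fun T => ∫ z, Wd (N:ℝ) σ τ z ∂(Q T : Measure (Fin n → ℂ))) atTop (𝓝 (∫ z, Wd (N:ℝ) σ τ z ∂(ρ : Measure (Fin n → ℂ))))) :
    ∃ C : ℝ, 0 < C ∧ ∀ᶠ i : ℕ × ℝ in (atTop : Filter ℕ).curry (atTop : Filter ℝ), PN (i.1:ℝ) (Q i.2) ∈ Sq n C := by
  have h1 := fun j : Fin n => moments hk hρ hQ (Lr j) 2
  have h2 := fun j : Fin n => moments hk hρ hQ (Li j) 2
  have h3 : Tendsto (fun i : ℕ × ℝ => ∑ j, ((∫ z, (Lr j (ZN (i.1:ℝ) z)) ^ 2 ∂(Q i.2 : Measure (Fin n → ℂ))) +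
      ∫ z, (Li j (ZN (i.1:ℝ) z)) ^ 2 ∂(Q i.2 : Measure (Fin n → ℂ)))) ((atTop : Filter ℕ).curry (atTop : Filter ℝ))
      (𝓝 (∑ j, ((∫ z, (Lr j z) ^ 2 ∂(ρ : Measure (Fin n → ℂ))) + ∫ z, (Li j z) ^ 2 ∂(ρ : Measure (Fin n → ℂ))))) :=
    tendsto_finsetSum _ fun j _ => (h1 j).2.2.add (h2 j).2.2
  obtain ⟨C, hC⟩ : ∃ C : ℝ, C = (∑ j, ((∫ z, (Lr j z) ^ 2 ∂(ρ : Measure (Fin n → ℂ))) + ∫ z, (Li j z) ^ 2 ∂(ρ : Measure (Fin n → ℂ)))) + 1 := ⟨_, rfl⟩
  have hC0 : 0 ≤ ∑ j, ((∫ z, (Lr j z) ^ 2 ∂(ρ : Measure (Fin n → ℂ))) + ∫ z, (Li j z) ^ 2 ∂(ρ : Measure (Fin n → ℂ))) :=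
    Finset.sum_nonneg fun j _ => add_nonneg (integral_nonneg fun z => sq_nonneg _) (integral_nonneg fun z => sq_nonneg _)
  have h4 := h3.eventually (gt_mem_nhds (show _ < C by rw [hC]; linarith))
  refine ⟨C, by rw [hC]; linarith, ?_⟩
  filter_upwards [eventually_all.mpr fun j => (h1 j).1, eventually_all.mpr fun j => (h2 j).1, h4] with i a1 a2 a3
  have i1 : ∀ j ∈ (Finset.univ : Finset (Fin n)), Integrable (fun z => (Lr j (ZN (i.1:ℝ) z)) ^ 2 + (Li j (ZN (i.1:ℝ) z)) ^ 2)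
      (Q i.2 : Measure (Fin n → ℂ)) := fun j _ => (a1 j).add (a2 j)
  have i2 : Integrable (fun z => ‖ZN (i.1:ℝ) z‖ ^ 2) (Q i.2 : Measure (Fin n → ℂ)) :=
    (integrable_finsetSum _ i1).mono' (((ZN_cont _).norm.pow 2).aestronglyMeasurable) (Eventually.of_forall fun z => by
      rw [Real.norm_of_nonneg (by positivity)]
      exact norm_sq_le _)
  refine ⟨?_, ?_⟩
  · unfold PN
    rw [ProbabilityMeasure.toMeasure_map, integrable_map_measure (by fun_prop) (ZN_cont _).measurable.aemeasurable]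
    exact i2
  · rw [PN_int (f := fun z : Fin n → ℂ => ‖z‖ ^ 2) _ _ (by fun_prop : Continuous fun z : Fin n → ℂ => ‖z‖ ^ 2).stronglyMeasurable]
    refine (integral_mono i2 (integrable_finsetSum _ i1) fun z => norm_sq_le _).trans ?_
    rw [integral_finsetSum _ i1]
    refine le_trans (le_of_eq ?_) a3.le
    refine Finset.sum_congr rfl fun j _ => integral_add (a1 j) (a2 j)

/-- the approximate logarithms converge in law -/
lemma weak (hk : 0 < k)
    (hρ : ∀ s : ℝ, Integrable (fun z => Real.exp (s * ‖z‖)) (ρ : Measure (Fin n → ℂ)))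
    (hQ : ∀ (N p : ℕ), N ≠ 0 → (p:ℝ) < k * N → ∀ σ τ : Fin p → Option (Fin n),
      (∀ᶠ T in atTop, Integrable (Wd (N:ℝ) σ τ) (Q T : Measure (Fin n → ℂ))) ∧
      Tendsto (fun T => ∫ z, Wd (N:ℝ) σ τ z ∂(Q T : Measure (Fin n → ℂ))) atTop (𝓝 (∫ z, Wd (N:ℝ) σ τ z ∂(ρ : Measure (Fin n → ℂ))))) :
    Tendsto (fun i : ℕ × ℝ => PN (i.1:ℝ) (Q i.2)) ((atTop : Filter ℕ).curry (atTop : Filter ℝ)) (𝓝 ρ) := by
  obtain ⟨C, -, hC⟩ := second hk hρ hQ
  rw [tendsto_iff_ultrafilter]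
  intro g hg
  have hcomp : IsCompact (closure (Sq n C)) := isCompact_closure_of_isTightMeasureSet (tight_Sq C)
  obtain ⟨ρ', -, hρ'⟩ := isCompact_iff_ultrafilter_le_nhds.mp hcomp (g.map fun i : ℕ × ℝ => PN (i.1:ℝ) (Q i.2)) (by
    rw [Ultrafilter.coe_map, le_principal_iff, mem_map]
    filter_upwards [hg hC] with i hi
    exact subset_closure hi)
  have hT : Tendsto (fun i : ℕ × ℝ => PN (i.1:ℝ) (Q i.2)) g (𝓝 ρ') := hρ'
  have heq : (ρ' : Measure (Fin n → ℂ)) = (ρ : Measure (Fin n → ℂ)) := by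
    refine Measure.ext_of_charFunDual (funext fun L => ?_)
    rw [charFunDual_apply, charFunDual_apply]
    have h1 := (ProbabilityMeasure.tendsto_iff_forall_integral_rclike_tendsto ℂ).mp hT (probCharDual L)
    simp_rw [probCharDual_apply] at h1
    have h2 := (chars hk hρ hQ L).mono_left hg
    refine tendsto_nhds_unique h1 (h2.congr fun i => ?_)
    rw [PN_int]
    exact ((by fun_prop : Continuous fun z : Fin n → ℂ => Complex.exp ((L z : ℂ) * Complex.I))).stronglyMeasurable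
  have : ρ' = ρ := Subtype.ext heq
  rw [this] at hT
  exact hT

/-- the powers converge to the exponentials, uniformly on compact sets -/
lemma unif (F : BoundedContinuousFunction (Fin n → ℂ) ℝ) (r : ℝ) {ε : ℝ} (hε : 0 < ε) :
    ∀ᶠ N : ℕ in atTop, ∀ z : Fin n → ℂ, ‖z‖ ≤ r → |F (fun j => (1 + z j / ((N:ℝ):ℂ)) ^ N) - F (fun j => Complex.exp (z j))| ≤ ε := by
  have hc : Continuous fun z : Fin n → ℂ => F (fun j => Complex.exp (z j)) := F.continuous.comp (by fun_prop)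
  have hu := (isCompact_closedBall (0 : Fin n → ℂ) (r + 1)).uniformContinuousOn_of_continuous hc.continuousOn
  obtain ⟨η, hη, h⟩ := Metric.uniformContinuousOn_iff.mp hu ε hε
  have hlim : Tendsto (fun N : ℕ => r ^ 2 / (N:ℝ)) atTop (𝓝 0) := tendsto_const_div_atTop_nhds_zero_nat _
  filter_upwards [eventually_ge_atTop 1, hlim.eventually (gt_mem_nhds (show (0:ℝ) < min η 1 by positivity)),
    tendsto_natCast_atTop_atTop.eventually_ge_atTop (2 * r)] with N hN h2 h3 z hz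
  have hN1 : (1:ℝ) ≤ N := by exact_mod_cast hN
  have hN0 : (0:ℝ) < N := by positivity
  have hr0 : 0 ≤ r := (norm_nonneg z).trans hz
  have hzj : ∀ j, ‖z j‖ ≤ r := fun j => (norm_le_pi_norm z j).trans hz
  have hzn : ∀ j, ‖z j / ((N:ℝ):ℂ)‖ ≤ 1 / 2 := by
    intro j
    rw [norm_div, Complex.norm_real, Real.norm_of_nonneg hN0.le, div_le_iff₀ hN0]
    have := hzj j
    linarith
  obtain ⟨w, hw⟩ : ∃ w : Fin n → ℂ, ∀ j, w j = (N:ℂ) * Complex.log (1 + z j / ((N:ℝ):ℂ)) := ⟨_, fun _ => rfl⟩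
  have hexp : ∀ j, Complex.exp (w j) = (1 + z j / ((N:ℝ):ℂ)) ^ N := by
    intro j
    rw [hw, Complex.exp_nat_mul, Complex.exp_log]
    intro h0
    have h4 : z j / ((N:ℝ):ℂ) = -1 := by linear_combination h0
    have h5 := hzn j
    rw [h4, norm_neg, norm_one] at h5
    norm_num at h5
  have hdist : ‖w - z‖ ≤ r ^ 2 / N := by
    refine (pi_norm_le_iff_of_nonneg (by positivity)).mpr fun j => ?_
    have h4 := Complex.norm_log_one_add_sub_self_le (z := z j / ((N:ℝ):ℂ)) (by have := hzn j; linarith)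
    have h5 : (w - z) j = ((N:ℝ):ℂ) * (Complex.log (1 + z j / ((N:ℝ):ℂ)) - z j / ((N:ℝ):ℂ)) := by
      have : ((N:ℝ):ℂ) ≠ 0 := by exact_mod_cast hN0.ne'
      rw [Pi.sub_apply, hw]
      push_cast at this ⊢
      field_simp
    rw [h5, norm_mul, Complex.norm_real, Real.norm_of_nonneg hN0.le]
    have h6 : (1 - ‖z j / ((N:ℝ):ℂ)‖)⁻¹ ≤ 2 := by
      rw [inv_le_comm₀ (by have := hzn j; linarith) (by norm_num)]
      have := hzn j
      linarith
    have h7 : ‖z j / ((N:ℝ):ℂ)‖ ≤ r / N := by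
      rw [norm_div, Complex.norm_real, Real.norm_of_nonneg hN0.le]
      exact div_le_div_of_nonneg_right (hzj j) hN0.le
    have h8 : ‖z j / ((N:ℝ):ℂ)‖ ^ 2 * (1 - ‖z j / ((N:ℝ):ℂ)‖)⁻¹ / 2 ≤ (r / N) ^ 2 * 2 / 2 := by
      have h6' : 0 ≤ (1 - ‖z j / ((N:ℝ):ℂ)‖)⁻¹ := inv_nonneg.mpr (by have := hzn j; linarith)
      exact div_le_div_of_nonneg_right (mul_le_mul (pow_le_pow_left₀ (norm_nonneg _) h7 2) h6 h6' (by positivity)) (by norm_num)
    have h9 := mul_le_mul_of_nonneg_left (h4.trans h8) hN0.le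
    refine h9.trans (le_of_eq ?_)
    field_simp
  have hd2 : ‖w - z‖ < min η 1 := hdist.trans_lt h2
  have h10 := h w (by
    rw [Metric.mem_closedBall, dist_zero_right]
    have h11 : w = (w - z) + z := by abel
    rw [h11]
    have := norm_add_le (w - z) z
    have := (hd2.trans_le (min_le_right _ _)).le
    linarith) z (by
    rw [Metric.mem_closedBall, dist_zero_right]
    linarith) (by rw [dist_eq_norm]; exact hd2.trans_le (min_le_left _ _))
  rw [Real.dist_eq] at h10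
  simp_rw [hexp] at h10
  exact h10.le

/-- convergence from the moments of the roots of the exponentials -/
theorem roots (hk : 0 < k)
    (hρ : ∀ s : ℝ, Integrable (fun z => Real.exp (s * ‖z‖)) (ρ : Measure (Fin n → ℂ)))
    (hQ : ∀ (N p : ℕ), N ≠ 0 → (p:ℝ) < k * N → ∀ σ τ : Fin p → Option (Fin n),
      (∀ᶠ T in atTop, Integrable (Wd (N:ℝ) σ τ) (Q T : Measure (Fin n → ℂ))) ∧
      Tendsto (fun T => ∫ z, Wd (N:ℝ) σ τ z ∂(Q T : Measure (Fin n → ℂ))) atTop (𝓝 (∫ z, Wd (N:ℝ) σ τ z ∂(ρ : Measure (Fin n → ℂ)))))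
    (F : BoundedContinuousFunction (Fin n → ℂ) ℝ) :
    Tendsto (fun T => ∫ z, F (fun j => Complex.exp (z j)) ∂(Q T : Measure (Fin n → ℂ))) atTop
      (𝓝 (∫ z, F (fun j => Complex.exp (z j)) ∂(ρ : Measure (Fin n → ℂ)))) := by
  obtain ⟨C, hC0, hC⟩ := second hk hρ hQ
  have hw := weak hk hρ hQ
  have hce : Continuous fun z : Fin n → ℂ => (fun j => Complex.exp (z j) : Fin n → ℂ) := by fun_prop
  have hHc : Continuous fun z : Fin n → ℂ => F (fun j => Complex.exp (z j)) := F.continuous.comp hce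
  have h1 := ProbabilityMeasure.tendsto_iff_forall_integral_tendsto.mp hw
    (F.compContinuous ⟨fun z : Fin n → ℂ => (fun j => Complex.exp (z j) : Fin n → ℂ), hce⟩)
  have h1' : Tendsto (fun i : ℕ × ℝ => ∫ z, F (fun j => Complex.exp (z j)) ∂(PN (i.1:ℝ) (Q i.2) : Measure (Fin n → ℂ)))
      ((atTop : Filter ℕ).curry (atTop : Filter ℝ)) (𝓝 (∫ z, F (fun j => Complex.exp (z j)) ∂(ρ : Measure (Fin n → ℂ)))) := h1
  have hnF : ∀ y, |F y| ≤ ‖F‖ := fun y => F.norm_coe_le_norm y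
  rw [Metric.tendsto_nhds]
  intro ε hε
  obtain ⟨r, hr0, hr⟩ : ∃ r : ℝ, 0 < r ∧ 2 * ‖F‖ * (C / r ^ 2) < ε / 4 := by
    have h0 : Tendsto (fun r : ℝ => C / r ^ 2) atTop (𝓝 0) := tendsto_const_nhds.div_atTop (tendsto_pow_atTop (by norm_num))
    have h2 := h0.const_mul (2 * ‖F‖)
    rw [mul_zero] at h2
    obtain ⟨r, a1, a2⟩ := ((h2.eventually (gt_mem_nhds (by positivity : (0:ℝ) < ε / 4))).and (eventually_gt_atTop 0)).exists
    exact ⟨r, a2, a1⟩
  have hu := unif F r (by positivity : (0:ℝ) < ε / 4)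
  have h3 := Metric.tendsto_nhds.mp h1' (ε / 4) (by positivity)
  rw [eventually_curry_iff] at h3 hC
  obtain ⟨N, ⟨⟨a1, a2⟩, a3⟩, a4⟩ := (((h3.and hC).and hu).and (eventually_ge_atTop 1)).exists
  have hN1 : (1:ℝ) ≤ N := by exact_mod_cast a4
  have hN0 : (((N:ℕ):ℝ):ℂ) ≠ 0 := by
    have : (N:ℝ) ≠ 0 := by positivity
    exact_mod_cast this
  filter_upwards [a1, a2] with T b1 b2

  have e1 : ∫ z, F (fun j => Complex.exp (z j)) ∂(Q T : Measure (Fin n → ℂ)) =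
      ∫ z, F (fun j => (1 + z j / ((N:ℝ):ℂ)) ^ N) ∂(PN (N:ℝ) (Q T) : Measure (Fin n → ℂ)) := by
    rw [PN_int (f := fun z : Fin n → ℂ => F (fun j => (1 + z j / ((N:ℝ):ℂ)) ^ N)) _ _
      ((F.continuous.comp (by fun_prop : Continuous fun z : Fin n → ℂ => (fun j => (1 + z j / ((N:ℝ):ℂ)) ^ N : Fin n → ℂ))).stronglyMeasurable)]
    refine integral_congr_ae (Eventually.of_forall fun z => ?_)
    show F (fun j => Complex.exp (z j)) = F (fun j => (1 + ZN (N:ℝ) z j / ((N:ℝ):ℂ)) ^ N)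
    congr 1
    funext j
    unfold ZN
    rw [mul_div_cancel_left₀ _ hN0, add_sub_cancel, ← Complex.exp_nat_mul]
    congr 1
    push_cast at hN0 ⊢
    field_simp
  have i1 : Integrable (fun z : Fin n → ℂ => F (fun j => (1 + z j / ((N:ℝ):ℂ)) ^ N)) (PN (N:ℝ) (Q T) : Measure (Fin n → ℂ)) :=
    (integrable_const ‖F‖).mono' (F.continuous.comp (by fun_prop : Continuous fun z : Fin n → ℂ =>
      (fun j => (1 + z j / ((N:ℝ):ℂ)) ^ N : Fin n → ℂ))).aestronglyMeasurable (Eventually.of_forall fun z => F.norm_coe_le_norm _)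
  have i2 : Integrable (fun z : Fin n → ℂ => F (fun j => Complex.exp (z j))) (PN (N:ℝ) (Q T) : Measure (Fin n → ℂ)) :=
    (integrable_const ‖F‖).mono' hHc.aestronglyMeasurable (Eventually.of_forall fun z => F.norm_coe_le_norm _)
  have h4 : |∫ z, F (fun j => (1 + z j / ((N:ℝ):ℂ)) ^ N) ∂(PN (N:ℝ) (Q T) : Measure (Fin n → ℂ)) -
      ∫ z, F (fun j => Complex.exp (z j)) ∂(PN (N:ℝ) (Q T) : Measure (Fin n → ℂ))| ≤ ε / 4 + 2 * ‖F‖ * (C / r ^ 2) := by
    rw [← integral_sub i1 i2]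
    refine (abs_integral_le_integral_abs).trans ?_
    have i3 : Integrable (fun z : Fin n → ℂ => ε / 4 + 2 * ‖F‖ * (‖z‖ ^ 2 / r ^ 2)) (PN (N:ℝ) (Q T) : Measure (Fin n → ℂ)) :=
      (integrable_const _).add ((b2.1.div_const _).const_mul _)
    refine (integral_mono (i1.sub i2).abs i3 fun z => ?_).trans ?_
    · show |F (fun j => (1 + z j / ((N:ℝ):ℂ)) ^ N) - F (fun j => Complex.exp (z j))| ≤ ε / 4 + 2 * ‖F‖ * (‖z‖ ^ 2 / r ^ 2)
      rcases le_or_gt ‖z‖ r with hz | hz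
      · have h5 := a3 z hz
        have : 0 ≤ 2 * ‖F‖ * (‖z‖ ^ 2 / r ^ 2) := by positivity
        linarith
      · have h5 := abs_sub (F (fun j => (1 + z j / ((N:ℝ):ℂ)) ^ N)) (F (fun j => Complex.exp (z j)))
        have h6 := hnF (fun j => (1 + z j / ((N:ℝ):ℂ)) ^ N)
        have h7 := hnF (fun j => Complex.exp (z j))
        have h8 : 1 ≤ ‖z‖ ^ 2 / r ^ 2 := by
          rw [one_le_div (by positivity)]
          exact pow_le_pow_left₀ hr0.le hz.le 2
        have h9 : 2 * ‖F‖ * 1 ≤ 2 * ‖F‖ * (‖z‖ ^ 2 / r ^ 2) := mul_le_mul_of_nonneg_left h8 (by positivity)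
        linarith
    · rw [integral_add (integrable_const _) ((b2.1.div_const _).const_mul _), integral_const, probReal_univ, one_smul,
        integral_const_mul, integral_div]
      have h5 : (∫ z, ‖z‖ ^ 2 ∂(PN (N:ℝ) (Q T) : Measure (Fin n → ℂ))) / r ^ 2 ≤ C / r ^ 2 :=
        div_le_div_of_nonneg_right b2.2 (by positivity)
      have h6 := mul_le_mul_of_nonneg_left h5 (by positivity : 0 ≤ 2 * ‖F‖)
      linarith
  rw [e1]
  rw [Real.dist_eq] at b1 ⊢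
  have h5 := abs_sub_le (∫ z, F (fun j => (1 + z j / ((N:ℝ):ℂ)) ^ N) ∂(PN (N:ℝ) (Q T) : Measure (Fin n → ℂ)))
    (∫ z, F (fun j => Complex.exp (z j)) ∂(PN (N:ℝ) (Q T) : Measure (Fin n → ℂ))) (∫ z, F (fun j => Complex.exp (z j)) ∂(ρ : Measure (Fin n → ℂ)))
  linarith

end Pool.Agent.R313.CX
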