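import Mathlib

set_option autoImplicit false

/-! Complex normal laws. -/

namespace Pool.Agent.R313.CX

open MeasureTheory Filter Topology ProbabilityTheory

/-- the means -/
noncomputable def mu (k a : ℝ) : ℂ := -(k * Complex.log (1 + Complex.I * (a : ℂ) / 2))

/-- the covariances -/
noncomputable def Cv (a b : ℝ) : ℂ :=
  Complex.log (1 + Complex.I * (a : ℂ) / 2) + Complex.log (1 - Complex.I * (b : ℂ) / 2) - Complex.log (1 + Complex.I * ((a - b : ℝ) : ℂ) / 2)

/-- the point of the unit disc -/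
noncomputable def zp (a : ℝ) : ℂ := (Complex.I * (a : ℂ) / 2) / (1 + Complex.I * (a : ℂ) / 2)

lemma base_ne (x : ℝ) : (1 + Complex.I * (x : ℂ) / 2) ≠ 0 := by
  intro h
  have := congrArg Complex.re h
  simp at this

lemma base_ne' (x : ℝ) : (1 - Complex.I * (x : ℂ) / 2) ≠ 0 := by
  intro h
  have := congrArg Complex.re h
  simp at this

lemma arg_base (x : ℝ) : (Complex.log (1 + Complex.I * (x : ℂ) / 2)).im = Real.arctan (x / 2) := by
  rw [Complex.log_im]
  have hre : (1 + Complex.I * (x : ℂ) / 2).re = 1 := by simp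
  have him : (1 + Complex.I * (x : ℂ) / 2).im = x / 2 := by simp
  have h1 := Complex.tan_arg (1 + Complex.I * (x : ℂ) / 2)
  rw [hre, him, div_one] at h1
  have h2 : |Complex.arg (1 + Complex.I * (x : ℂ) / 2)| < Real.pi / 2 := by
    rw [Complex.abs_arg_lt_pi_div_two_iff]
    left
    rw [hre]
    norm_num
  rw [← h1, Real.arctan_tan (abs_lt.mp h2).1 (abs_lt.mp h2).2]

lemma base_neg (b : ℝ) : (1 - Complex.I * (b : ℂ) / 2) = 1 + Complex.I * ((-b : ℝ) : ℂ) / 2 := by
  push_cast
  ring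

lemma arg_base' (x : ℝ) : (Complex.log (1 - Complex.I * (x : ℂ) / 2)).im = -Real.arctan (x / 2) := by
  rw [base_neg, arg_base, neg_div, Real.arctan_neg]

lemma conj_base (x : ℝ) : (starRingEnd ℂ) (1 + Complex.I * (x : ℂ) / 2) = 1 - Complex.I * (x : ℂ) / 2 := by
  rw [map_add, map_div₀, map_mul, Complex.conj_I, Complex.conj_ofReal, map_one, map_ofNat]
  ring

lemma conj_log_base (x : ℝ) : (starRingEnd ℂ) (Complex.log (1 + Complex.I * (x : ℂ) / 2)) = Complex.log (1 - Complex.I * (x : ℂ) / 2) := by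
  rw [← conj_base, Complex.log_conj]
  intro h
  have h1 := arg_base x
  rw [Complex.log_im, h] at h1
  have := Real.arctan_lt_pi_div_two (x / 2)
  have := Real.pi_pos
  linarith

lemma zp_norm (a : ℝ) : ‖zp a‖ < 1 := by
  unfold zp
  rw [norm_div, div_lt_one (norm_pos_iff.mpr (base_ne a))]
  refine lt_of_pow_lt_pow_left₀ 2 (norm_nonneg _) ?_
  rw [← Complex.normSq_eq_norm_sq, ← Complex.normSq_eq_norm_sq, Complex.normSq_apply, Complex.normSq_apply]
  simp

lemma log_id (a b : ℝ) : -Complex.log (1 - zp a * (starRingEnd ℂ) (zp b)) = Cv a b := by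
  have h1 : Complex.exp (-Cv a b) = 1 - zp a * (starRingEnd ℂ) (zp b) := by
    unfold Cv
    have e1 : -(Complex.log (1 + Complex.I * (a : ℂ) / 2) + Complex.log (1 - Complex.I * (b : ℂ) / 2) - Complex.log (1 + Complex.I * ((a - b : ℝ) : ℂ) / 2)) =
      Complex.log (1 + Complex.I * ((a - b : ℝ) : ℂ) / 2) - Complex.log (1 + Complex.I * (a : ℂ) / 2) - Complex.log (1 - Complex.I * (b : ℂ) / 2) := by ring
    rw [e1, Complex.exp_sub, Complex.exp_sub, Complex.exp_log (base_ne _), Complex.exp_log (base_ne _), Complex.exp_log (base_ne' _)]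
    unfold zp
    rw [map_div₀, conj_base]
    have e2 : (starRingEnd ℂ) (Complex.I * (b : ℂ) / 2) = -(Complex.I * (b : ℂ) / 2) := by
      rw [map_div₀, map_mul, Complex.conj_I, Complex.conj_ofReal, map_ofNat]
      ring
    rw [e2]
    have h3 := base_ne a
    have h4 := base_ne' b
    rw [div_div, div_mul_div_comm, eq_sub_iff_add_eq, ← add_div, div_eq_one_iff_eq (mul_ne_zero h3 h4)]
    push_cast
    ring
  have h2 : (Cv a b).im = Real.arctan (a / 2) - Real.arctan (b / 2) - Real.arctan ((a - b) / 2) := by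
    unfold Cv
    rw [Complex.sub_im, Complex.add_im, arg_base, arg_base', arg_base]
    ring
  have hpi := Real.pi_pos
  have ha1 := Real.arctan_lt_pi_div_two (a / 2)
  have ha2 := Real.neg_pi_div_two_lt_arctan (a / 2)
  have hb1 := Real.arctan_lt_pi_div_two (b / 2)
  have hb2 := Real.neg_pi_div_two_lt_arctan (b / 2)
  have hc1 := Real.arctan_lt_pi_div_two ((a - b) / 2)
  have hc2 := Real.neg_pi_div_two_lt_arctan ((a - b) / 2)
  have h3 : |(Cv a b).im| < Real.pi := by
    rw [h2, abs_lt]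
    rcases le_total a b with h | h
    · have g1 : Real.arctan (a / 2) ≤ Real.arctan (b / 2) := Real.arctan_strictMono.monotone (by linarith)
      have g2 : Real.arctan ((a - b) / 2) ≤ 0 := by
        have := Real.arctan_strictMono.monotone (show (a - b) / 2 ≤ 0 by linarith)
        rwa [Real.arctan_zero] at this
      constructor <;> linarith
    · have g1 : Real.arctan (b / 2) ≤ Real.arctan (a / 2) := Real.arctan_strictMono.monotone (by linarith)
      have g2 : 0 ≤ Real.arctan ((a - b) / 2) := by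
        have := Real.arctan_strictMono.monotone (show 0 ≤ (a - b) / 2 by linarith)
        rwa [Real.arctan_zero] at this
      constructor <;> linarith
  rw [← h1, Complex.log_exp]
  · ring
  · rw [Complex.neg_im]
    have := (abs_lt.mp h3).2
    linarith
  · rw [Complex.neg_im]
    have := (abs_lt.mp h3).1
    linarith

/-- the series of the covariances -/
lemma Cv_series (a b : ℝ) : HasSum (fun m : ℕ => zp a ^ m * (starRingEnd ℂ) (zp b) ^ m / m) (Cv a b) := by
  rw [← log_id]
  have h := Complex.hasSum_taylorSeries_neg_log (z := zp a * (starRingEnd ℂ) (zp b)) (by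
    rw [norm_mul, RCLike.norm_conj]
    have h1 := zp_norm a
    have h2 := zp_norm b
    have h3 := norm_nonneg (zp a)
    have h4 := norm_nonneg (zp b)
    nlinarith)
  refine h.congr_fun fun m => ?_
  rw [mul_pow]

lemma Cv_conj (a b : ℝ) : (starRingEnd ℂ) (Cv b a) = Cv a b := by
  have h1 := Cv_series a b
  have h2 := Complex.hasSum_conj'.mpr (Cv_series b a)
  refine h2.unique (h1.congr_fun fun m => ?_)
  simp
  ring

variable {n : ℕ}

/-- positivity -/
lemma Cv_pos (a : Fin n → ℝ) (x : Fin n → ℂ) : ∃ r : ℝ, 0 ≤ r ∧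
    ∑ i, ∑ j, (starRingEnd ℂ) (x i) * Cv (a i) (a j) * x j = (r : ℂ) := by
  have h1 : HasSum (fun m : ℕ => ∑ i, ∑ j, (starRingEnd ℂ) (x i) * (zp (a i) ^ m * (starRingEnd ℂ) (zp (a j)) ^ m / m) * x j)
      (∑ i, ∑ j, (starRingEnd ℂ) (x i) * Cv (a i) (a j) * x j) :=
    hasSum_sum fun i _ => hasSum_sum fun j _ => ((Cv_series (a i) (a j)).mul_left _).mul_right _
  have h2 : ∀ m : ℕ, ∑ i, ∑ j, (starRingEnd ℂ) (x i) * (zp (a i) ^ m * (starRingEnd ℂ) (zp (a j)) ^ m / m) * x j =
      ((‖∑ i, (starRingEnd ℂ) (x i) * zp (a i) ^ m‖ ^ 2 / m : ℝ) : ℂ) := by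
    intro m
    rw [Complex.ofReal_div, Complex.ofReal_pow, ← Complex.mul_conj', map_sum, Finset.sum_mul, Finset.sum_div]
    refine Finset.sum_congr rfl fun i _ => ?_
    rw [Finset.mul_sum, Finset.sum_div]
    refine Finset.sum_congr rfl fun j _ => ?_
    rw [map_mul, map_pow, Complex.conj_conj]
    push_cast
    ring
  have h3 : Summable (fun m : ℕ => (‖∑ i, (starRingEnd ℂ) (x i) * zp (a i) ^ m‖ ^ 2 / m : ℝ)) := by
    have := h1.summable
    simp_rw [h2] at this
    exact_mod_cast this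
  refine ⟨∑' m : ℕ, (‖∑ i, (starRingEnd ℂ) (x i) * zp (a i) ^ m‖ ^ 2 / m : ℝ), tsum_nonneg fun m => by positivity, ?_⟩
  refine h1.unique ?_
  have h4 := Complex.hasSum_ofReal.mpr h3.hasSum
  refine h4.congr_fun fun m => ?_
  exact h2 m

open Matrix ComplexOrder in
/-- the covariances factor -/
lemma Cv_factor (a : Fin n → ℝ) : ∃ (m : ℕ) (v : Fin m → Fin n → ℂ), ∀ i j, Cv (a i) (a j) = ∑ l, v l i * (starRingEnd ℂ) (v l j) := by
  have h : (Matrix.of fun i j : Fin n => Cv (a i) (a j)).PosSemidef := by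
    refine Matrix.PosSemidef.of_dotProduct_mulVec_nonneg ?_ fun x => ?_
    · ext i j
      simp only [Matrix.conjTranspose_apply, Matrix.of_apply]
      exact Cv_conj _ _
    · obtain ⟨r, hr, h⟩ := Cv_pos a x
      have e1 : dotProduct (star x) ((Matrix.of fun i j : Fin n => Cv (a i) (a j)).mulVec x) =
          ∑ i, ∑ j, (starRingEnd ℂ) (x i) * Cv (a i) (a j) * x j := by
        unfold dotProduct Matrix.mulVec dotProduct
        refine Finset.sum_congr rfl fun i _ => ?_
        rw [Finset.mul_sum]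
        refine Finset.sum_congr rfl fun j _ => ?_
        simp only [Matrix.of_apply, Pi.star_apply]
        rw [mul_assoc]
        rfl
      rw [e1, h]
      exact_mod_cast hr
  obtain ⟨m, v, hv⟩ := Matrix.posSemidef_iff_eq_sum_vecMulVec.mp h
  refine ⟨m, v, fun i j => ?_⟩
  have h1 := congrFun (congrFun hv i) j
  rw [Matrix.of_apply, Matrix.sum_apply] at h1
  rw [h1]
  refine Finset.sum_congr rfl fun l _ => ?_
  rfl

/-- one complex normal variable -/
noncomputable def gs (x : ℝ × ℝ) : ℂ := ((x.1 : ℂ) + Complex.I * (x.2 : ℂ)) / (Real.sqrt 2 : ℂ)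

lemma gs_exp (γ γ' : ℂ) : ∫ x, Complex.exp (γ * gs x + γ' * (starRingEnd ℂ) (gs x)) ∂((gaussianReal 0 1).prod (gaussianReal 0 1)) =
    Complex.exp (γ * γ') := by
  have hs : ((Real.sqrt 2 : ℝ) : ℂ) ≠ 0 := by
    have : Real.sqrt 2 ≠ 0 := by positivity
    exact_mod_cast this
  have hs2 : ((Real.sqrt 2 : ℝ) : ℂ) ^ 2 = 2 := by
    rw [← Complex.ofReal_pow, Real.sq_sqrt (by norm_num)]
    norm_num
  have e1 : ∀ x : ℝ × ℝ, Complex.exp (γ * gs x + γ' * (starRingEnd ℂ) (gs x)) =
      Complex.exp (((γ + γ') / (Real.sqrt 2 : ℂ)) * (x.1 : ℂ)) * Complex.exp ((Complex.I * (γ - γ') / (Real.sqrt 2 : ℂ)) * (x.2 : ℂ)) := by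
    intro x
    rw [← Complex.exp_add]
    congr 1
    unfold gs
    rw [map_div₀, map_add, map_mul, Complex.conj_I, Complex.conj_ofReal, Complex.conj_ofReal, Complex.conj_ofReal]
    ring
  simp_rw [e1]
  rw [integral_prod_mul (fun x : ℝ => Complex.exp (((γ + γ') / (Real.sqrt 2 : ℂ)) * (x : ℂ)))
    (fun x : ℝ => Complex.exp ((Complex.I * (γ - γ') / (Real.sqrt 2 : ℂ)) * (x : ℂ)))]
  have h1 : ∀ z : ℂ, ∫ x : ℝ, Complex.exp (z * (x : ℂ)) ∂(gaussianReal 0 1) = Complex.exp (z ^ 2 / 2) := by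
    intro z
    have h2 := complexMGF_id_gaussianReal (μ := 0) (v := 1) z
    unfold complexMGF at h2
    simp only [id] at h2
    rw [h2]
    congr 1
    push_cast
    ring
  rw [h1, h1, ← Complex.exp_add]
  congr 1
  rw [div_pow, div_pow, hs2, mul_pow, Complex.I_sq]
  ring

lemma gs_cont : Continuous gs := by
  unfold gs
  fun_prop

lemma gs_norm (x : ℝ × ℝ) : ‖gs x‖ ≤ |x.1| + |x.2| := by
  unfold gs
  rw [norm_div, Complex.norm_real, Real.norm_of_nonneg (Real.sqrt_nonneg _)]
  have h1 : (1:ℝ) ≤ Real.sqrt 2 := by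
    rw [Real.one_le_sqrt]
    norm_num
  refine (div_le_self (norm_nonneg _) h1).trans ((norm_add_le _ _).trans ?_)
  rw [norm_mul, Complex.norm_I, one_mul, Complex.norm_real, Complex.norm_real]
  rfl

lemma gau_abs (c : ℝ) : Integrable (fun x : ℝ => Real.exp (c * |x|)) (gaussianReal 0 1) := by
  refine ((integrable_exp_mul_gaussianReal c).add (integrable_exp_mul_gaussianReal (-c))).mono' (by fun_prop) (Eventually.of_forall fun x => ?_)
  rw [Real.norm_of_nonneg (Real.exp_pos _).le]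
  show Real.exp (c * |x|) ≤ Real.exp (c * x) + Real.exp (-c * x)
  rcases le_total 0 x with h | h
  · rw [abs_of_nonneg h]
    have := Real.exp_pos (-c * x)
    linarith
  · rw [abs_of_nonpos h]
    have := Real.exp_pos (c * x)
    have e1 : c * -x = -c * x := by ring
    rw [e1]
    linarith

/-- existence of the complex normal law -/
theorem normal (k : ℝ) (a : Fin n → ℝ) : ∃ ρ : ProbabilityMeasure (Fin n → ℂ),
    (∀ s : ℝ, Integrable (fun z => Real.exp (s * ‖z‖)) (ρ : Measure (Fin n → ℂ))) ∧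
    ∀ α β : Fin n → ℂ, ∫ z, Complex.exp (∑ j, (α j * z j + β j * (starRingEnd ℂ) (z j))) ∂(ρ : Measure (Fin n → ℂ)) =
      Complex.exp (∑ j, (α j * mu k (a j) + β j * (starRingEnd ℂ) (mu k (a j))) + ∑ i, ∑ j, α i * β j * Cv (a i) (a j)) := by
  obtain ⟨m, v, hv⟩ := Cv_factor a
  obtain ⟨γ, hγ⟩ : ∃ γ : Measure (Fin m → ℝ × ℝ), γ = Measure.pi (fun _ : Fin m => (gaussianReal 0 1).prod (gaussianReal 0 1)) := ⟨_, rfl⟩
  have hγp : IsProbabilityMeasure γ := by rw [hγ]; infer_instance
  obtain ⟨G, hG⟩ : ∃ G : (Fin m → ℝ × ℝ) → (Fin n → ℂ), ∀ ω j, G ω j = mu k (a j) + ∑ l, v l j * gs (ω l) := ⟨fun ω j => _, fun _ _ => rfl⟩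
  have hGc : Continuous G := by
    refine continuous_pi fun j => ?_
    simp_rw [hG]
    exact continuous_const.add (continuous_finsetSum _ fun l _ => (gs_cont.comp (continuous_apply l)).const_mul _)
  refine ⟨⟨γ.map G, Measure.isProbabilityMeasure_map hGc.measurable.aemeasurable⟩, fun s => ?_, fun α β => ?_⟩
  · show Integrable (fun z => Real.exp (s * ‖z‖)) (γ.map G)
    rw [integrable_map_measure (by fun_prop) hGc.measurable.aemeasurable]
    obtain ⟨M, hM⟩ : ∃ M : ℝ, M = ∑ j, ‖mu k (a j)‖ := ⟨_, rfl⟩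
    obtain ⟨K, hK⟩ : ∃ K : ℝ, K = ∑ l, ∑ j, ‖v l j‖ := ⟨_, rfl⟩
    have hM0 : 0 ≤ M := by rw [hM]; exact Finset.sum_nonneg fun _ _ => norm_nonneg _
    have hK0 : 0 ≤ K := by rw [hK]; exact Finset.sum_nonneg fun _ _ => Finset.sum_nonneg fun _ _ => norm_nonneg _
    have hvK : ∀ l j, ‖v l j‖ ≤ K := by
      intro l j
      rw [hK]
      exact (Finset.single_le_sum (f := fun j => ‖v l j‖) (fun _ _ => norm_nonneg _) (Finset.mem_univ j)).trans
        (Finset.single_le_sum (f := fun l => ∑ j, ‖v l j‖) (fun _ _ => Finset.sum_nonneg fun _ _ => norm_nonneg _) (Finset.mem_univ l))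
    have hb : ∀ ω, ‖G ω‖ ≤ M + ∑ l, K * (|(ω l).1| + |(ω l).2|) := by
      intro ω
      have h0 : 0 ≤ ∑ l, K * (|(ω l).1| + |(ω l).2|) := Finset.sum_nonneg fun l _ => by positivity
      refine (pi_norm_le_iff_of_nonneg (by linarith)).mpr fun j => ?_
      rw [hG]
      refine (norm_add_le _ _).trans (add_le_add ?_ ?_)
      · rw [hM]
        exact Finset.single_le_sum (f := fun j => ‖mu k (a j)‖) (fun _ _ => norm_nonneg _) (Finset.mem_univ j)
      · refine (norm_sum_le _ _).trans (Finset.sum_le_sum fun l _ => ?_)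
        rw [norm_mul]
        exact mul_le_mul (hvK l j) (gs_norm _) (norm_nonneg _) hK0
    have hi : Integrable (fun ω : Fin m → ℝ × ℝ => Real.exp (|s| * M) * ∏ l, (Real.exp ((|s| * K) * |(ω l).1|) * Real.exp ((|s| * K) * |(ω l).2|))) γ := by
      rw [hγ]
      refine Integrable.const_mul ?_ _
      exact Integrable.fintype_prod (f := fun _ : Fin m => fun x : ℝ × ℝ => Real.exp ((|s| * K) * |x.1|) * Real.exp ((|s| * K) * |x.2|))
        fun _ => (gau_abs (|s| * K)).mul_prod (gau_abs (|s| * K))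
    refine hi.mono' ((by fun_prop : Continuous fun z : Fin n → ℂ => Real.exp (s * ‖z‖)).comp hGc).aestronglyMeasurable
      (Eventually.of_forall fun ω => ?_)
    show ‖Real.exp (s * ‖G ω‖)‖ ≤ _
    rw [Real.norm_of_nonneg (Real.exp_pos _).le]
    have h1 : s * ‖G ω‖ ≤ |s| * M + ∑ l, ((|s| * K) * |(ω l).1| + (|s| * K) * |(ω l).2|) := by
      have h2 : s * ‖G ω‖ ≤ |s| * ‖G ω‖ := mul_le_mul_of_nonneg_right (le_abs_self s) (norm_nonneg _)
      have h3 := mul_le_mul_of_nonneg_left (hb ω) (abs_nonneg s)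
      have e1 : |s| * (M + ∑ l, K * (|(ω l).1| + |(ω l).2|)) = |s| * M + ∑ l, ((|s| * K) * |(ω l).1| + (|s| * K) * |(ω l).2|) := by
        rw [mul_add, Finset.mul_sum]
        congr 1
        exact Finset.sum_congr rfl fun l _ => by ring
      linarith
    refine (Real.exp_le_exp.mpr h1).trans (le_of_eq ?_)
    rw [Real.exp_add, Real.exp_sum]
    simp_rw [Real.exp_add]
  · show ∫ z, Complex.exp (∑ j, (α j * z j + β j * (starRingEnd ℂ) (z j))) ∂(γ.map G) = _
    rw [integral_map hGc.measurable.aemeasurable (by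
      refine Continuous.aestronglyMeasurable ?_
      refine Complex.continuous_exp.comp (continuous_finsetSum _ fun j _ => ?_)
      exact ((continuous_apply j).const_mul _).add ((Complex.continuous_conj.comp (continuous_apply j)).const_mul _))]
    obtain ⟨A, hA⟩ : ∃ A : Fin m → ℂ, ∀ l, A l = ∑ j, α j * v l j := ⟨_, fun _ => rfl⟩
    obtain ⟨B, hB⟩ : ∃ B : Fin m → ℂ, ∀ l, B l = ∑ j, β j * (starRingEnd ℂ) (v l j) := ⟨_, fun _ => rfl⟩
    have e1 : ∀ ω, Complex.exp (∑ j, (α j * G ω j + β j * (starRingEnd ℂ) (G ω j))) =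
        Complex.exp (∑ j, (α j * mu k (a j) + β j * (starRingEnd ℂ) (mu k (a j)))) *
          ∏ l, Complex.exp (A l * gs (ω l) + B l * (starRingEnd ℂ) (gs (ω l))) := by
      intro ω
      rw [← Complex.exp_sum, ← Complex.exp_add]
      congr 1
      have e2 : ∑ l, (A l * gs (ω l) + B l * (starRingEnd ℂ) (gs (ω l))) =
          ∑ j, (α j * ∑ l, v l j * gs (ω l) + β j * ∑ l, (starRingEnd ℂ) (v l j) * (starRingEnd ℂ) (gs (ω l))) := by
        simp_rw [hA, hB, Finset.sum_mul, Finset.mul_sum, ← Finset.sum_add_distrib]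
        rw [Finset.sum_comm]
        exact Finset.sum_congr rfl fun j _ => Finset.sum_congr rfl fun l _ => by ring
      rw [e2, ← Finset.sum_add_distrib]
      refine Finset.sum_congr rfl fun j _ => ?_
      rw [hG, map_add, map_sum]
      simp_rw [map_mul]
      ring
    simp_rw [e1]
    rw [integral_const_mul, hγ, integral_fintype_prod_eq_prod (fun l => fun x : ℝ × ℝ => Complex.exp (A l * gs x + B l * (starRingEnd ℂ) (gs x)))]
    simp_rw [gs_exp]
    rw [← Complex.exp_sum, ← Complex.exp_add]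
    congr 2
    simp_rw [hA, hB, hv, Finset.sum_mul_sum, Finset.mul_sum]
    rw [Finset.sum_comm]
    refine Finset.sum_congr rfl fun i _ => ?_
    rw [Finset.sum_comm]
    refine Finset.sum_congr rfl fun j _ => Finset.sum_congr rfl fun l _ => by ring

end Pool.Agent.R313.CX
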