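import Pool.Agent.R313.CX.C
import Pool.Agent.R313.CX.D

set_option autoImplicit false

/-! Weighted averages of complex vectors; the words under the normal law. -/

namespace Pool.Agent.R313.CX

open MeasureTheory Filter Topology ProbabilityTheory BoundedContinuousFunction

/-- the law of `Y` under the density `p` with respect to `m` -/
noncomputable def wc {n : ℕ} (p : ℝ → ℝ) (Y : ℝ → (Fin n → ℂ)) (m : Measure ℝ) : Measure (Fin n → ℂ) :=
  (m.withDensity fun t => ENNReal.ofReal (p t)).map Y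

variable {n : ℕ}

lemma wc_integral {V : Type*} [NormedAddCommGroup V] [NormedSpace ℝ V] [SecondCountableTopology V] {p : ℝ → ℝ} {Y : ℝ → (Fin n → ℂ)} {m : Measure ℝ}
    (hp : Measurable p) (h0 : ∀ t, 0 ≤ p t) (hY : Measurable Y)
    {g : (Fin n → ℂ) → V} (hg : Continuous g) : ∫ x, g x ∂(wc p Y m) = ∫ t, p t • g (Y t) ∂m := by
  have hz : Measurable fun t => ENNReal.ofReal (p t) := ENNReal.measurable_ofReal.comp hp
  unfold wc
  rw [integral_map hY.aemeasurable hg.aestronglyMeasurable,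
    integral_withDensity_eq_integral_toReal_smul hz
      (Eventually.of_forall fun _ => ENNReal.ofReal_lt_top)]
  refine integral_congr_ae (Eventually.of_forall fun t => ?_)
  show (ENNReal.ofReal (p t)).toReal • g (Y t) = p t • g (Y t)
  rw [ENNReal.toReal_ofReal (h0 t)]

lemma wc_integrable {V : Type*} [NormedAddCommGroup V] [NormedSpace ℝ V] [SecondCountableTopology V] {p : ℝ → ℝ} {Y : ℝ → (Fin n → ℂ)} {m : Measure ℝ}
    (hp : Measurable p) (h0 : ∀ t, 0 ≤ p t) (hY : Measurable Y)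
    {g : (Fin n → ℂ) → V} (hg : Continuous g) (hi : Integrable (fun t => p t • g (Y t)) m) :
    Integrable g (wc p Y m) := by
  have hz : Measurable fun t => ENNReal.ofReal (p t) := ENNReal.measurable_ofReal.comp hp
  unfold wc
  rw [integrable_map_measure hg.aestronglyMeasurable hY.aemeasurable,
    integrable_withDensity_iff_integrable_smul' hz
      (Eventually.of_forall fun _ => ENNReal.ofReal_lt_top)]
  refine hi.congr (Eventually.of_forall fun t => ?_)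
  show p t • g (Y t) = (ENNReal.ofReal (p t)).toReal • (g ∘ Y) t
  rw [ENNReal.toReal_ofReal (h0 t), Function.comp]

lemma wc_prob {p : ℝ → ℝ} {Y : ℝ → (Fin n → ℂ)} {m : Measure ℝ} (h0 : ∀ t, 0 ≤ p t) (hi : Integrable p m) (hY : Measurable Y)
    (h1 : ∫ t, p t ∂m = 1) : IsProbabilityMeasure (wc p Y m) := by
  constructor
  unfold wc
  rw [Measure.map_apply hY MeasurableSet.univ, Set.preimage_univ, withDensity_apply _ MeasurableSet.univ,
    Measure.restrict_univ, ← ofReal_integral_eq_lintegral_ofReal hi (Eventually.of_forall h0), h1, ENNReal.ofReal_one]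

/-- the limit theorem for weighted averages -/
theorem avg {k : ℝ} (hk : 0 < k) {p : ℝ → ℝ → ℝ} {Y : ℝ → ℝ → (Fin n → ℂ)} {ms : ℝ → Measure ℝ}
    (hp : ∀ᶠ T : ℝ in atTop, Measurable (p T) ∧ ∀ t, 0 ≤ p T t) (hY : ∀ᶠ T : ℝ in atTop, Measurable (Y T))
    {c : ℝ} (hc : 0 < c) (hi : ∀ᶠ T : ℝ in atTop, Integrable (p T) (ms T)) (hm0 : Tendsto (fun T : ℝ => ∫ t, p T t ∂(ms T)) atTop (𝓝 c))
    {ρ : ProbabilityMeasure (Fin n → ℂ)} (hρ : ∀ s : ℝ, Integrable (fun z => Real.exp (s * ‖z‖)) (ρ : Measure (Fin n → ℂ)))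
    (hq : ∀ (N P : ℕ), N ≠ 0 → (P:ℝ) < k * N → ∀ σ τ : Fin P → Option (Fin n),
      (∀ᶠ T : ℝ in atTop, Integrable (fun t => (p T t : ℂ) * Wd (N:ℝ) σ τ (Y T t)) (ms T)) ∧
      Tendsto (fun T : ℝ => ∫ t, (p T t : ℂ) * Wd (N:ℝ) σ τ (Y T t) ∂(ms T)) atTop
        (𝓝 ((c : ℂ) * ∫ z, Wd (N:ℝ) σ τ z ∂(ρ : Measure (Fin n → ℂ)))))
    (F : BoundedContinuousFunction (Fin n → ℂ) ℝ) :
    Tendsto (fun T : ℝ => ∫ t, p T t * F (fun j => Complex.exp (Y T t j)) ∂(ms T)) atTop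
      (𝓝 (c * ∫ z, F (fun j => Complex.exp (z j)) ∂(ρ : Measure (Fin n → ℂ)))) := by
  classical
  obtain ⟨M, hMd⟩ : ∃ M : ℝ → ℝ, ∀ T, M T = ∫ t, p T t ∂(ms T) := ⟨_, fun _ => rfl⟩
  simp_rw [← hMd] at hm0
  have hmp : ∀ᶠ T in atTop, 0 < M T := hm0.eventually (lt_mem_nhds hc)
  obtain ⟨q, hqd⟩ : ∃ q : ℝ → ℝ → ℝ, ∀ T t, q T t = p T t / M T := ⟨_, fun _ _ => rfl⟩
  have hq1 : ∀ᶠ T : ℝ in atTop, Measurable (q T) ∧ (∀ t, 0 ≤ q T t) ∧ Integrable (q T) (ms T) ∧ ∫ t, q T t ∂(ms T) = 1 := by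
    filter_upwards [hp, hmp, hi] with T h1 h2 h3
    have e : q T = fun t => p T t / M T := funext (hqd T)
    rw [e]
    refine ⟨h1.1.div_const _, fun t => div_nonneg (h1.2 t) h2.le, h3.div_const _, ?_⟩
    rw [integral_div, ← hMd, div_self h2.ne']
  obtain ⟨μ, hμ⟩ : ∃ μ : ℝ → ProbabilityMeasure (Fin n → ℂ), ∀ᶠ T : ℝ in atTop, (μ T : Measure (Fin n → ℂ)) = wc (q T) (Y T) (ms T) := by
    have hex : ∀ T : ℝ, ∃ μT : ProbabilityMeasure (Fin n → ℂ), IsProbabilityMeasure (wc (q T) (Y T) (ms T)) →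
        (μT : Measure (Fin n → ℂ)) = wc (q T) (Y T) (ms T) := by
      intro T
      by_cases h : IsProbabilityMeasure (wc (q T) (Y T) (ms T))
      · exact ⟨⟨wc (q T) (Y T) (ms T), h⟩, fun _ => rfl⟩
      · exact ⟨⟨Measure.dirac 0, inferInstance⟩, fun h1 => absurd h1 h⟩
    choose μ hμ using hex
    refine ⟨μ, ?_⟩
    filter_upwards [hq1, hY] with T h1 h2
    exact hμ T (wc_prob h1.2.1 h1.2.2.1 h2 h1.2.2.2)
  have key := roots hk (Q := μ) (ρ := ρ) hρ (fun N P hN hP σ τ => by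
    obtain ⟨h3, h4⟩ := hq N P hN hP σ τ
    refine ⟨?_, ?_⟩
    · filter_upwards [h3, hq1, hY, hμ] with T g1 g2 g3 g4
      rw [g4]
      refine wc_integrable g2.1 g2.2.1 g3 (Wd_cont _ _ _) ?_
      refine (g1.div_const (M T : ℂ)).congr (Eventually.of_forall fun t => ?_)
      show (p T t : ℂ) * Wd (N:ℝ) σ τ (Y T t) / (M T : ℂ) = q T t • Wd (N:ℝ) σ τ (Y T t)
      rw [hqd, Complex.real_smul]
      push_cast
      ring
    · have hcc : (c : ℂ) ≠ 0 := by exact_mod_cast hc.ne'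
      have g5 := h4.div ((Complex.continuous_ofReal.tendsto _).comp hm0) hcc
      rw [mul_div_cancel_left₀ _ hcc] at g5
      refine g5.congr' ?_
      filter_upwards [hq1, hY, hμ] with T g2 g3 g4
      rw [g4, wc_integral g2.1 g2.2.1 g3 (Wd_cont _ _ _)]
      show (∫ t, (p T t : ℂ) * Wd (N:ℝ) σ τ (Y T t) ∂(ms T)) / (M T : ℂ) = _
      rw [← integral_div]
      refine integral_congr_ae (Eventually.of_forall fun t => ?_)
      show (p T t : ℂ) * Wd (N:ℝ) σ τ (Y T t) / (M T : ℂ) = q T t • Wd (N:ℝ) σ τ (Y T t)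
      rw [hqd, Complex.real_smul]
      push_cast
      ring) F
  have h2 := key.mul hm0
  rw [mul_comm] at h2
  refine h2.congr' ?_
  have hFc : Continuous fun z : Fin n → ℂ => F (fun j => Complex.exp (z j)) :=
    F.continuous.comp (by fun_prop : Continuous fun z : Fin n → ℂ => (fun j => Complex.exp (z j) : Fin n → ℂ))
  filter_upwards [hq1, hY, hμ, hmp] with T h3 h4 h5 h7
  rw [h5, wc_integral h3.1 h3.2.1 h4 hFc, ← integral_mul_const]
  refine integral_congr_ae (Eventually.of_forall fun t => ?_)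
  show q T t • F (fun j => Complex.exp (Y T t j)) * M T = p T t * F (fun j => Complex.exp (Y T t j))
  rw [hqd, smul_eq_mul]
  field_simp

/-- the shifts, with zero -/
def ao (a : Fin n → ℝ) : Option (Fin n) → ℝ
  | none => 0
  | some j => a j

/-- the complex logarithms -/
noncomputable def le1 (x : ℝ) : ℂ := Complex.log (1 + Complex.I * (x : ℂ) / 2)

lemma le1_zero : le1 0 = 0 := by
  unfold le1
  simp

lemma mu_eq (k a : ℝ) : mu k a = -(k * le1 a) := rfl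

lemma conj_mu (k a : ℝ) : (starRingEnd ℂ) (mu k a) = -(k * le1 (-a)) := by
  unfold mu le1
  rw [map_neg, map_mul, Complex.conj_ofReal, conj_log_base, base_neg]

lemma Cv_eq (a b : ℝ) : Cv a b = le1 a + le1 (-b) - le1 (a - b) := by
  unfold Cv le1
  rw [base_neg]

lemma sum_option (c : ℂ) {P : ℕ} (σ : Fin P → Option (Fin n)) (f : Option (Fin n) → ℂ) (hf : f none = 0) :
    ∑ j, (∑ i, if σ i = some j then c else 0) * f (some j) = ∑ i, c * f (σ i) := by
  classical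
  simp_rw [Finset.sum_mul]
  rw [Finset.sum_comm]
  refine Finset.sum_congr rfl fun i _ => ?_
  cases h : σ i with
  | none => simp [hf]
  | some l => simp

/-- the words under the normal law -/
lemma word_normal {k : ℝ} {a : Fin n → ℝ} {ρ : ProbabilityMeasure (Fin n → ℂ)}
    (h : ∀ α β : Fin n → ℂ, ∫ z, Complex.exp (∑ j, (α j * z j + β j * (starRingEnd ℂ) (z j))) ∂(ρ : Measure (Fin n → ℂ)) =
      Complex.exp (∑ j, (α j * mu k (a j) + β j * (starRingEnd ℂ) (mu k (a j))) + ∑ i, ∑ j, α i * β j * Cv (a i) (a j)))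
    {N P : ℕ} (hN : N ≠ 0) (σ τ : Fin P → Option (Fin n)) :
    ∫ z, Wd (N:ℝ) σ τ z ∂(ρ : Measure (Fin n → ℂ)) =
      ∏ j, ∏ i, (1 + Complex.I * (((Fin.cons 0 (fun i => ao a (σ i)) : Fin (P + 1) → ℝ) j - (Fin.cons 0 (fun i => ao a (τ i)) : Fin (P + 1) → ℝ) i : ℝ) : ℂ) / 2) ^
        (-(((Fin.cons (k - P / N) (fun _ => 1 / (N:ℝ)) : Fin (P + 1) → ℝ) j * (Fin.cons (k - P / N) (fun _ => 1 / (N:ℝ)) : Fin (P + 1) → ℝ) i : ℝ) : ℂ)) := by
  classical
  have hN0 : (N : ℂ) ≠ 0 := by exact_mod_cast hN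
  obtain ⟨α, hα⟩ : ∃ α : Fin n → ℂ, ∀ j, α j = ∑ i, if σ i = some j then 1 / (N:ℂ) else 0 := ⟨_, fun _ => rfl⟩
  obtain ⟨β, hβ⟩ : ∃ β : Fin n → ℂ, ∀ j, β j = ∑ i, if τ i = some j then 1 / (N:ℂ) else 0 := ⟨_, fun _ => rfl⟩
  have e1 : ∀ z : Fin n → ℂ, Wd (N:ℝ) σ τ z = Complex.exp (∑ j, (α j * z j + β j * (starRingEnd ℂ) (z j))) := by
    intro z
    have hX : ∀ s, Xl (N:ℝ) z s = Complex.exp (1 / (N:ℂ) * (match s with | none => 0 | some j => z j)) := by
      intro s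
      cases s with
      | none => simp [Xl]
      | some j =>
        show Complex.exp (z j / ((N:ℝ):ℂ)) = _
        congr 1
        push_cast
        ring
    have hc : ∀ s, (starRingEnd ℂ) (Xl (N:ℝ) z s) = Complex.exp (1 / (N:ℂ) * (match s with | none => 0 | some j => (starRingEnd ℂ) (z j))) := by
      intro s
      cases s with
      | none => simp [Xl]
      | some j =>
        show (starRingEnd ℂ) (Complex.exp (z j / ((N:ℝ):ℂ))) = _
        rw [← Complex.exp_conj, map_div₀, Complex.conj_ofReal]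
        congr 1
        push_cast
        ring
    unfold Wd
    rw [map_prod]
    simp_rw [hX]
    rw [show (∏ x, (starRingEnd ℂ) (Complex.exp (1 / (N:ℂ) * (match τ x with | none => 0 | some j => z j)))) =
      ∏ x, Complex.exp (1 / (N:ℂ) * (match τ x with | none => 0 | some j => (starRingEnd ℂ) (z j))) from
      Finset.prod_congr rfl fun x _ => by rw [← hX, hc]]
    rw [← Complex.exp_sum, ← Complex.exp_sum, ← Complex.exp_add, Finset.sum_add_distrib]
    congr 2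
    · rw [← sum_option (1 / (N:ℂ)) σ (fun s => match s with | none => 0 | some j => z j) rfl]
      simp_rw [hα]
    · rw [← sum_option (1 / (N:ℂ)) τ (fun s => match s with | none => 0 | some j => (starRingEnd ℂ) (z j)) rfl]
      simp_rw [hβ]
  simp_rw [e1]
  rw [h α β]
  have hcp : ∀ x y : ℝ, (1 + Complex.I * (x : ℂ) / 2) ^ (-(y : ℂ)) = Complex.exp (-(y * le1 x)) := by
    intro x y
    rw [Complex.cpow_def_of_ne_zero (base_ne x)]
    congr 1
    unfold le1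
    ring
  simp_rw [hcp, ← Complex.exp_sum]
  congr 1
  rw [Finset.sum_add_distrib]
  have s1 : ∑ j, α j * mu k (a j) = ∑ i, 1 / (N:ℂ) * -(k * le1 (ao a (σ i))) := by
    rw [← sum_option (1 / (N:ℂ)) σ (fun s => -(k * le1 (ao a s))) (by simp [ao, le1_zero])]
    simp_rw [hα]
    rfl
  have s2 : ∑ j, β j * (starRingEnd ℂ) (mu k (a j)) = ∑ i, 1 / (N:ℂ) * -(k * le1 (-ao a (τ i))) := by
    rw [← sum_option (1 / (N:ℂ)) τ (fun s => -(k * le1 (-ao a s))) (by simp [ao, le1_zero])]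
    simp_rw [hβ, conj_mu]
    rfl
  have s3 : ∑ i, ∑ j, α i * β j * Cv (a i) (a j) = ∑ i, ∑ j, 1 / (N:ℂ) * (1 / (N:ℂ)) * Cv (ao a (σ i)) (ao a (τ j)) := by
    have t1 : ∀ i, ∑ j, α i * β j * Cv (a i) (a j) = α i * ∑ j, 1 / (N:ℂ) * Cv (a i) (ao a (τ j)) := by
      intro i
      rw [← sum_option (1 / (N:ℂ)) τ (fun s => Cv (a i) (ao a s)) (by simp [ao, Cv_eq, le1_zero]), Finset.mul_sum]
      refine Finset.sum_congr rfl fun j _ => ?_
      rw [hβ]
      show _ = α i * (_ * Cv (a i) (a j))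
      ring
    simp_rw [t1]
    have t2 := sum_option (1 / (N:ℂ)) σ (fun s => ∑ j, 1 / (N:ℂ) * Cv (ao a s) (ao a (τ j))) (by simp [ao, Cv_eq, le1_zero])
    simp_rw [← hα] at t2
    refine t2.trans ?_
    refine Finset.sum_congr rfl fun i _ => ?_
    rw [Finset.mul_sum]
    exact Finset.sum_congr rfl fun j _ => by ring
  rw [s1, s2, s3, Fin.sum_univ_succ]
  simp_rw [Fin.sum_univ_succ]
  simp only [Fin.cons_zero, Fin.cons_succ, sub_self, le1_zero, mul_zero, neg_zero, zero_add, zero_sub, sub_zero]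
  simp_rw [Cv_eq]
  have s4 : ∑ i, ∑ j, 1 / (N:ℂ) * (1 / (N:ℂ)) * (le1 (ao a (σ i)) + le1 (-ao a (τ j)) - le1 (ao a (σ i) - ao a (τ j))) =
      (P / (N:ℂ)) * (∑ i, 1 / (N:ℂ) * le1 (ao a (σ i))) + (P / (N:ℂ)) * (∑ j, 1 / (N:ℂ) * le1 (-ao a (τ j))) -
        ∑ i, ∑ j, 1 / (N:ℂ) * (1 / (N:ℂ)) * le1 (ao a (σ i) - ao a (τ j)) := by
    have u1 : ∀ i j, 1 / (N:ℂ) * (1 / (N:ℂ)) * (le1 (ao a (σ i)) + le1 (-ao a (τ j)) - le1 (ao a (σ i) - ao a (τ j))) =
        1 / (N:ℂ) * (1 / (N:ℂ)) * le1 (ao a (σ i)) + 1 / (N:ℂ) * (1 / (N:ℂ)) * le1 (-ao a (τ j)) -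
          1 / (N:ℂ) * (1 / (N:ℂ)) * le1 (ao a (σ i) - ao a (τ j)) := fun i j => by ring
    simp_rw [u1, Finset.sum_sub_distrib, Finset.sum_add_distrib, Finset.sum_const, Finset.card_univ, Fintype.card_fin, nsmul_eq_mul,
      ← Finset.mul_sum]
    ring
  rw [s4, Finset.sum_add_distrib]
  obtain ⟨A, hA⟩ : ∃ A, A = ∑ i, le1 (ao a (σ i)) := ⟨_, rfl⟩
  obtain ⟨B, hB⟩ : ∃ B, B = ∑ i, le1 (-ao a (τ i)) := ⟨_, rfl⟩
  obtain ⟨D, hD⟩ : ∃ D, D = ∑ i, ∑ j, le1 (ao a (σ i) - ao a (τ j)) := ⟨_, rfl⟩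
  have v1 : ∑ i, 1 / (N:ℂ) * -(k * le1 (ao a (σ i))) = -(k / N) * A := by
    rw [hA, Finset.mul_sum]; exact Finset.sum_congr rfl fun j _ => by ring
  have v2 : ∑ i, 1 / (N:ℂ) * -(k * le1 (-ao a (τ i))) = -(k / N) * B := by
    rw [hB, Finset.mul_sum]; exact Finset.sum_congr rfl fun j _ => by ring
  have v3 : ∑ i, 1 / (N:ℂ) * le1 (ao a (σ i)) = 1 / N * A := by rw [hA, Finset.mul_sum]
  have v4 : ∑ i, 1 / (N:ℂ) * le1 (-ao a (τ i)) = 1 / N * B := by rw [hB, Finset.mul_sum]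
  have v5 : ∑ i, ∑ j, 1 / (N:ℂ) * (1 / (N:ℂ)) * le1 (ao a (σ i) - ao a (τ j)) = 1 / N * (1 / N) * D := by
    rw [hD, Finset.mul_sum]
    refine Finset.sum_congr rfl fun i _ => ?_
    rw [Finset.mul_sum]
  have v6 : ∑ x, -((((k - P / N) * (1 / N) : ℝ) : ℂ) * le1 (-ao a (τ x))) = -((k - P / N) * (1 / N)) * B := by
    rw [hB, Finset.mul_sum]
    refine Finset.sum_congr rfl fun j _ => ?_
    push_cast
    ring
  have v7 : ∑ x, -(((1 / N * (k - P / N) : ℝ) : ℂ) * le1 (ao a (σ x))) = -((k - P / N) * (1 / N)) * A := by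
    rw [hA, Finset.mul_sum]
    refine Finset.sum_congr rfl fun j _ => ?_
    push_cast
    ring
  have v8 : ∑ x, ∑ y, -(((1 / N * (1 / N) : ℝ) : ℂ) * le1 (ao a (σ x) - ao a (τ y))) = -(1 / N * (1 / N)) * D := by
    rw [hD, Finset.mul_sum]
    refine Finset.sum_congr rfl fun i _ => ?_
    rw [Finset.mul_sum]
    refine Finset.sum_congr rfl fun j _ => ?_
    push_cast
    ring
  rw [v1, v2, v3, v4, v5, v6, v7, v8]
  ring

end Pool.Agent.R313.CX
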