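import Pool.Agent.R313.CX.E
import Pool.Agent.R313.SH.Unb
import Pool.Agent.Y753.SHR.R13
import Pool.Agent.Y753.SHR.R20
import Pool.Agent.Y753.SHR.Star
import Pool.Agent.Y901.SHR.Diag

set_option autoImplicit false

/-! The complex landscape of zeta under the moment measures. -/

namespace Pool.Agent.R313.CX

open Finset Filter MeasureTheory Topology ProbabilityTheory
open Pool.Agent.Y753.SHR
open Pool.Agent.Y753.SHL (za_ae)
open Pool.Agent.H306R2 (aF aF_pos)
open Pool.Agent.R313.SH (unb2)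
open Pool.Agent.Y753.NL (zl_cont)

variable {n : ℕ}

/-- the ratios -/
noncomputable def rt (δ : ℝ) (a : Fin n → ℝ) (t : ℝ) : Fin n → ℂ := fun j =>
  riemannZeta (1 / 2 + δ + ((t + a j * δ : ℝ) : ℂ) * Complex.I) / riemannZeta (1 / 2 + δ + (t : ℂ) * Complex.I)

/-- the exponents -/
noncomputable def Kx (k : ℝ) (N P : ℕ) : Fin (P + 1) → ℝ := Fin.cons (k - P / N) (fun _ => 1 / (N:ℝ))

/-- the points -/
noncomputable def Ax (a : Fin n → ℝ) {P : ℕ} (σ : Fin P → Option (Fin n)) : Fin (P + 1) → ℝ := Fin.cons 0 (fun i => ao a (σ i))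

lemma zr_word {w : ℝ → ℂ} {δ : ℝ} {k : ℝ} {a : Fin n → ℝ} {N P : ℕ} (hN : N ≠ 0) (σ : Fin P → Option (Fin n)) (t : ℝ) :
    zr w δ (Kx k N P) (Ax a σ) t = Complex.exp (k * w t) * ∏ i, Xl (N:ℝ) (fun j => w (t + a j * δ) - w t) (σ i) := by
  have hN0 : (N : ℂ) ≠ 0 := by exact_mod_cast hN
  unfold zr Kx Ax
  rw [Fin.prod_univ_succ]
  simp only [Fin.cons_zero, Fin.cons_succ, zero_mul, add_zero]
  have e1 : ∀ s : Option (Fin n), Complex.exp (((1 / (N:ℝ) : ℝ) : ℂ) * w (t + ao a s * δ)) =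
      Complex.exp (1 / (N:ℂ) * w t) * Xl (N:ℝ) (fun j => w (t + a j * δ) - w t) s := by
    intro s
    cases s with
    | none =>
      simp only [ao, Xl, zero_mul, add_zero, mul_one]
      congr 1
      push_cast
      ring
    | some j =>
      simp only [ao, Xl]
      rw [← Complex.exp_add]
      congr 1
      push_cast
      ring
  simp_rw [e1]
  rw [prod_mul_distrib, prod_const, card_univ, Fintype.card_fin, ← mul_assoc, ← Complex.exp_nat_mul, ← Complex.exp_add]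
  congr 2
  push_cast
  field_simp
  ring

lemma zr_mass {w : ℝ → ℂ} {δ : ℝ} {k : ℝ} {a : Fin n → ℝ} {N P : ℕ} (hN : N ≠ 0) (σ τ : Fin P → Option (Fin n)) {t : ℝ}
    (hw : Complex.exp (w t) = riemannZeta (1 / 2 + δ + (t : ℂ) * Complex.I)) :
    zr w δ (Kx k N P) (Ax a σ) t * (starRingEnd ℂ) (zr w δ (Kx k N P) (Ax a τ) t) =
      ((za δ 0 t ^ (2 * k) : ℝ) : ℂ) * Wd (N:ℝ) σ τ (fun j => w (t + a j * δ) - w t) := by
  rw [zr_word hN, zr_word hN, map_mul]
  unfold Wd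
  have e1 : Complex.exp (k * w t) * (starRingEnd ℂ) (Complex.exp (k * w t)) = ((za δ 0 t ^ (2 * k) : ℝ) : ℂ) := by
    rw [Complex.mul_conj, Complex.normSq_eq_norm_sq]
    congr 1
    have e2 : za δ 0 t = Real.exp ((w t).re) := by
      unfold za
      rw [zero_mul, add_zero, ← hw, Complex.norm_exp]
    rw [e2, Complex.norm_exp, ← Real.exp_mul, ← Real.exp_nat_mul]
    congr 1
    simp only [Complex.mul_re, Complex.ofReal_re, Complex.ofReal_im, zero_mul, sub_zero]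
    push_cast
    ring
  rw [← e1]
  ring

/-- the growth -/
noncomputable def gc (k : ℝ) (y : Fin n → ℂ) : ℝ := 1 + ∑ j, ‖y j‖ ^ (2 * k)

lemma gc_cont {k : ℝ} (hk : 0 < k) : Continuous (gc k : (Fin n → ℂ) → ℝ) := by
  unfold gc
  refine continuous_const.add (continuous_finsetSum _ fun j _ => ?_)
  exact ((continuous_apply j).norm).rpow_const fun _ => Or.inr (by positivity)

lemma gc_one (k : ℝ) (y : Fin n → ℂ) : 1 ≤ gc k y := by
  unfold gc
  have : 0 ≤ ∑ j, ‖y j‖ ^ (2 * k) := sum_nonneg fun j _ => Real.rpow_nonneg (norm_nonneg _) _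
  linarith

lemma norm_exp_rpow (k : ℝ) (z : ℂ) : ‖Complex.exp z‖ ^ (2 * k) = Real.exp (2 * k * z.re) := by
  rw [Complex.norm_exp, ← Real.exp_mul]
  congr 1
  ring

lemma one_exp {k : ℝ} {a : Fin n → ℝ} {ρ : ProbabilityMeasure (Fin n → ℂ)}
    (hρ : ∀ s : ℝ, Integrable (fun z => Real.exp (s * ‖z‖)) (ρ : Measure (Fin n → ℂ)))
    (h : ∀ α β : Fin n → ℂ, ∫ z, Complex.exp (∑ j, (α j * z j + β j * (starRingEnd ℂ) (z j))) ∂(ρ : Measure (Fin n → ℂ)) =
      Complex.exp (∑ j, (α j * mu k (a j) + β j * (starRingEnd ℂ) (mu k (a j))) + ∑ i, ∑ j, α i * β j * Cv (a i) (a j))) (j : Fin n) :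
    Integrable (fun z : Fin n → ℂ => Real.exp (2 * k * (z j).re)) (ρ : Measure (Fin n → ℂ)) ∧
      ∫ z, Real.exp (2 * k * (z j).re) ∂(ρ : Measure (Fin n → ℂ)) = 1 := by
  have hi : Integrable (fun z : Fin n → ℂ => Real.exp (2 * k * (z j).re)) (ρ : Measure (Fin n → ℂ)) := by
    have hcz : Continuous fun z : Fin n → ℂ => Real.exp (2 * k * (z j).re) :=
      Real.continuous_exp.comp ((Complex.continuous_re.comp (continuous_apply j)).const_mul _)
    refine (hρ (2 * |k|)).mono' hcz.aestronglyMeasurable (Eventually.of_forall fun z => ?_)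
    rw [Real.norm_of_nonneg (Real.exp_pos _).le]
    refine Real.exp_le_exp.mpr ?_
    have h1 : 2 * k * (z j).re ≤ |2 * k * (z j).re| := le_abs_self _
    rw [abs_mul, abs_mul, abs_two] at h1
    have h2 : |(z j).re| ≤ ‖z‖ := (Complex.abs_re_le_norm _).trans (norm_le_pi_norm z j)
    have h3 := mul_le_mul_of_nonneg_left h2 (by positivity : 0 ≤ 2 * |k|)
    linarith
  refine ⟨hi, ?_⟩
  have h1 := h (Pi.single j (k : ℂ)) (Pi.single j (k : ℂ))
  have e1 : ∀ f : Fin n → ℂ, ∑ i, (Pi.single j (k : ℂ) : Fin n → ℂ) i * f i = k * f j := by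
    intro f
    rw [sum_eq_single j]
    · rw [Pi.single_eq_same]
    · intro i _ hi
      rw [Pi.single_eq_of_ne hi, zero_mul]
    · intro h
      exact absurd (mem_univ j) h
  have e2 : ∀ z : Fin n → ℂ, Complex.exp (∑ i, ((Pi.single j (k : ℂ) : Fin n → ℂ) i * z i + (Pi.single j (k : ℂ) : Fin n → ℂ) i * (starRingEnd ℂ) (z i))) =
      ((Real.exp (2 * k * (z j).re) : ℝ) : ℂ) := by
    intro z
    rw [sum_add_distrib, e1, e1 (fun i => (starRingEnd ℂ) (z i)), ← mul_add, Complex.add_conj]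
    push_cast
    congr 1
    ring
  simp_rw [e2] at h1
  rw [integral_complex_ofReal] at h1
  have e3 : ∑ i, ∑ l, (Pi.single j (k : ℂ) : Fin n → ℂ) i * (Pi.single j (k : ℂ) : Fin n → ℂ) l * Cv (a i) (a l) = k * (k * Cv (a j) (a j)) := by
    have t1 : ∀ i, ∑ l, (Pi.single j (k : ℂ) : Fin n → ℂ) i * (Pi.single j (k : ℂ) : Fin n → ℂ) l * Cv (a i) (a l) =
        (Pi.single j (k : ℂ) : Fin n → ℂ) i * (k * Cv (a i) (a j)) := by
      intro i
      rw [← e1 (fun l => Cv (a i) (a l)), mul_sum]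
      exact sum_congr rfl fun l _ => by ring
    simp_rw [t1]
    rw [e1 (fun i => k * Cv (a i) (a j))]
  rw [sum_add_distrib, e1 (fun i => mu k (a i)), e1 (fun i => (starRingEnd ℂ) (mu k (a i))), e3, conj_mu, mu_eq, Cv_eq, sub_self, le1_zero] at h1
  have e4 : (k:ℂ) * -(k * le1 (a j)) + k * -(k * le1 (-a j)) + k * (k * (le1 (a j) + le1 (-a j) - 0)) = 0 := by ring
  rw [e4, Complex.exp_zero] at h1
  exact_mod_cast h1

/-- the general theorem -/
theorem cgen {δ : ℝ → ℝ} (hδ : Tendsto δ atTop (𝓝 0))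
    (hδL : Tendsto (fun T : ℝ => δ T * Real.log T) atTop atTop) {D : ℝ → Set ℝ} (hD : ∀ T, MeasurableSet (D T) ∧ D T ⊆ Set.Icc 0 T)
    {k : ℝ} (hk : 0 < k) (a : Fin n → ℝ) {w : ℝ → ℝ → ℂ} (hwm : ∀ T, Measurable (w T))
    (hw : ∀ᶠ T in atTop, ∀ u : ℝ, riemannZeta (1 / 2 + δ T + (u : ℂ) * Complex.I) ≠ 0 →
        Complex.exp (w T u) = riemannZeta (1 / 2 + δ T + (u : ℂ) * Complex.I))
    (Hm : ∀ (N P : ℕ), N ≠ 0 → (P:ℝ) < k * N → ∀ σ τ : Fin P → Option (Fin n),
      Tendsto (fun T : ℝ => (((2 * δ T) ^ (k ^ 2) / T : ℝ) : ℂ) * ∫ t in D T, zr (w T) (δ T) (Kx k N P) (Ax a σ) t *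
          (starRingEnd ℂ) (zr (w T) (δ T) (Kx k N P) (Ax a τ) t)) atTop
        (𝓝 ((aF k : ℂ) * ∏ j, ∏ i, (1 + Complex.I * ((Ax a σ j - Ax a τ i : ℝ) : ℂ) / 2) ^ (-((Kx k N P j * Kx k N P i : ℝ) : ℂ)))))
    (H0 : Tendsto (fun T : ℝ => (2 * δ T) ^ (k ^ 2) / T * ∫ t in D T, za (δ T) 0 t ^ (2 * k)) atTop (𝓝 (aF k)))
    (Ha : ∀ j, Tendsto (fun T : ℝ => (2 * δ T) ^ (k ^ 2) / T * ∫ t in D T, za (δ T) (a j) t ^ (2 * k)) atTop (𝓝 (aF k)))
    {ρ : ProbabilityMeasure (Fin n → ℂ)}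
    (hρ : ∀ s : ℝ, Integrable (fun z => Real.exp (s * ‖z‖)) (ρ : Measure (Fin n → ℂ)))
    (hρ2 : ∀ α β : Fin n → ℂ, ∫ z, Complex.exp (∑ j, (α j * z j + β j * (starRingEnd ℂ) (z j))) ∂(ρ : Measure (Fin n → ℂ)) =
      Complex.exp (∑ j, (α j * mu k (a j) + β j * (starRingEnd ℂ) (mu k (a j))) + ∑ i, ∑ j, α i * β j * Cv (a i) (a j)))
    {F : (Fin n → ℂ) → ℝ} {A : ℝ} (hFc : Continuous F) (hFA : ∀ y, |F y| ≤ A * (1 + ∑ j, ‖y j‖ ^ (2 * k))) :
    Tendsto (fun T : ℝ => (2 * δ T) ^ (k ^ 2) / T * ∫ t in D T, za (δ T) 0 t ^ (2 * k) * F (rt (δ T) a t)) atTop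
      (𝓝 (aF k * ∫ z, F (fun j => Complex.exp (z j)) ∂(ρ : Measure (Fin n → ℂ)))) := by
  have hpos : ∀ᶠ T in atTop, 0 < δ T := by
    filter_upwards [hδL.eventually_gt_atTop 0, eventually_gt_atTop 1] with T hT hT1
    exact (pos_iff_pos_of_mul_pos hT).mpr (Real.log_pos hT1)
  have hlt : ∀ᶠ T in atTop, δ T < 1 / 2 := hδ.eventually (gt_mem_nhds (by norm_num))
  have hc : 0 < aF k := aF_pos hk
  obtain ⟨v, hv⟩ : ∃ v : ℝ → ℝ, ∀ T, v T = (2 * δ T) ^ (k ^ 2) / T := ⟨_, fun _ => rfl⟩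
  simp_rw [← hv] at Hm H0 Ha ⊢
  have hv0 : ∀ᶠ T in atTop, 0 ≤ v T := by
    filter_upwards [hpos, eventually_gt_atTop 0] with T h1 h2
    rw [hv]; positivity
  have hcont : ∀ {T : ℝ}, δ T < 1 / 2 → ∀ x : ℝ, Continuous fun t => za (δ T) x t ^ (2 * k) := fun hT x =>
    (za_cont hT x).rpow_const fun _ => Or.inr (by positivity)
  have hI : ∀ {T : ℝ}, δ T < 1 / 2 → ∀ x : ℝ, IntegrableOn (fun t => za (δ T) x t ^ (2 * k)) (D T) := fun hT x =>
    ((hcont hT x).continuousOn.integrableOn_compact isCompact_Icc).mono_set (hD _).2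
  have hYm : ∀ T : ℝ, Measurable (fun t : ℝ => (fun j => w T (t + a j * δ T) - w T t : Fin n → ℂ)) := by
    intro T
    refine measurable_pi_lambda _ fun j => ?_
    exact ((hwm T).comp (measurable_id.add_const _)).sub (hwm T)
  have hrm : ∀ᶠ T : ℝ in atTop, Measurable (rt (δ T) a) := by
    filter_upwards [hlt] with T hT
    have h1 : Continuous fun t : ℝ => riemannZeta (1 / 2 + δ T + t * Complex.I) := zl_cont hT
    refine measurable_pi_lambda _ fun j => ?_
    exact (h1.comp (continuous_id.add continuous_const)).measurable.div h1.measurable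
  -- the words
  have hid : ∀ᶠ T in atTop, ∀ (N P : ℕ), N ≠ 0 → ∀ σ τ : Fin P → Option (Fin n), ∀ᵐ t : ℝ,
      zr (w T) (δ T) (Kx k N P) (Ax a σ) t * (starRingEnd ℂ) (zr (w T) (δ T) (Kx k N P) (Ax a τ) t) =
      ((za (δ T) 0 t ^ (2 * k) : ℝ) : ℂ) * Wd (N:ℝ) σ τ (fun j => w T (t + a j * δ T) - w T t) := by
    filter_upwards [hw] with T hT N P hN σ τ
    filter_upwards [zeros_ae (δ T) 0] with t ht
    rw [add_zero] at ht
    exact zr_mass hN σ τ (hT t ht)
  have main : ∀ G : BoundedContinuousFunction (Fin n → ℂ) ℝ,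
      Tendsto (fun T : ℝ => ∫ t in D T, (v T * za (δ T) 0 t ^ (2 * k)) * G (rt (δ T) a t)) atTop
        (𝓝 (aF k * ∫ z, G (fun j => Complex.exp (z j)) ∂(ρ : Measure (Fin n → ℂ)))) := by
    intro G
    have h1 := avg hk (p := fun T t => v T * za (δ T) 0 t ^ (2 * k)) (Y := fun T t => (fun j => w T (t + a j * δ T) - w T t : Fin n → ℂ))
      (ms := fun T => volume.restrict (D T)) (by
        filter_upwards [hlt, hv0] with T hT h0
        exact ⟨(hcont hT 0).measurable.const_mul _, fun t => mul_nonneg h0 (Real.rpow_nonneg (za_nonneg _ _ _) _)⟩)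
      (Eventually.of_forall hYm) hc (by
        filter_upwards [hlt] with T hT
        exact (hI hT 0).const_mul _) (by
        refine H0.congr fun T => ?_
        rw [integral_const_mul]) hρ (fun N P hN hP σ τ => by
        refine ⟨?_, ?_⟩
        · filter_upwards [hlt, hw, hid] with T hT hwT hidT
          -- the domination
          have hz : ∀ σ : Fin P → Option (Fin n), ∀ᵐ t : ℝ, ‖zr (w T) (δ T) (Kx k N P) (Ax a σ) t‖ ^ 2 = ∏ j, za (δ T) (Ax a σ j) t ^ (2 * Kx k N P j) := by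
            intro σ
            filter_upwards [ae_all_iff.mpr fun j => zeros_ae (δ T) (Ax a σ j * δ T)] with t ht
            exact zr_norm fun j => hwT _ (ht j)
          have hKx : ∀ j, 0 ≤ Kx k N P j := by
            intro j
            have hN1 : (0:ℝ) < N := by exact_mod_cast Nat.pos_of_ne_zero hN
            refine Fin.cases ?_ (fun i => ?_) j
            · show 0 ≤ k - P / N
              rw [sub_nonneg, div_le_iff₀ hN1]
              exact hP.le
            · show 0 ≤ 1 / (N:ℝ)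
              positivity
          have hdc : ∀ σ : Fin P → Option (Fin n), Continuous fun t => ∏ j, za (δ T) (Ax a σ j) t ^ (2 * Kx k N P j) := fun σ =>
            continuous_finsetProd _ fun j _ => (za_cont hT _).rpow_const fun _ => Or.inr (by have := hKx j; positivity)
          have hdi : ∀ σ : Fin P → Option (Fin n), IntegrableOn (fun t => ∏ j, za (δ T) (Ax a σ j) t ^ (2 * Kx k N P j)) (D T) := fun σ =>
            ((hdc σ).continuousOn.integrableOn_compact isCompact_Icc).mono_set (hD T).2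
          have hzi : IntegrableOn (fun t => zr (w T) (δ T) (Kx k N P) (Ax a σ) t * (starRingEnd ℂ) (zr (w T) (δ T) (Kx k N P) (Ax a τ) t)) (D T) := by
            refine ((hdi σ).add (hdi τ)).mono' ?_ ?_
            · exact ((zr_meas (hwm T) _ _ _).mul (Complex.continuous_conj.measurable.comp (zr_meas (hwm T) _ _ _))).aestronglyMeasurable
            · refine ae_restrict_of_ae ?_
              filter_upwards [hz σ, hz τ] with t h1 h2
              rw [norm_mul, RCLike.norm_conj]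
              show _ ≤ (∏ j, za (δ T) (Ax a σ j) t ^ (2 * Kx k N P j)) + ∏ j, za (δ T) (Ax a τ j) t ^ (2 * Kx k N P j)
              rw [← h1, ← h2]
              nlinarith [sq_nonneg (‖zr (w T) (δ T) (Kx k N P) (Ax a σ) t‖ - ‖zr (w T) (δ T) (Kx k N P) (Ax a τ) t‖),
                sq_nonneg ‖zr (w T) (δ T) (Kx k N P) (Ax a σ) t‖, sq_nonneg ‖zr (w T) (δ T) (Kx k N P) (Ax a τ) t‖]
          refine (hzi.const_mul (v T : ℂ)).congr (ae_restrict_of_ae ?_)
          filter_upwards [hidT N P hN σ τ] with t ht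
          rw [ht]
          push_cast
          ring
        · rw [word_normal hρ2 hN σ τ]
          refine (Hm N P hN hP σ τ).congr' ?_
          filter_upwards [hid] with T hidT
          rw [← integral_const_mul]
          refine integral_congr_ae (ae_restrict_of_ae ?_)
          filter_upwards [hidT N P hN σ τ] with t ht
          rw [ht]
          push_cast
          ring) G
    refine h1.congr' ?_
    filter_upwards [hw] with T hT
    refine integral_congr_ae (ae_restrict_of_ae ?_)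
    filter_upwards [zeros_ae (δ T) 0, ae_all_iff.mpr fun j => zeros_ae (δ T) (a j * δ T)] with t h0 h1
    rw [add_zero] at h0
    congr 2
    funext j
    unfold rt
    rw [Complex.exp_sub, hT _ (h1 j), hT _ h0]
  -- growth
  have hec : Continuous fun z : Fin n → ℂ => (fun j => Complex.exp (z j) : Fin n → ℂ) := by fun_prop
  obtain ⟨ρ', hρ'⟩ : ∃ ρ' : Measure (Fin n → ℂ), ρ' = (ρ : Measure (Fin n → ℂ)).map (fun z => (fun j => Complex.exp (z j) : Fin n → ℂ)) := ⟨_, rfl⟩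
  have hρp : IsProbabilityMeasure ρ' := by rw [hρ']; exact Measure.isProbabilityMeasure_map hec.measurable.aemeasurable
  have hρint : ∀ g : (Fin n → ℂ) → ℝ, Continuous g → ∫ y, g y ∂ρ' = ∫ z, g (fun j => Complex.exp (z j)) ∂(ρ : Measure (Fin n → ℂ)) := by
    intro g hg
    rw [hρ', integral_map hec.measurable.aemeasurable hg.aestronglyMeasurable]
  have hgid : ∀ z : Fin n → ℂ, gc k (fun j => Complex.exp (z j)) = 1 + ∑ j, Real.exp (2 * k * (z j).re) := by
    intro z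
    unfold gc
    simp_rw [norm_exp_rpow]
  have hρi : Integrable (gc k) ρ' := by
    rw [hρ', integrable_map_measure (gc_cont hk).aestronglyMeasurable hec.measurable.aemeasurable]
    have h1 : Integrable (fun z : Fin n → ℂ => 1 + ∑ j, Real.exp (2 * k * (z j).re)) (ρ : Measure (Fin n → ℂ)) :=
      (integrable_const (1:ℝ)).add (integrable_finsetSum _ fun j _ => (one_exp hρ hρ2 j).1)
    refine h1.congr (Eventually.of_forall fun z => ?_)
    exact (hgid z).symm
  have hρv : ∫ y, gc k y ∂ρ' = 1 + n := by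
    rw [hρint _ (gc_cont hk)]
    simp_rw [hgid]
    rw [integral_add (integrable_const _) (integrable_finsetSum _ fun j _ => (one_exp hρ hρ2 j).1),
      integral_finsetSum _ fun j _ => (one_exp hρ hρ2 j).1]
    simp_rw [(one_exp hρ hρ2 _).2]
    simp
  have hgr : ∀ T : ℝ, (fun t => v T * za (δ T) 0 t ^ (2 * k) * gc k (rt (δ T) a t)) =ᵐ[volume.restrict (D T)]
      fun t => v T * za (δ T) 0 t ^ (2 * k) + ∑ j, v T * za (δ T) (a j) t ^ (2 * k) := by
    intro T
    refine ae_restrict_of_ae ?_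
    filter_upwards [za_ae (δ T) 0] with t h1
    unfold gc
    rw [mul_add, mul_one, mul_sum]
    congr 1
    refine sum_congr rfl fun j _ => ?_
    rw [mul_assoc]
    congr 1
    have e1 : ‖rt (δ T) a t j‖ = za (δ T) (a j) t / za (δ T) 0 t := by
      unfold rt za
      rw [norm_div, zero_mul, add_zero]
    rw [e1, Real.div_rpow (za_nonneg _ _ _) (za_nonneg _ _ _), mul_div_cancel₀]
    exact (Real.rpow_pos_of_pos h1 _).ne'
  have hgi : ∀ᶠ T in atTop, Integrable (fun t => v T * za (δ T) 0 t ^ (2 * k) * gc k (rt (δ T) a t)) (volume.restrict (D T)) := by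
    filter_upwards [hlt] with T hT
    exact (((hI hT 0).const_mul _).add (integrable_finsetSum _ fun j _ => (hI hT (a j)).const_mul _)).congr (hgr T).symm
  have hm : Tendsto (fun T => ∫ t, v T * za (δ T) 0 t ^ (2 * k) * gc k (rt (δ T) a t) ∂(volume.restrict (D T))) atTop
      (𝓝 (aF k * ∫ y, gc k y ∂ρ')) := by
    rw [hρv]
    have h1 := H0.add (tendsto_finsetSum (univ : Finset (Fin n)) fun j _ => Ha j)
    have e1 : aF k * (1 + (n : ℝ)) = aF k + ∑ _j : Fin n, aF k := by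
      rw [sum_const, card_univ, Fintype.card_fin, nsmul_eq_mul]
      ring
    rw [e1]
    refine h1.congr' ?_
    filter_upwards [hlt] with T hT
    rw [integral_congr_ae (hgr T), integral_add ((hI hT 0).const_mul _) (integrable_finsetSum _ fun j _ => (hI hT (a j)).const_mul _),
      integral_finsetSum _ fun j _ => (hI hT (a j)).const_mul _]
    simp_rw [integral_const_mul]
  have fin := unb2 (p := fun T t => v T * za (δ T) 0 t ^ (2 * k)) (Y := fun T t => rt (δ T) a t) (ms := fun T => volume.restrict (D T))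
    (ρ := ρ') (c := aF k) (g := gc k) (by
      filter_upwards [hlt, hv0] with T hT h0
      exact ⟨(hcont hT 0).measurable.const_mul _, fun t => mul_nonneg h0 (Real.rpow_nonneg (za_nonneg _ _ _) _)⟩) hrm
    (gc_cont hk) (gc_one k) hgi hρi hm (fun G => by
      rw [hρint _ G.continuous]
      exact main G) hFc (A := A) hFA
  rw [hρint _ hFc] at fin
  refine fin.congr fun T => ?_
  rw [← integral_const_mul]
  refine integral_congr_ae (Eventually.of_forall fun t => ?_)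
  simp only
  ring

/-- the real form of the mass -/
lemma mass_real {δ : ℝ → ℝ} (hδ : Tendsto δ atTop (𝓝 0))
    (hδL : Tendsto (fun T : ℝ => δ T * Real.log T) atTop atTop) {D : ℝ → Set ℝ} (hD : ∀ T, MeasurableSet (D T) ∧ D T ⊆ Set.Icc 0 T)
    {k : ℝ} (hk : 0 < k) (x : ℝ) {w : ℝ → ℝ → ℂ}
    (hw : ∀ᶠ T in atTop, ∀ u : ℝ, riemannZeta (1 / 2 + δ T + (u : ℂ) * Complex.I) ≠ 0 →
        Complex.exp (w T u) = riemannZeta (1 / 2 + δ T + (u : ℂ) * Complex.I))
    (h : Tendsto (fun T : ℝ => (((2 * δ T) ^ (k ^ 2) / T : ℝ) : ℂ) * ∫ t in D T, zr (w T) (δ T) (fun _ : Fin 1 => k) (fun _ => x) t *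
          (starRingEnd ℂ) (zr (w T) (δ T) (fun _ : Fin 1 => k) (fun _ => x) t)) atTop
        (𝓝 ((aF k : ℂ) * ∏ j : Fin 1, ∏ i : Fin 1, (1 + Complex.I * ((x - x : ℝ) : ℂ) / 2) ^ (-((k * k : ℝ) : ℂ))))) :
    Tendsto (fun T : ℝ => (2 * δ T) ^ (k ^ 2) / T * ∫ t in D T, za (δ T) x t ^ (2 * k)) atTop (𝓝 (aF k)) := by
  have e0 : (aF k : ℂ) * ∏ _j : Fin 1, ∏ _i : Fin 1, (1 + Complex.I * ((x - x : ℝ) : ℂ) / 2) ^ (-((k * k : ℝ) : ℂ)) = (aF k : ℂ) := by
    simp
  rw [e0] at h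
  have h2 := (Complex.continuous_re.tendsto _).comp h
  rw [Complex.ofReal_re] at h2
  refine h2.congr' ?_
  filter_upwards [hw] with T hT
  have e1 : ∫ t in D T, zr (w T) (δ T) (fun _ : Fin 1 => k) (fun _ => x) t *
          (starRingEnd ℂ) (zr (w T) (δ T) (fun _ : Fin 1 => k) (fun _ => x) t) = ((∫ t in D T, za (δ T) x t ^ (2 * k) : ℝ) : ℂ) := by
    rw [← integral_complex_ofReal]
    refine integral_congr_ae (ae_restrict_of_ae ?_)
    filter_upwards [zeros_ae (δ T) (x * δ T)] with t ht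
    have h3 := zr_sq (k := 1) (w := w T) (δ := δ T) (κ := fun _ => k) (a := fun _ => x) (t := t) fun _ => hT _ ht
    rw [Fin.prod_univ_one] at h3
    exact h3
  rw [Function.comp, e1, ← Complex.ofReal_mul, Complex.ofReal_re]

/-- the complex landscape of every order, off a small set of large values -/
theorem cland {δ : ℝ → ℝ} (hδ : Tendsto δ atTop (𝓝 0))
    (hδL : Tendsto (fun T : ℝ => δ T * Real.log T) atTop atTop) {c : ℝ} (hc : 0 ≤ c) {S B : Set ℝ} (hS : S.Countable)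
    (hB : B.Countable) (hB0 : ∀ k ∈ B, 0 < k) :
    ∃ E : ℝ → Set ℝ, (∀ T, MeasurableSet (E T) ∧ E T ⊆ Set.Icc 0 T ∧ ∀ t ∈ E T, ∃ a ∈ insert 0 S, (δ T) ^ (-(2 + c)) < za (δ T) a t) ∧
      Tendsto (fun T => (volume (E T)).toReal / (T * (δ T) ^ (4 + 4 * c))) atTop (𝓝 0) ∧
      ∀ k ∈ B, ∀ (n : ℕ) (a : Fin n → ℝ), (∀ j, a j ∈ S) → ∀ ρ : ProbabilityMeasure (Fin n → ℂ),
        (∀ s : ℝ, Integrable (fun z => Real.exp (s * ‖z‖)) (ρ : Measure (Fin n → ℂ))) →
        (∀ α β : Fin n → ℂ, ∫ z, Complex.exp (∑ j, (α j * z j + β j * (starRingEnd ℂ) (z j))) ∂(ρ : Measure (Fin n → ℂ)) =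
          Complex.exp (∑ j, (α j * mu k (a j) + β j * (starRingEnd ℂ) (mu k (a j))) + ∑ i, ∑ j, α i * β j * Cv (a i) (a j))) →
        ∀ (F : (Fin n → ℂ) → ℝ) (A : ℝ), Continuous F → (∀ y, |F y| ≤ A * (1 + ∑ j, ‖y j‖ ^ (2 * k))) →
        ((k ≤ 2 ∨ 2 + 2 * c ≤ k) → Tendsto (fun T : ℝ => (2 * δ T) ^ (k ^ 2) / T * ∫ t in Set.Icc 0 T \ E T,
          za (δ T) 0 t ^ (2 * k) * F (rt (δ T) a t)) atTop (𝓝 (aF k * ∫ z, F (fun j => Complex.exp (z j)) ∂(ρ : Measure (Fin n → ℂ))))) ∧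
        (k ≤ 2 → Tendsto (fun T : ℝ => (2 * δ T) ^ (k ^ 2) / T * ∫ t in Set.Icc 0 T,
          za (δ T) 0 t ^ (2 * k) * F (rt (δ T) a t)) atTop (𝓝 (aF k * ∫ z, F (fun j => Complex.exp (z j)) ∂(ρ : Measure (Fin n → ℂ))))) := by
  obtain ⟨R, hR⟩ : ∃ R : Set ℝ, R = {x : ℝ | 0 < x} ∩ (fun x : ℝ × ℚ × ℚ => x.1 * (x.2.1 : ℝ) + (x.2.2 : ℝ)) '' (B ×ˢ Set.univ) := ⟨_, rfl⟩
  have hRc : R.Countable := by
    rw [hR]
    exact ((hB.prod (Set.to_countable _)).image _).mono Set.inter_subset_right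
  have hR0 : ∀ r ∈ R, 0 < r := fun r hr => by
    rw [hR] at hr
    exact hr.1
  obtain ⟨E, w, hE, hvol, hw, hm⟩ := mixed_small Pool.Agent.Y901.SHR.done Pool.Agent.Y753.SHR.star hδ hδL hc (hS.insert 0) hRc hR0
  refine ⟨E, fun T => ⟨(hE T).1, (hE T).2.1, (hE T).2.2.2⟩, hvol, fun k hk n a ha ρ hρ hρ2 F A hFc hFA => ?_⟩
  have hk0 := hB0 k hk
  have hmem : ∀ q r : ℚ, 0 < k * (q : ℝ) + r → k * (q : ℝ) + r ∈ R := by
    intro q r h
    rw [hR]
    exact ⟨h, (k, q, r), ⟨hk, Set.mem_univ _⟩, rfl⟩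
  have hkR : k ∈ R := by
    have := hmem 1 0 (by push_cast; linarith)
    simpa using this
  have hKs : ∀ N P : ℕ, ∑ j, Kx k N P j = k := by
    intro N P
    unfold Kx
    rw [Fin.sum_univ_succ]
    simp only [Fin.cons_zero, Fin.cons_succ, sum_const, card_univ, Fintype.card_fin, nsmul_eq_mul]
    ring
  have hKR : ∀ N P : ℕ, N ≠ 0 → (P:ℝ) < k * N → ∀ j, Kx k N P j ∈ R := by
    intro N P hN hP j
    have hN1 : (0:ℝ) < N := by exact_mod_cast Nat.pos_of_ne_zero hN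
    refine Fin.cases ?_ (fun i => ?_) j
    · show k - P / N ∈ R
      have h1 := hmem 1 (-(P / N)) (by
        push_cast
        rw [mul_one, ← sub_eq_add_neg, sub_pos, div_lt_iff₀ hN1]
        exact hP)
      push_cast at h1
      rwa [mul_one, ← sub_eq_add_neg] at h1
    · show 1 / (N:ℝ) ∈ R
      have h1 := hmem 0 (1 / N) (by
        push_cast
        rw [mul_zero, zero_add]
        positivity)
      push_cast at h1
      rwa [mul_zero, zero_add] at h1
  have hAS : ∀ {P : ℕ} (σ : Fin P → Option (Fin n)) (j : Fin (P + 1)), Ax a σ j ∈ insert 0 S := by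
    intro P σ j
    refine Fin.cases (Set.mem_insert _ _) (fun i => ?_) j
    show ao a (σ i) ∈ insert 0 S
    cases σ i with
    | none => exact Set.mem_insert _ _
    | some l => exact Set.mem_insert_of_mem _ (ha l)
  have hwm : ∀ T, Measurable (w T) := fun T => (hE T).2.2.1
  have hcase' : (k ≤ 2 ∨ 2 + 2 * c ≤ k) → (k ≤ 2 ∨ 4 + 4 * c ≤ 2 * k) := by
    rintro (h | h)
    · left; exact h
    · right; linarith
  refine ⟨fun hcase => ?_, fun hk2 => ?_⟩
  · have hD : ∀ T, MeasurableSet (Set.Icc 0 T \ E T) ∧ Set.Icc 0 T \ E T ⊆ Set.Icc 0 T := fun T =>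
      ⟨measurableSet_Icc.diff (hE T).1, Set.sdiff_subset⟩
    have hone : ∀ x ∈ insert 0 S, Tendsto (fun T : ℝ => (2 * δ T) ^ (k ^ 2) / T * ∫ t in Set.Icc 0 T \ E T, za (δ T) x t ^ (2 * k)) atTop
        (𝓝 (aF k)) := fun x hx => mass_real hδ hδL hD hk0 x hw
      ((hm 1 1 (fun _ => k) (fun _ => x) (fun _ => k) (fun _ => x) k le_rfl le_rfl (by simp) (by simp) (fun _ => hkR) (fun _ => hx)
        (fun _ => hkR) (fun _ => hx)).1 (hcase' hcase))
    exact cgen hδ hδL hD hk0 a hwm hw (fun N P hN hP σ τ =>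
      (hm (P + 1) (P + 1) (Kx k N P) (Ax a σ) (Kx k N P) (Ax a τ) k (Nat.le_add_left 1 P) (Nat.le_add_left 1 P) (hKs N P) (hKs N P)
        (hKR N P hN hP) (hAS σ) (hKR N P hN hP) (hAS τ)).1 (hcase' hcase))
      (hone 0 (Set.mem_insert _ _)) (fun j => hone _ (Set.mem_insert_of_mem _ (ha j))) hρ hρ2 hFc hFA
  · have hD : ∀ T : ℝ, MeasurableSet (Set.Icc 0 T) ∧ Set.Icc 0 T ⊆ Set.Icc 0 T := fun T => ⟨measurableSet_Icc, subset_rfl⟩
    have hone : ∀ x ∈ insert 0 S, Tendsto (fun T : ℝ => (2 * δ T) ^ (k ^ 2) / T * ∫ t in Set.Icc 0 T, za (δ T) x t ^ (2 * k)) atTop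
        (𝓝 (aF k)) := fun x hx => mass_real hδ hδL hD hk0 x hw
      ((hm 1 1 (fun _ => k) (fun _ => x) (fun _ => k) (fun _ => x) k le_rfl le_rfl (by simp) (by simp) (fun _ => hkR) (fun _ => hx)
        (fun _ => hkR) (fun _ => hx)).2 hk2)
    exact cgen hδ hδL hD hk0 a hwm hw (fun N P hN hP σ τ =>
      (hm (P + 1) (P + 1) (Kx k N P) (Ax a σ) (Kx k N P) (Ax a τ) k (Nat.le_add_left 1 P) (Nat.le_add_left 1 P) (hKs N P) (hKs N P)
        (hKR N P hN hP) (hAS σ) (hKR N P hN hP) (hAS τ)).2 hk2)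
      (hone 0 (Set.mem_insert _ _)) (fun j => hone _ (Set.mem_insert_of_mem _ (ha j))) hρ hρ2 hFc hFA

end Pool.Agent.R313.CX
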