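import Pool.Agent.R313.CX.F

set_option autoImplicit false

/-! Homogeneous test functions. -/

namespace Pool.Agent.R313.CX

open Finset Filter MeasureTheory Topology ProbabilityTheory
open Pool.Agent.Y753.SHR
open Pool.Agent.Y753.SHL (za_ae)
open Pool.Agent.H306R2 (aF aF_pos)
open Pool.Agent.Y753.NL (zl_cont)

variable {n : ℕ}

lemma pi_pow_le {β : ℝ} (hβ : 0 < β) (y : Fin n → ℂ) : ‖y‖ ^ β ≤ ∑ j, ‖y j‖ ^ β := by
  have h0 : 0 ≤ ∑ j, ‖y j‖ ^ β := sum_nonneg fun j _ => by positivity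
  have h1 : ‖y‖ ≤ (∑ j, ‖y j‖ ^ β) ^ (1 / β) := by
    rw [pi_norm_le_iff_of_nonneg (by positivity)]
    intro j
    have h2 : ‖y j‖ = (‖y j‖ ^ β) ^ (1 / β) := by
      rw [← Real.rpow_mul (norm_nonneg _), mul_one_div_cancel hβ.ne', Real.rpow_one]
    rw [h2]
    exact Real.rpow_le_rpow (by positivity) (single_le_sum (f := fun j => ‖y j‖ ^ β) (fun i _ => by positivity) (mem_univ j)) (by positivity)
  calc ‖y‖ ^ β ≤ ((∑ j, ‖y j‖ ^ β) ^ (1 / β)) ^ β := Real.rpow_le_rpow (norm_nonneg _) h1 hβ.le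
    _ = ∑ j, ‖y j‖ ^ β := by rw [← Real.rpow_mul h0, one_div_mul_cancel hβ.ne', Real.rpow_one]

/-- homogeneous functions have bounded growth -/
lemma hom_bound {k : ℝ} (hk : 0 < k) {Φ : (Fin n → ℂ) → ℂ} (hc : Continuous Φ)
    (hΦ : ∀ (u : ℂ) (z : Fin n → ℂ), Φ (u • z) = ((‖u‖ ^ (2 * k) : ℝ) : ℂ) * Φ z) :
    ∃ A : ℝ, 0 ≤ A ∧ ∀ y, ‖Φ y‖ ≤ A * (1 + ∑ j, ‖y j‖ ^ (2 * k)) := by
  obtain ⟨A, hA⟩ := (isCompact_closedBall (0 : Fin n → ℂ) 1).exists_bound_of_continuousOn hc.continuousOn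
  have hA0 : 0 ≤ A := (norm_nonneg _).trans (hA 0 (Metric.mem_closedBall_self (by norm_num)))
  refine ⟨A, hA0, fun y => ?_⟩
  have h1 : ‖Φ y‖ ≤ ‖y‖ ^ (2 * k) * A := by
    rcases eq_or_ne y 0 with h | h
    · have h2 := hΦ 0 0
      rw [smul_zero, norm_zero, Real.zero_rpow (by positivity), Complex.ofReal_zero, zero_mul] at h2
      rw [h, h2, norm_zero, norm_zero, Real.zero_rpow (by positivity), zero_mul]
    · have hn : 0 < ‖y‖ := norm_pos_iff.mpr h
      have h2 := hΦ ((‖y‖ : ℝ) : ℂ) (((‖y‖⁻¹ : ℝ) : ℂ) • y)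
      have h3 : ((‖y‖ : ℝ) : ℂ) • (((‖y‖⁻¹ : ℝ) : ℂ) • y) = y := by
        rw [smul_smul, ← Complex.ofReal_mul, mul_inv_cancel₀ hn.ne', Complex.ofReal_one, one_smul]
      rw [h3] at h2
      rw [h2, norm_mul, Complex.norm_real, Complex.norm_real, Real.norm_of_nonneg (by positivity), norm_norm]
      refine mul_le_mul_of_nonneg_left (hA _ ?_) (by positivity)
      rw [mem_closedBall_zero_iff, norm_smul, Complex.norm_real, norm_inv, norm_norm, inv_mul_cancel₀ hn.ne']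
  have h2 := pi_pow_le (by positivity : 0 < 2 * k) y
  have h3 : ‖y‖ ^ (2 * k) * A ≤ (1 + ∑ j, ‖y j‖ ^ (2 * k)) * A := mul_le_mul_of_nonneg_right (by linarith) hA0
  linarith

/-- from growing to homogeneous test functions -/
lemma to_hom {δ : ℝ → ℝ} (hδ : Tendsto δ atTop (𝓝 0)) {D : ℝ → Set ℝ} (hD : ∀ T, D T ⊆ Set.Icc 0 T)
    {k : ℝ} (hk : 0 < k) (a : Fin n → ℝ) {ρ : ProbabilityMeasure (Fin n → ℂ)}
    (hi : ∀ F : (Fin n → ℂ) → ℝ, ∀ A : ℝ, Continuous F → (∀ y, |F y| ≤ A * (1 + ∑ j, ‖y j‖ ^ (2 * k))) →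
      Integrable (fun z => F (fun j => Complex.exp (z j))) (ρ : Measure (Fin n → ℂ)))
    (h : ∀ F : (Fin n → ℂ) → ℝ, ∀ A : ℝ, Continuous F → (∀ y, |F y| ≤ A * (1 + ∑ j, ‖y j‖ ^ (2 * k))) →
      Tendsto (fun T : ℝ => (2 * δ T) ^ (k ^ 2) / T * ∫ t in D T, za (δ T) 0 t ^ (2 * k) * F (rt (δ T) a t)) atTop
        (𝓝 (aF k * ∫ z, F (fun j => Complex.exp (z j)) ∂(ρ : Measure (Fin n → ℂ)))))
    {Φ : (Fin n → ℂ) → ℂ} (hc : Continuous Φ)
    (hΦ : ∀ (u : ℂ) (z : Fin n → ℂ), Φ (u • z) = ((‖u‖ ^ (2 * k) : ℝ) : ℂ) * Φ z) :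
    Tendsto (fun T : ℝ => (((2 * δ T) ^ (k ^ 2) / T : ℝ) : ℂ) *
      ∫ t in D T, Φ (fun j => riemannZeta (1 / 2 + δ T + ((t + a j * δ T : ℝ) : ℂ) * Complex.I))) atTop
      (𝓝 ((aF k : ℂ) * ∫ z, Φ (fun j => Complex.exp (z j)) ∂(ρ : Measure (Fin n → ℂ)))) := by
  obtain ⟨A, hA0, hA⟩ := hom_bound hk hc hΦ
  have hlt : ∀ᶠ T in atTop, δ T < 1 / 2 := hδ.eventually (gt_mem_nhds (by norm_num))
  have hre : Continuous fun y => (Φ y).re := Complex.continuous_re.comp hc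
  have him : Continuous fun y => (Φ y).im := Complex.continuous_im.comp hc
  have bre : ∀ y, |(Φ y).re| ≤ A * (1 + ∑ j, ‖y j‖ ^ (2 * k)) := fun y => (Complex.abs_re_le_norm _).trans (hA y)
  have bim : ∀ y, |(Φ y).im| ≤ A * (1 + ∑ j, ‖y j‖ ^ (2 * k)) := fun y => (Complex.abs_im_le_norm _).trans (hA y)
  have h1 := h _ A hre bre
  have h2 := h _ A him bim
  have h3 := ((Complex.continuous_ofReal.tendsto _).comp h1).add (((Complex.continuous_ofReal.tendsto _).comp h2).const_mul Complex.I)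
  have hint : Integrable (fun z => Φ (fun j => Complex.exp (z j))) (ρ : Measure (Fin n → ℂ)) := by
    have g1 := (hi _ A hre bre).ofReal (𝕜 := ℂ)
    have g2 := ((hi _ A him bim).ofReal (𝕜 := ℂ)).const_mul Complex.I
    refine (g1.add g2).congr (Eventually.of_forall fun z => ?_)
    show ((Φ fun j => Complex.exp (z j)).re : ℂ) + Complex.I * ((Φ fun j => Complex.exp (z j)).im : ℂ) = _
    rw [mul_comm Complex.I]
    exact Complex.re_add_im _
  have hval : (aF k : ℂ) * ∫ z, Φ (fun j => Complex.exp (z j)) ∂(ρ : Measure (Fin n → ℂ)) =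
      ((aF k * ∫ z, (Φ (fun j => Complex.exp (z j))).re ∂(ρ : Measure (Fin n → ℂ)) : ℝ) : ℂ) +
        Complex.I * ((aF k * ∫ z, (Φ (fun j => Complex.exp (z j))).im ∂(ρ : Measure (Fin n → ℂ)) : ℝ) : ℂ) := by
    rw [← integral_re_add_im hint]
    simp only [Complex.coe_algebraMap, RCLike.re_to_complex, RCLike.im_to_complex, RCLike.I_to_complex]
    push_cast
    ring
  rw [hval]
  refine h3.congr' ?_
  filter_upwards [hlt] with T hT
  have hcz : Continuous fun t : ℝ => riemannZeta (1 / 2 + δ T + t * Complex.I) := zl_cont hT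
  have hcv : Continuous fun t : ℝ => Φ (fun j => riemannZeta (1 / 2 + δ T + ((t + a j * δ T : ℝ) : ℂ) * Complex.I)) :=
    hc.comp (continuous_pi fun j => hcz.comp (continuous_id.add continuous_const))
  have hiv : IntegrableOn (fun t : ℝ => Φ (fun j => riemannZeta (1 / 2 + δ T + ((t + a j * δ T : ℝ) : ℂ) * Complex.I))) (D T) :=
    (hcv.continuousOn.integrableOn_compact isCompact_Icc).mono_set (hD T)
  have hpt : ∀ᵐ t : ℝ, Φ (fun j => riemannZeta (1 / 2 + δ T + ((t + a j * δ T : ℝ) : ℂ) * Complex.I)) =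
      ((za (δ T) 0 t ^ (2 * k) : ℝ) : ℂ) * Φ (rt (δ T) a t) := by
    filter_upwards [zeros_ae (δ T) 0] with t ht
    rw [add_zero] at ht
    have e1 : za (δ T) 0 t = ‖riemannZeta (1 / 2 + δ T + (t : ℂ) * Complex.I)‖ := by
      unfold za
      rw [zero_mul, add_zero]
    rw [e1, ← hΦ]
    congr 1
    funext j
    unfold rt
    rw [Pi.smul_apply, smul_eq_mul, mul_div_cancel₀ _ ht]
  have e2 : ∫ t in D T, za (δ T) 0 t ^ (2 * k) * (Φ (rt (δ T) a t)).re =
      ∫ t in D T, (Φ (fun j => riemannZeta (1 / 2 + δ T + ((t + a j * δ T : ℝ) : ℂ) * Complex.I))).re := by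
    refine integral_congr_ae (ae_restrict_of_ae ?_)
    filter_upwards [hpt] with t ht
    rw [ht, Complex.re_ofReal_mul]
  have e3 : ∫ t in D T, za (δ T) 0 t ^ (2 * k) * (Φ (rt (δ T) a t)).im =
      ∫ t in D T, (Φ (fun j => riemannZeta (1 / 2 + δ T + ((t + a j * δ T : ℝ) : ℂ) * Complex.I))).im := by
    refine integral_congr_ae (ae_restrict_of_ae ?_)
    filter_upwards [hpt] with t ht
    rw [ht, Complex.im_ofReal_mul]
  simp only [Function.comp]
  rw [e2, e3, ← integral_re_add_im hiv]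
  simp only [Complex.coe_algebraMap, RCLike.re_to_complex, RCLike.im_to_complex, RCLike.I_to_complex]
  push_cast
  ring

/-- growing functions are integrable -/
lemma grow_int {k : ℝ} (hk : 0 < k) {ρ : ProbabilityMeasure (Fin n → ℂ)}
    (hρ : ∀ s : ℝ, Integrable (fun z => Real.exp (s * ‖z‖)) (ρ : Measure (Fin n → ℂ)))
    {F : (Fin n → ℂ) → ℝ} {A : ℝ} (hFc : Continuous F) (hFA : ∀ y, |F y| ≤ A * (1 + ∑ j, ‖y j‖ ^ (2 * k))) :
    Integrable (fun z => F (fun j => Complex.exp (z j))) (ρ : Measure (Fin n → ℂ)) := by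
  have h1 : Integrable (fun z : Fin n → ℂ => |A| * (1 + ∑ _j : Fin n, Real.exp (2 * k * ‖z‖))) (ρ : Measure (Fin n → ℂ)) :=
    ((integrable_const _).add (integrable_finsetSum _ fun j _ => hρ (2 * k))).const_mul _
  refine h1.mono' (hFc.comp (by fun_prop : Continuous fun z : Fin n → ℂ => (fun j => Complex.exp (z j) : Fin n → ℂ))).aestronglyMeasurable
    (Eventually.of_forall fun z => ?_)
  rw [Real.norm_eq_abs]
  have h2 : 0 ≤ ∑ j, ‖Complex.exp (z j)‖ ^ (2 * k) := sum_nonneg fun j _ => by positivity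
  refine (hFA _).trans ((mul_le_mul_of_nonneg_right (le_abs_self A) (by linarith)).trans ?_)
  refine mul_le_mul_of_nonneg_left ?_ (abs_nonneg A)
  refine add_le_add le_rfl (sum_le_sum fun j _ => ?_)
  rw [norm_exp_rpow]
  refine Real.exp_le_exp.mpr (mul_le_mul_of_nonneg_left ?_ (by positivity))
  exact (Complex.re_le_norm _).trans (norm_le_pi_norm z j)

end Pool.Agent.R313.CX
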