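import Pool.Agent.R313.CX.G
import Pool.Agent.R313.FN.E

set_option autoImplicit false

/-! The joint law of zeta and its derivative under the moment measures of order at most four. -/

namespace Pool.Agent.R313.CX

open Finset Filter MeasureTheory Topology ProbabilityTheory
open Pool.Agent.Y753.SHR
open Pool.Agent.Y753.SHL (za_ae)
open Pool.Agent.H306R2 (aF aF_pos)
open Pool.Agent.Y753.NL (zl_cont)
open Pool.Agent.R313.FN (rc rc_compact sup_le_area gz UU UU_open gz_ne gz_diff rc_UU Ia Ia_nonneg Ia_fub Ia_mass)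

/-- control of the second order -/
theorem quad {β : ℝ} (hβ : 0 < β) : ∃ κ : ℝ, 0 < κ ∧ ∀ (g : ℂ → ℂ) (U : Set ℂ), IsOpen U →
    rc (1 / 2) (3 / 2) 1 ⊆ U → DifferentiableOn ℂ g U →
    ‖g 1‖ ≤ κ * (∫ w in rc (1 / 2) (3 / 2) 1, ‖g w‖ ^ β) ^ (1 / β) ∧
    ‖deriv g 1‖ ≤ κ * (∫ w in rc (1 / 2) (3 / 2) 1, ‖g w‖ ^ β) ^ (1 / β) ∧
    ∀ a : ℝ, |a| ≤ 1 / 16 → ‖g (1 + a * Complex.I) - g 1 - a * Complex.I * deriv g 1‖ ≤
      κ * (∫ w in rc (1 / 2) (3 / 2) 1, ‖g w‖ ^ β) ^ (1 / β) * a ^ 2 := by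
  obtain ⟨C, hC, h⟩ := sup_le_area hβ (a := 3 / 4) (b := 5 / 4) (a' := 1 / 2) (b' := 3 / 2) (B := 1 / 2) (B' := 1)
    (by norm_num) (by norm_num) (by norm_num)
  refine ⟨128 * C ^ (1 / β), by positivity, fun g U hU hsub hg => ?_⟩
  obtain ⟨I, hI⟩ : ∃ I, I = ∫ w in rc (1 / 2) (3 / 2) 1, ‖g w‖ ^ β := ⟨_, rfl⟩
  have hI0 : 0 ≤ I := by rw [hI]; exact integral_nonneg fun w => by positivity
  rw [← hI]
  obtain ⟨M, hM⟩ : ∃ M, M = C ^ (1 / β) * I ^ (1 / β) := ⟨_, rfl⟩
  have hM0 : 0 ≤ M := by rw [hM]; positivity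
  have e0 : 128 * C ^ (1 / β) * I ^ (1 / β) = 128 * M := by rw [hM]; ring
  rw [e0]
  have h1 : ∀ s ∈ rc (3 / 4) (5 / 4) (1 / 2), ‖g s‖ ≤ M := by
    intro s hs
    have h2 := h g U hU hsub hg s hs
    rw [← hI] at h2
    have h3 : ‖g s‖ = (‖g s‖ ^ β) ^ (1 / β) := by
      rw [← Real.rpow_mul (norm_nonneg _), mul_one_div_cancel hβ.ne', Real.rpow_one]
    rw [h3, hM, ← Real.mul_rpow hC.le hI0]
    exact Real.rpow_le_rpow (by positivity) h2 (by positivity)
  have hball : ∀ s : ℂ, ‖s - 1‖ ≤ 1 / 4 → s ∈ rc (3 / 4) (5 / 4) (1 / 2) := by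
    intro s hs
    have e1 := (Complex.abs_re_le_norm (s - 1)).trans hs
    have e2 := (Complex.abs_im_le_norm (s - 1)).trans hs
    rw [Complex.sub_re, Complex.one_re, abs_le] at e1
    rw [Complex.sub_im, Complex.one_im, sub_zero] at e2
    exact ⟨by linarith [e1.1], by linarith [e1.2], by linarith⟩
  have hsub2 : rc (3 / 4) (5 / 4) (1 / 2) ⊆ rc (1 / 2) (3 / 2) 1 := by
    rintro z ⟨z1, z2, z3⟩
    exact ⟨by linarith, by linarith, by linarith⟩
  have hin : ∀ s : ℂ, ‖s - 1‖ ≤ 1 / 4 → s ∈ U := fun s hs => hsub (hsub2 (hball s hs))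
  have hd1 : ∀ s : ℂ, ‖s - 1‖ ≤ 1 / 8 → ‖deriv g s‖ ≤ 8 * M := by
    intro s hs
    have hd : DiffContOnCl ℂ g (Metric.ball s (1 / 8)) := by
      refine DifferentiableOn.diffContOnCl_ball (U := U) hg ?_
      intro z hz
      rw [Metric.mem_closedBall, dist_eq_norm] at hz
      refine hin z ?_
      have := norm_add_le (z - s) (s - 1)
      rw [sub_add_sub_cancel] at this
      linarith
    have h4 := Complex.norm_deriv_le_of_forall_mem_sphere_norm_le (C := M) (show (0:ℝ) < 1 / 8 by norm_num) hd (fun z hz => by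
      rw [mem_sphere_iff_norm] at hz
      refine h1 z (hball z ?_)
      have := norm_add_le (z - s) (s - 1)
      rw [sub_add_sub_cancel] at this
      linarith)
    refine h4.trans (le_of_eq ?_)
    ring
  have hg2 : DifferentiableOn ℂ (deriv g) U := hg.deriv hU
  have hd2 : ∀ s : ℂ, ‖s - 1‖ ≤ 1 / 16 → ‖deriv (deriv g) s‖ ≤ 128 * M := by
    intro s hs
    have hd : DiffContOnCl ℂ (deriv g) (Metric.ball s (1 / 16)) := by
      refine DifferentiableOn.diffContOnCl_ball (U := U) hg2 ?_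
      intro z hz
      rw [Metric.mem_closedBall, dist_eq_norm] at hz
      refine hin z ?_
      have := norm_add_le (z - s) (s - 1)
      rw [sub_add_sub_cancel] at this
      linarith
    have h4 := Complex.norm_deriv_le_of_forall_mem_sphere_norm_le (C := 8 * M) (show (0:ℝ) < 1 / 16 by norm_num) hd (fun z hz => by
      rw [mem_sphere_iff_norm] at hz
      refine hd1 z ?_
      have := norm_add_le (z - s) (s - 1)
      rw [sub_add_sub_cancel] at this
      linarith)
    refine h4.trans (le_of_eq ?_)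
    ring
  have h10 : ‖(1:ℂ) - 1‖ ≤ 1 / 16 := by simp
  refine ⟨?_, ?_, fun a ha => ?_⟩
  · have := h1 1 (hball 1 (by simp))
    linarith
  · have := hd1 1 (by simp)
    linarith
  · have hmem : ∀ s ∈ Metric.closedBall (1:ℂ) |a|, ‖s - 1‖ ≤ 1 / 16 := by
      intro s hs
      rw [Metric.mem_closedBall, dist_eq_norm] at hs
      linarith
    have hder : ∀ s ∈ Metric.closedBall (1:ℂ) |a|, ‖deriv g s - deriv g 1‖ ≤ 128 * M * |a| := by
      intro s hs
      have h5 := (convex_closedBall (1:ℂ) |a|).norm_image_sub_le_of_norm_deriv_le (f := deriv g) (C := 128 * M)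
        (fun z hz => (hg2 z (hin z (by have := hmem z hz; linarith))).differentiableAt (hU.mem_nhds (hin z (by have := hmem z hz; linarith))))
        (fun z hz => hd2 z (hmem z hz)) (Metric.mem_closedBall_self (abs_nonneg a)) hs
      refine h5.trans (mul_le_mul_of_nonneg_left ?_ (by positivity))
      rwa [Metric.mem_closedBall, dist_eq_norm] at hs
    have hdg : ∀ z ∈ Metric.closedBall (1:ℂ) |a|, DifferentiableAt ℂ g z := fun z hz =>
      (hg z (hin z (by have := hmem z hz; linarith))).differentiableAt (hU.mem_nhds (hin z (by have := hmem z hz; linarith)))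
    have h6 := (convex_closedBall (1:ℂ) |a|).norm_image_sub_le_of_norm_deriv_le (f := fun z => g z - z * deriv g 1) (C := 128 * M * |a|)
      (fun z hz => (hdg z hz).sub (differentiableAt_id.mul_const _)) (fun z hz => by
        have e1 : deriv (fun z => g z - z * deriv g 1) z = deriv g z - deriv g 1 := by
          have h7 := ((hdg z hz).hasDerivAt).sub ((hasDerivAt_id z).mul_const (deriv g 1))
          rw [one_mul] at h7
          exact h7.deriv
        rw [e1]
        exact hder z hz) (Metric.mem_closedBall_self (abs_nonneg a)) (show (1:ℂ) + a * Complex.I ∈ Metric.closedBall (1:ℂ) |a| by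
        rw [Metric.mem_closedBall, dist_eq_norm, add_sub_cancel_left, norm_mul, Complex.norm_I, mul_one, Complex.norm_real, Real.norm_eq_abs])
    have e2 : g (1 + a * Complex.I) - g 1 - a * Complex.I * deriv g 1 =
      (g (1 + a * Complex.I) - (1 + a * Complex.I) * deriv g 1) - (g 1 - 1 * deriv g 1) := by ring
    rw [e2]
    refine h6.trans (le_of_eq ?_)
    rw [add_sub_cancel_left, norm_mul, Complex.norm_I, mul_one, Complex.norm_real, Real.norm_eq_abs, mul_assoc, ← sq, sq_abs]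

/-- homogeneous functions: modulus of continuity -/
lemma hom_mod {E : Type*} [NormedAddCommGroup E] [NormedSpace ℂ E] [ProperSpace E] {k : ℝ} {Φ : E → ℂ} (hc : Continuous Φ)
    (hΦ : ∀ (u : ℂ) (z : E), Φ (u • z) = ((‖u‖ ^ (2 * k) : ℝ) : ℂ) * Φ z) (R : ℝ) {η : ℝ} (hη : 0 < η) :
    ∃ r : ℝ, 0 < r ∧ ∀ (K : ℝ) (z z' : E), 0 ≤ K → ‖z‖ ≤ R * K → ‖z'‖ ≤ R * K → ‖z - z'‖ ≤ r * K →
      ‖Φ z - Φ z'‖ ≤ η * K ^ (2 * k) := by
  have hu := (isCompact_closedBall (0 : E) R).uniformContinuousOn_of_continuous hc.continuousOn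
  obtain ⟨r, hr, h⟩ := Metric.uniformContinuousOn_iff.mp hu η hη
  refine ⟨r / 2, by positivity, fun K z z' hK hz hz' hzz => ?_⟩
  rcases eq_or_lt_of_le hK with h0 | h0
  · rw [← h0] at hz hz'
    rw [mul_zero] at hz hz'
    have e1 : z = 0 := norm_le_zero_iff.mp hz
    have e2 : z' = 0 := norm_le_zero_iff.mp hz'
    rw [e1, e2, sub_self, norm_zero, ← h0]
    positivity
  · have hsc : ∀ z : E, Φ z = ((K ^ (2 * k) : ℝ) : ℂ) * Φ (((K⁻¹ : ℝ) : ℂ) • z) := by
      intro z
      have h1 := hΦ ((K : ℝ) : ℂ) (((K⁻¹ : ℝ) : ℂ) • z)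
      rw [smul_smul, ← Complex.ofReal_mul, mul_inv_cancel₀ h0.ne', Complex.ofReal_one, one_smul, Complex.norm_real,
        Real.norm_of_nonneg hK] at h1
      exact h1
    have hb : ∀ z : E, ‖z‖ ≤ R * K → ((K⁻¹ : ℝ) : ℂ) • z ∈ Metric.closedBall (0 : E) R := by
      intro z hz
      rw [mem_closedBall_zero_iff, norm_smul, Complex.norm_real, Real.norm_of_nonneg (by positivity), inv_mul_le_iff₀ h0]
      linarith
    have h2 := h _ (hb z hz) _ (hb z' hz') (by
      rw [dist_eq_norm, ← smul_sub, norm_smul, Complex.norm_real, Real.norm_of_nonneg (by positivity), inv_mul_lt_iff₀ h0]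
      nlinarith)
    rw [dist_eq_norm] at h2
    rw [hsc z, hsc z', ← mul_sub, norm_mul, Complex.norm_real, Real.norm_of_nonneg (by positivity), mul_comm]
    exact mul_le_mul_of_nonneg_right h2.le (by positivity)

end Pool.Agent.R313.CX
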