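import Pool.Agent.R313.CX.H

set_option autoImplicit false

/-! The joint law of zeta and its derivative under the moment measures of order at most four. -/

namespace Pool.Agent.R313.CX

open Finset Filter MeasureTheory Topology ProbabilityTheory
open Pool.Agent.Y753.SHR
open Pool.Agent.Y753.SHL (za_ae)
open Pool.Agent.H306R2 (aF aF_pos)
open Pool.Agent.Y753.NL (zl_cont)
open Pool.Agent.R313.FN (rc rc_compact sup_le_area gz UU UU_open gz_ne gz_diff rc_UU Ia Ia_nonneg Ia_fub Ia_mass)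

/-- the law of two independent standard normal variables -/
noncomputable def g2 : Measure (ℝ × ℝ) := (gaussianReal 0 1).prod (gaussianReal 0 1)

instance g2_prob : IsProbabilityMeasure g2 := by unfold g2; infer_instance

/-- the variance -/
noncomputable def vr (a : ℝ) : ℝ := Real.log (1 + (a / 2) ^ 2)

lemma vr_nonneg (a : ℝ) : 0 ≤ vr a := Real.log_nonneg (by nlinarith [sq_nonneg (a / 2)])

lemma le1_add (a : ℝ) : le1 a + le1 (-a) = (vr a : ℂ) := by
  have h1 : le1 (-a) = (starRingEnd ℂ) (le1 a) := by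
    unfold le1
    rw [conj_log_base, base_neg]
  rw [h1, Complex.add_conj]
  unfold le1 vr
  rw [Complex.log_re]
  have h2 : ‖1 + Complex.I * (a : ℂ) / 2‖ ^ 2 = 1 + (a / 2) ^ 2 := by
    rw [← Complex.normSq_eq_norm_sq, Complex.normSq_apply]
    simp
    ring
  rw [← h2, Real.log_pow]
  push_cast
  ring

/-- the pair of logarithms -/
noncomputable def pr (k a : ℝ) (x : ℝ × ℝ) : Fin 2 → ℂ := ![0, mu k a + Complex.I * ((Real.sqrt (vr a) : ℝ) : ℂ) * gs x]

lemma pr_cont (k a : ℝ) : Continuous (pr k a) := by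
  refine continuous_pi fun j => ?_
  unfold pr
  refine Fin.cases ?_ (fun i => ?_) j
  · exact continuous_const
  · have hi : i = 0 := Subsingleton.elim _ _
    subst hi
    show Continuous fun x => mu k a + Complex.I * ((Real.sqrt (vr a) : ℝ) : ℂ) * gs x
    exact continuous_const.add (gs_cont.const_mul _)

lemma g2_abs (c : ℝ) : Integrable (fun x : ℝ × ℝ => Real.exp (c * (|x.1| + |x.2|))) g2 := by
  have h := (gau_abs c).mul_prod (gau_abs c)
  refine h.congr (Eventually.of_forall fun x => ?_)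
  show Real.exp (c * |x.1|) * Real.exp (c * |x.2|) = Real.exp (c * (|x.1| + |x.2|))
  rw [← Real.exp_add, mul_add]

/-- the law of the pair -/
noncomputable def prl (k a : ℝ) : ProbabilityMeasure (Fin 2 → ℂ) :=
  ⟨g2.map (pr k a), Measure.isProbabilityMeasure_map (pr_cont k a).measurable.aemeasurable⟩

lemma prl_int (k a : ℝ) {V : Type*} [NormedAddCommGroup V] [NormedSpace ℝ V] [SecondCountableTopology V] {f : (Fin 2 → ℂ) → V} (hf : Continuous f) :
    ∫ z, f z ∂(prl k a : Measure (Fin 2 → ℂ)) = ∫ x, f (pr k a x) ∂g2 := by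
  show ∫ z, f z ∂(g2.map (pr k a)) = _
  rw [integral_map (pr_cont k a).measurable.aemeasurable hf.aestronglyMeasurable]

lemma pr_norm (k a : ℝ) (x : ℝ × ℝ) : ‖pr k a x‖ ≤ ‖mu k a‖ + Real.sqrt (vr a) * (|x.1| + |x.2|) := by
  have h0 : 0 ≤ ‖mu k a‖ + Real.sqrt (vr a) * (|x.1| + |x.2|) := by positivity
  refine (pi_norm_le_iff_of_nonneg h0).mpr fun j => ?_
  unfold pr
  refine Fin.cases ?_ (fun i => ?_) j
  · show ‖(0:ℂ)‖ ≤ _
    rw [norm_zero]; exact h0
  · have hi : i = 0 := Subsingleton.elim _ _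
    subst hi
    show ‖mu k a + Complex.I * ((Real.sqrt (vr a) : ℝ) : ℂ) * gs x‖ ≤ _
    refine (norm_add_le _ _).trans (add_le_add le_rfl ?_)
    rw [norm_mul, norm_mul, Complex.norm_I, one_mul, Complex.norm_real, Real.norm_of_nonneg (Real.sqrt_nonneg _)]
    exact mul_le_mul_of_nonneg_left (gs_norm x) (Real.sqrt_nonneg _)

lemma prl_exp (k a : ℝ) (s : ℝ) : Integrable (fun z => Real.exp (s * ‖z‖)) (prl k a : Measure (Fin 2 → ℂ)) := by
  show Integrable (fun z => Real.exp (s * ‖z‖)) (g2.map (pr k a))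
  rw [integrable_map_measure (by fun_prop) (pr_cont k a).measurable.aemeasurable]
  refine ((g2_abs (|s| * Real.sqrt (vr a))).const_mul (Real.exp (|s| * ‖mu k a‖))).mono'
    ((by fun_prop : Continuous fun z : Fin 2 → ℂ => Real.exp (s * ‖z‖)).comp (pr_cont k a)).aestronglyMeasurable (Eventually.of_forall fun x => ?_)
  show ‖Real.exp (s * ‖pr k a x‖)‖ ≤ _
  rw [Real.norm_of_nonneg (Real.exp_pos _).le, ← Real.exp_add]
  refine Real.exp_le_exp.mpr ?_
  have h2 : s * ‖pr k a x‖ ≤ |s| * ‖pr k a x‖ := mul_le_mul_of_nonneg_right (le_abs_self s) (norm_nonneg _)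
  have h3 := mul_le_mul_of_nonneg_left (pr_norm k a x) (abs_nonneg s)
  linarith

lemma prl_law (k a : ℝ) (α β : Fin 2 → ℂ) :
    ∫ z, Complex.exp (∑ j, (α j * z j + β j * (starRingEnd ℂ) (z j))) ∂(prl k a : Measure (Fin 2 → ℂ)) =
      Complex.exp (∑ j, (α j * mu k ((![0, a] : Fin 2 → ℝ) j) + β j * (starRingEnd ℂ) (mu k ((![0, a] : Fin 2 → ℝ) j))) +
        ∑ i, ∑ j, α i * β j * Cv ((![0, a] : Fin 2 → ℝ) i) ((![0, a] : Fin 2 → ℝ) j)) := by
  have hcf : Continuous fun z : Fin 2 → ℂ => Complex.exp (∑ j, (α j * z j + β j * (starRingEnd ℂ) (z j))) := by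
    refine Complex.continuous_exp.comp (continuous_finsetSum _ fun j _ => ?_)
    exact ((continuous_apply j).const_mul _).add ((Complex.continuous_conj.comp (continuous_apply j)).const_mul _)
  rw [prl_int k a hcf]
  have e1 : ∀ x, Complex.exp (∑ j, (α j * pr k a x j + β j * (starRingEnd ℂ) (pr k a x j))) =
      Complex.exp (α 1 * mu k a + β 1 * (starRingEnd ℂ) (mu k a)) *
        Complex.exp ((α 1 * Complex.I * ((Real.sqrt (vr a) : ℝ) : ℂ)) * gs x + (-(β 1 * Complex.I * ((Real.sqrt (vr a) : ℝ) : ℂ))) * (starRingEnd ℂ) (gs x)) := by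
    intro x
    rw [← Complex.exp_add, Fin.sum_univ_two]
    congr 1
    simp only [pr, Matrix.cons_val_zero, Matrix.cons_val_one, map_zero, mul_zero, add_zero, zero_add, map_add, map_mul,
      Complex.conj_I, Complex.conj_ofReal]
    ring
  simp_rw [e1]
  unfold g2
  rw [integral_const_mul, gs_exp, ← Complex.exp_add]
  congr 1
  simp only [Fin.sum_univ_two, Matrix.cons_val_zero, Matrix.cons_val_one]
  have hm0 : mu k 0 = 0 := by rw [mu_eq, le1_zero]; ring
  have hc00 : Cv 0 0 = 0 := by rw [Cv_eq]; simp [le1_zero]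
  have hc01 : Cv 0 a = 0 := by rw [Cv_eq]; simp [le1_zero]
  have hc10 : Cv a 0 = 0 := by rw [Cv_eq]; simp [le1_zero]
  have hc11 : Cv a a = (vr a : ℂ) := by rw [Cv_eq, sub_self, le1_zero, sub_zero, le1_add]
  rw [hm0, hc00, hc01, hc10, hc11, map_zero]
  have hs : ((Real.sqrt (vr a) : ℝ) : ℂ) * ((Real.sqrt (vr a) : ℝ) : ℂ) = (vr a : ℂ) := by
    rw [← Complex.ofReal_mul, Real.mul_self_sqrt (vr_nonneg a)]
  have hI : Complex.I * Complex.I = -1 := Complex.I_mul_I
  have e2 : α 1 * Complex.I * ((Real.sqrt (vr a) : ℝ) : ℂ) * -(β 1 * Complex.I * ((Real.sqrt (vr a) : ℝ) : ℂ)) = α 1 * β 1 * (vr a : ℂ) := by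
    rw [← hs]
    linear_combination (-(α 1 * β 1 * ((Real.sqrt (vr a) : ℝ) : ℂ) * ((Real.sqrt (vr a) : ℝ) : ℂ))) * hI
  rw [e2]
  ring

end Pool.Agent.R313.CX
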