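import Mathlib

set_option autoImplicit false

/-! Interpolation of holomorphic functions at nodes near the centre of a disc, with a bound on the remainder. -/

namespace Pool.Agent.R313.CX

open Finset Filter Topology

/-- divided differences -/
noncomputable def dd (x : ℕ → ℂ) : ℕ → (ℕ → ℂ) → ℕ → ℂ
  | 0, y, i => y i
  | j + 1, y, i => (dd x j y i - dd x j y j) / (x i - x j)

lemma dd_cont (x : ℕ → ℂ) (j : ℕ) : ∀ i, Continuous fun y : ℕ → ℂ => dd x j y i := by
  induction j with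
  | zero => intro i; exact continuous_apply i
  | succ j ih =>
    intro i
    show Continuous fun y : ℕ → ℂ => (dd x j y i - dd x j y j) / (x i - x j)
    exact ((ih i).sub (ih j)).div_const _

lemma dd_smul (x : ℕ → ℂ) (u : ℂ) (y : ℕ → ℂ) (j : ℕ) : ∀ i, dd x j (fun l => u * y l) i = u * dd x j y i := by
  induction j with
  | zero => intro i; rfl
  | succ j ih =>
    intro i
    show (dd x j (fun l => u * y l) i - dd x j (fun l => u * y l) j) / (x i - x j) = u * ((dd x j y i - dd x j y j) / (x i - x j))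
    rw [ih, ih]
    ring

lemma dd_congr (x : ℕ → ℂ) {y y' : ℕ → ℂ} {n : ℕ} (h : ∀ l < n, y l = y' l) (j : ℕ) : ∀ i < n, j ≤ i → dd x j y i = dd x j y' i := by
  induction j with
  | zero => intro i hi _; exact h i hi
  | succ j ih =>
    intro i hi hj
    show (dd x j y i - dd x j y j) / (x i - x j) = (dd x j y' i - dd x j y' j) / (x i - x j)
    rw [ih i hi (by omega), ih j (by omega) le_rfl]

/-- the Cauchy integrals -/
noncomputable def Ci (c : ℂ) (f : ℂ → ℂ) (R : ℝ) (x : ℕ → ℂ) (j : ℕ) (w : ℂ) : ℂ :=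
  (2 * Real.pi * Complex.I : ℂ)⁻¹ • ∮ z in C(c, R), f z / ((z - w) * ∏ l ∈ range j, (z - x l))

variable {c : ℂ} {f : ℂ → ℂ} {R h : ℝ} {x : ℕ → ℂ}

lemma sph_ne {R : ℝ} {z w : ℂ} (hz : z ∈ Metric.sphere c R) (hw : ‖w - c‖ < R) : z - w ≠ 0 := by
  intro h0
  rw [sub_eq_zero] at h0
  rw [mem_sphere_iff_norm, h0] at hz
  linarith

lemma Ci_cont (hR : 0 < R) (hh : h < R) (hx : ∀ l, ‖x l - c‖ ≤ h) (hf : ContinuousOn f (Metric.sphere c R)) (j : ℕ) {w : ℂ} (hw : ‖w - c‖ < R) :
    CircleIntegrable (fun z => f z / ((z - w) * ∏ l ∈ range j, (z - x l))) c R := by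
  refine ContinuousOn.circleIntegrable hR.le ?_
  refine hf.div (by fun_prop) fun z hz => ?_
  refine mul_ne_zero (sph_ne hz hw) (prod_ne_zero_iff.mpr fun l _ => sph_ne hz ((hx l).trans_lt hh))

lemma Ci_succ (hR : 0 < R) (hh : h < R) (hx : ∀ l, ‖x l - c‖ ≤ h) (hf : ContinuousOn f (Metric.sphere c R)) (j : ℕ) {w : ℂ} (hw : ‖w - c‖ < R) :
    Ci c f R x j w = Ci c f R x j (x j) + (w - x j) * Ci c f R x (j + 1) w := by
  suffices h : (∮ z in C(c, R), (f z / ((z - w) * ∏ l ∈ range j, (z - x l)) - f z / ((z - x j) * ∏ l ∈ range j, (z - x l)))) =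
      (w - x j) * ∮ z in C(c, R), f z / ((z - w) * ∏ l ∈ range (j + 1), (z - x l)) by
    unfold Ci
    rw [← sub_eq_iff_eq_add', ← smul_sub, ← circleIntegral.integral_sub (Ci_cont hR hh hx hf j hw) (Ci_cont hR hh hx hf j ((hx j).trans_lt hh)), h,
      smul_eq_mul, smul_eq_mul]
    ring
  rw [← smul_eq_mul (w - x j), ← circleIntegral.integral_smul]
  refine circleIntegral.integral_congr hR.le fun z hz => ?_
  have h1 := sph_ne hz hw
  have h2 := sph_ne hz ((hx j).trans_lt hh)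
  have h3 : ∏ l ∈ range j, (z - x l) ≠ 0 := prod_ne_zero_iff.mpr fun l _ => sph_ne hz ((hx l).trans_lt hh)
  simp only [smul_eq_mul]
  rw [prod_range_succ]
  field_simp
  ring

lemma Ci_zero (hf : DiffContOnCl ℂ f (Metric.ball c R)) {w : ℂ} (hw : ‖w - c‖ < R) : Ci c f R x 0 w = f w := by
  unfold Ci
  have h1 : ((2 * Real.pi * Complex.I : ℂ)⁻¹ • ∮ z in C(c, R), (z - w)⁻¹ • f z) = f w := hf.two_pi_i_inv_smul_circleIntegral_sub_inv_smul (w := w) (by rw [Metric.mem_ball, dist_eq_norm]; exact hw)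
  rw [← h1]
  congr 1
  refine congrArg (fun g : ℂ → ℂ => ∮ z in C(c, R), g z) (funext fun z => ?_)
  rw [range_zero, prod_empty, mul_one, smul_eq_mul, div_eq_inv_mul]

lemma Ci_node (hR : 0 < R) (hh : h < R) (hx : ∀ l, ‖x l - c‖ ≤ h) (hinj : Function.Injective x) (hf : DiffContOnCl ℂ f (Metric.ball c R))
    (hfc : ContinuousOn f (Metric.sphere c R)) (j : ℕ) : ∀ i, j ≤ i → Ci c f R x j (x i) = dd x j (fun l => f (x l)) i := by
  induction j with
  | zero => intro i _; exact Ci_zero hf ((hx i).trans_lt hh)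
  | succ j ih =>
    intro i hi
    have h1 := Ci_succ hR hh hx hfc j ((hx i).trans_lt hh)
    have h2 : x i - x j ≠ 0 := sub_ne_zero.mpr fun h0 => by
      have := hinj h0
      omega
    show _ = (dd x j (fun l => f (x l)) i - dd x j (fun l => f (x l)) j) / (x i - x j)
    rw [← ih i (by omega), ← ih j le_rfl, h1, add_sub_cancel_left, mul_div_cancel_left₀ _ h2]

/-- the formula of Newton -/
lemma newton (hR : 0 < R) (hh : h < R) (hx : ∀ l, ‖x l - c‖ ≤ h) (hinj : Function.Injective x) (hf : DiffContOnCl ℂ f (Metric.ball c R))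
    (hfc : ContinuousOn f (Metric.sphere c R)) {w : ℂ} (hw : ‖w - c‖ < R) (n : ℕ) :
    f w = ∑ i ∈ range n, dd x i (fun l => f (x l)) i * ∏ l ∈ range i, (w - x l) + Ci c f R x n w * ∏ l ∈ range n, (w - x l) := by
  induction n with
  | zero => simp [Ci_zero hf hw]
  | succ n ih =>
    rw [ih, sum_range_succ, prod_range_succ, Ci_succ hR hh hx hfc n hw, Ci_node hR hh hx hinj hf hfc n n le_rfl]
    ring

lemma Ci_bound (hR : 0 < R) (hh : h < R) (hx : ∀ l, ‖x l - c‖ ≤ h) {r : ℝ} (hr : r < R) {M : ℝ}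
    (hM : ∀ z ∈ Metric.sphere c R, ‖f z‖ ≤ M) (hM0 : 0 ≤ M) {w : ℂ} (hw : ‖w - c‖ ≤ r) (n : ℕ) :
    ‖Ci c f R x n w‖ ≤ R * (M / ((R - r) * (R - h) ^ n)) := by
  unfold Ci
  refine circleIntegral.norm_two_pi_i_inv_smul_integral_le_of_norm_le_const hR.le fun z hz => ?_
  have hz' := hz
  rw [mem_sphere_iff_norm] at hz'
  rw [norm_div, norm_mul, norm_prod]
  have h1 : R - r ≤ ‖z - w‖ := by
    have h2 := norm_sub_norm_le (z - c) (w - c)
    rw [sub_sub_sub_cancel_right] at h2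
    linarith
  have h3 : (R - h) ^ n ≤ ∏ l ∈ range n, ‖z - x l‖ := by
    rw [← card_range n, ← prod_const]
    rw [card_range]
    refine prod_le_prod (fun _ _ => by linarith) fun l _ => ?_
    have h2 := norm_sub_norm_le (z - c) (x l - c)
    rw [sub_sub_sub_cancel_right] at h2
    have := hx l
    linarith
  refine div_le_div₀ hM0 (hM z hz) (mul_pos (by linarith) (pow_pos (by linarith) n)) ?_
  exact mul_le_mul h1 h3 (pow_nonneg (by linarith) n) (norm_nonneg _)

/-- interpolation with a small error -/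
theorem interp (hR : 0 < R) (hh : h < R) (hh0 : 0 ≤ h) (hx : ∀ l, ‖x l - c‖ ≤ h) (hinj : Function.Injective x) {r : ℝ} (hr0 : 0 ≤ r)
    (hrh : r + 2 * h < R) {ε : ℝ} (hε : 0 < ε) : ∃ n : ℕ, ∀ (f : ℂ → ℂ) (M : ℝ), DiffContOnCl ℂ f (Metric.ball c R) → ContinuousOn f (Metric.sphere c R) →
      0 ≤ M → (∀ z ∈ Metric.sphere c R, ‖f z‖ ≤ M) → ∀ w : ℂ, ‖w - c‖ ≤ r →
      ‖f w - ∑ i ∈ range n, dd x i (fun l => f (x l)) i * ∏ l ∈ range i, (w - x l)‖ ≤ ε * M := by
  have hr : r < R := by linarith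
  have hq : Tendsto (fun n : ℕ => R / (R - r) * ((r + h) / (R - h)) ^ n) atTop (𝓝 (R / (R - r) * 0)) :=
    (tendsto_pow_atTop_nhds_zero_of_lt_one (div_nonneg (by linarith) (by linarith)) (by
      rw [div_lt_one (by linarith)]
      linarith)).const_mul _
  rw [mul_zero] at hq
  obtain ⟨n, hn⟩ := (hq.eventually (gt_mem_nhds hε)).exists
  refine ⟨n, fun f M hf hfc hM0 hM w hw => ?_⟩
  rw [newton hR hh hx hinj hf hfc (hw.trans_lt hr) n, add_sub_cancel_left, norm_mul, norm_prod]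
  have h1 := Ci_bound hR hh hx hr hM hM0 hw n
  have h2 : ∏ l ∈ range n, ‖w - x l‖ ≤ (r + h) ^ n := by
    have h3 : ∏ l ∈ range n, ‖w - x l‖ ≤ ∏ _l ∈ range n, (r + h) := prod_le_prod (fun _ _ => norm_nonneg _) fun l _ => by
      have h4 := norm_sub_le (w - c) (x l - c)
      rw [sub_sub_sub_cancel_right] at h4
      have := hx l
      linarith
    rwa [prod_const, card_range] at h3
  have h5 := mul_le_mul h1 h2 (prod_nonneg fun _ _ => norm_nonneg _) (by
    have : 0 < R - r := by linarith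
    have : 0 < R - h := by linarith
    positivity)
  refine h5.trans ?_
  have h6 : R * (M / ((R - r) * (R - h) ^ n)) * (r + h) ^ n = (R / (R - r) * ((r + h) / (R - h)) ^ n) * M := by
    rw [div_pow]
    have g1 : R - r ≠ 0 := by intro h0; linarith
    have g2 : (R - h) ^ n ≠ 0 := pow_ne_zero n (by intro h0; linarith)
    field_simp
  rw [h6]
  exact mul_le_mul_of_nonneg_right hn.le hM0

end Pool.Agent.R313.CX
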