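import Pool.Agent.R313.CX.N

set_option autoImplicit false

/-! Continuous functions on a disc: compactness and approximation of homogeneous functionals. -/

namespace Pool.Agent.R313.CX

open Finset Filter Topology

open Classical in
/-- the restriction of a function to a set -/
noncomputable def rs (K : Set ℂ) (f : ℂ → ℂ) : C(K, ℂ) :=
  if h : Continuous (fun w : K => f w) then ⟨_, h⟩ else 0

lemma rs_apply {K : Set ℂ} {f : ℂ → ℂ} (h : ContinuousOn f K) (w : K) : rs K f w = f w := by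
  have h' : Continuous (fun w : K => f w) := continuousOn_iff_continuous_domRestrict.mp h
  unfold rs
  rw [dif_pos h']
  rfl

lemma rs_smul {K : Set ℂ} {f : ℂ → ℂ} (h : ContinuousOn f K) (u : ℂ) : rs K (fun w => u * f w) = u • rs K f := by
  have h2 : ContinuousOn (fun w => u * f w) K := continuousOn_const.mul h
  ext w
  rw [rs_apply h2, ContinuousMap.smul_apply, rs_apply h, smul_eq_mul]

/-- bounded Lipschitz functions on the disc -/
def LK (c : ℂ) (r L : ℝ) : Set C(Metric.closedBall c r, ℂ) :=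
  {f | (∀ x, ‖f x‖ ≤ 1) ∧ ∀ x y, ‖f x - f y‖ ≤ L * dist x y}

lemma LK_image {c : ℂ} {r L : ℝ} (hL : 0 ≤ L) : (ContinuousMap.toFun '' LK c r L) =
    {g : Metric.closedBall c r → ℂ | (∀ x, g x ∈ Metric.closedBall (0:ℂ) 1) ∧ ∀ x y, ‖g x - g y‖ ≤ L * dist x y} := by
  ext g
  constructor
  · rintro ⟨f, hf, rfl⟩
    exact ⟨fun x => mem_closedBall_zero_iff.mpr (hf.1 x), hf.2⟩
  · rintro ⟨h1, h2⟩
    have hc : Continuous g := by
      have : LipschitzWith ⟨L, hL⟩ g := LipschitzWith.of_dist_le_mul fun x y => by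
        rw [dist_eq_norm]; exact h2 x y
      exact this.continuous
    exact ⟨⟨g, hc⟩, ⟨fun x => mem_closedBall_zero_iff.mp (h1 x), h2⟩, rfl⟩

lemma LK_compact (c : ℂ) (r : ℝ) {L : ℝ} (hL : 0 ≤ L) : IsCompact (LK c r L) := by
  refine ArzelaAscoli.isCompact_of_equicontinuous _ ?_ ?_
  · rw [LK_image hL]
    refine IsCompact.of_isClosed_subset (isCompact_univ_pi fun _ : Metric.closedBall c r => isCompact_closedBall (0:ℂ) 1) ?_ ?_
    · have e1 : {g : Metric.closedBall c r → ℂ | (∀ x, g x ∈ Metric.closedBall (0:ℂ) 1) ∧ ∀ x y, ‖g x - g y‖ ≤ L * dist x y} =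
          (⋂ x, {g | g x ∈ Metric.closedBall (0:ℂ) 1}) ∩ ⋂ x, ⋂ y, {g | ‖g x - g y‖ ≤ L * dist x y} := by
        ext g
        simp only [Set.mem_ofPred_eq, Set.mem_inter_iff, Set.mem_iInter]
      rw [e1]
      refine (isClosed_iInter fun x => Metric.isClosed_closedBall.preimage (continuous_apply x)).inter ?_
      exact isClosed_iInter fun x => isClosed_iInter fun y =>
        isClosed_le ((continuous_apply x).sub (continuous_apply y)).norm continuous_const
    · intro g hg x _
      exact hg.1 x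
  · refine Metric.equicontinuous_of_continuity_modulus (fun d => L * d) ?_ _ ?_
    · have h1 : Tendsto (fun d : ℝ => L * d) (𝓝 0) (𝓝 (L * 0)) := tendsto_id.const_mul L
      rwa [mul_zero] at h1
    · rintro x y ⟨f, hf⟩
      rw [dist_eq_norm]
      exact hf.2 x y

/-- the products -/
noncomputable def pe (c : ℂ) (r : ℝ) (x : ℕ → ℂ) (i : ℕ) : C(Metric.closedBall c r, ℂ) :=
  ⟨fun w => ∏ l ∈ range i, ((w : ℂ) - x l), by fun_prop⟩

/-- the interpolating function -/
noncomputable def pn (c : ℂ) (r : ℝ) (x : ℕ → ℂ) (n : ℕ) (y : ℕ → ℂ) : C(Metric.closedBall c r, ℂ) :=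
  ∑ i ∈ range n, dd x i y i • pe c r x i

lemma pn_cont (c : ℂ) (r : ℝ) (x : ℕ → ℂ) (n : ℕ) : Continuous (pn c r x n) := by
  unfold pn
  exact continuous_finsetSum _ fun i _ => (dd_cont x i i).smul continuous_const

lemma pn_smul (c : ℂ) (r : ℝ) (x : ℕ → ℂ) (n : ℕ) (u : ℂ) (y : ℕ → ℂ) : pn c r x n (fun l => u * y l) = u • pn c r x n y := by
  unfold pn
  rw [smul_sum]
  refine sum_congr rfl fun i _ => ?_
  rw [dd_smul, smul_smul]

lemma pn_congr (c : ℂ) (r : ℝ) (x : ℕ → ℂ) {n : ℕ} {y y' : ℕ → ℂ} (h : ∀ l < n, y l = y' l) : pn c r x n y = pn c r x n y' := by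
  unfold pn
  refine sum_congr rfl fun i hi => ?_
  rw [dd_congr x h i i (mem_range.mp hi) le_rfl]

lemma pn_apply (c : ℂ) (r : ℝ) (x : ℕ → ℂ) (n : ℕ) (y : ℕ → ℂ) (w : Metric.closedBall c r) :
    pn c r x n y w = ∑ i ∈ range n, dd x i y i * ∏ l ∈ range i, ((w : ℂ) - x l) := by
  unfold pn
  rw [ContinuousMap.sum_apply]
  rfl

lemma lip_ball {c : ℂ} {f : ℂ → ℂ} {R r M : ℝ} (hr : r < R) (hf : DiffContOnCl ℂ f (Metric.ball c R))
    (hM : ∀ z ∈ Metric.closedBall c R, ‖f z‖ ≤ M) :
    ∀ w ∈ Metric.closedBall c r, ∀ w' ∈ Metric.closedBall c r, ‖f w - f w'‖ ≤ M / (R - r) * ‖w - w'‖ := by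
  intro w hw w' hw'
  have hR : 0 < R - r := by linarith
  refine (convex_closedBall c r).norm_image_sub_le_of_norm_deriv_le (f := f) (fun z hz => ?_) (fun z hz => ?_) hw' hw
  · exact hf.differentiableAt Metric.isOpen_ball (Metric.closedBall_subset_ball hr hz)
  · rw [Metric.mem_closedBall] at hz
    refine Complex.norm_deriv_le_of_forall_mem_sphere_norm_le hR (hf.mono (Metric.ball_subset_ball' (by linarith))) fun y hy => ?_
    exact hM y (Metric.closedBall_subset_closedBall' (by linarith) (Metric.sphere_subset_closedBall hy))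

/-- approximation of homogeneous functionals -/
theorem approx {c : ℂ} {r R h k : ℝ} {x : ℕ → ℂ} (hr0 : 0 ≤ r) (hh0 : 0 ≤ h) (hrh : r + 2 * h < R)
    (hx : ∀ l, ‖x l - c‖ ≤ h) (hinj : Function.Injective x)
    {Φ : C(Metric.closedBall c r, ℂ) → ℂ} (hc : Continuous Φ)
    (hΦ : ∀ (u : ℂ) (f : C(Metric.closedBall c r, ℂ)), Φ (u • f) = ((‖u‖ ^ (2 * k) : ℝ) : ℂ) * Φ f) {η : ℝ} (hη : 0 < η) :
    ∃ n : ℕ, ∀ (f : ℂ → ℂ) (M : ℝ), DiffContOnCl ℂ f (Metric.ball c R) → (∀ z ∈ Metric.closedBall c R, ‖f z‖ ≤ M) →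
      ‖Φ (rs (Metric.closedBall c r) f) - Φ (pn c r x n (fun l => f (x l)))‖ ≤ η * M ^ (2 * k) := by
  have hR : 0 < R := by linarith
  have hrR : r < R := by linarith
  have hhR : h < R := by linarith
  have hRr : 0 < R - r := by linarith
  have hL : 0 ≤ 1 / (R - r) := by positivity
  have hu := (LK_compact c r hL).uniformContinuousAt_of_continuousAt Φ (fun a _ => hc.continuousAt) (Metric.dist_mem_uniformity hη)
  obtain ⟨ε, hε, hu⟩ := Metric.mem_uniformity_dist.mp hu
  obtain ⟨n, hn⟩ := interp hR hhR hh0 hx hinj hr0 hrh (half_pos hε)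
  refine ⟨n, fun f M hf hM => ?_⟩
  have hM0 : 0 ≤ M := (norm_nonneg _).trans (hM c (Metric.mem_closedBall_self hR.le))
  have hcl : closure (Metric.ball c R) = Metric.closedBall c R := closure_ball c hR.ne'
  have hfc : ContinuousOn f (Metric.closedBall c R) := by
    have := hf.continuousOn
    rwa [hcl] at this
  have hsub : Metric.closedBall c r ⊆ Metric.closedBall c R := Metric.closedBall_subset_closedBall hrR.le
  have hfr : ContinuousOn f (Metric.closedBall c r) := hfc.mono hsub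
  rcases hM0.eq_or_lt with h0 | h0
  · have hz : ∀ z ∈ Metric.closedBall c R, f z = 0 := fun z hz => norm_le_zero_iff.mp (by rw [h0]; exact hM z hz)
    have e1 : rs (Metric.closedBall c r) f = 0 := by
      ext w
      rw [rs_apply hfr, hz _ (hsub w.2)]
      rfl
    have e2 : pn c r x n (fun l => f (x l)) = 0 := by
      have e3 : (fun l => f (x l)) = fun l => (0:ℂ) * f (x l) := by
        funext l
        rw [zero_mul]
        exact hz _ (by rw [Metric.mem_closedBall, dist_eq_norm]; exact (hx l).trans hhR.le)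
      rw [e3, pn_smul, zero_smul]
    rw [e1, e2, sub_self, norm_zero]
    positivity
  · have hM1 : ((M : ℝ) : ℂ) ≠ 0 := by exact_mod_cast h0.ne'
    obtain ⟨f1, hf1⟩ : ∃ f1 : ℂ → ℂ, f1 = fun w => (M : ℂ)⁻¹ * f w := ⟨_, rfl⟩
    have hn1 : ‖((M : ℝ) : ℂ)⁻¹‖ = M⁻¹ := by rw [norm_inv, Complex.norm_real, Real.norm_of_nonneg h0.le]
    have hf1d : DiffContOnCl ℂ f1 (Metric.ball c R) := by
      rw [hf1]
      exact hf.const_smul ((M : ℂ)⁻¹)
    have hf1b : ∀ z ∈ Metric.closedBall c R, ‖f1 z‖ ≤ 1 := by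
      intro z hz
      rw [hf1]
      show ‖(M : ℂ)⁻¹ * f z‖ ≤ 1
      rw [norm_mul, hn1, inv_mul_eq_div, div_le_one h0]
      exact hM z hz
    have hf1c : ContinuousOn f1 (Metric.closedBall c R) := by
      rw [hf1]
      exact continuousOn_const.mul hfc
    have hmem : rs (Metric.closedBall c r) f1 ∈ LK c r (1 / (R - r)) := by
      refine ⟨fun y => ?_, fun y y' => ?_⟩
      · rw [rs_apply (hf1c.mono hsub)]
        exact hf1b _ (hsub y.2)
      · rw [rs_apply (hf1c.mono hsub), rs_apply (hf1c.mono hsub), Subtype.dist_eq, dist_eq_norm]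
        exact lip_ball hrR hf1d hf1b _ y.2 _ y'.2
    have hdist : dist (rs (Metric.closedBall c r) f1) (pn c r x n (fun l => f1 (x l))) < ε := by
      refine lt_of_le_of_lt ((ContinuousMap.dist_le (half_pos hε).le).mpr fun w => ?_) (half_lt_self hε)
      rw [rs_apply (hf1c.mono hsub), pn_apply, dist_eq_norm]
      have h5 := hn f1 1 hf1d (hf1c.mono Metric.sphere_subset_closedBall) zero_le_one
        (fun z hz => hf1b z (Metric.sphere_subset_closedBall hz)) w (by
          have := w.2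
          rwa [Metric.mem_closedBall, dist_eq_norm] at this)
      rwa [mul_one] at h5
    have h6 : dist (Φ (rs (Metric.closedBall c r) f1)) (Φ (pn c r x n (fun l => f1 (x l)))) < η := hu hdist hmem
    have e1 : rs (Metric.closedBall c r) f = (M : ℂ) • rs (Metric.closedBall c r) f1 := by
      rw [hf1, rs_smul hfr, smul_smul, mul_inv_cancel₀ hM1, one_smul]
    have e2 : pn c r x n (fun l => f (x l)) = (M : ℂ) • pn c r x n (fun l => f1 (x l)) := by
      rw [hf1, pn_smul, smul_smul, mul_inv_cancel₀ hM1, one_smul]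
    rw [e1, e2, hΦ, hΦ, ← mul_sub, norm_mul, Complex.norm_real, Complex.norm_real, Real.norm_of_nonneg (by positivity),
      Real.norm_of_nonneg h0.le, mul_comm η]
    refine mul_le_mul_of_nonneg_left ?_ (by positivity)
    rw [dist_eq_norm] at h6
    exact h6.le

end Pool.Agent.R313.CX
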