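import Pool.Agent.R313.FN.E

set_option autoImplicit false

/-! The mass of zeta on general rectangles of the half plane. -/

namespace Pool.Agent.R313.CX

open Filter MeasureTheory Topology
open Pool.Agent.Y755
open Pool.Agent.Y753.NL
open Pool.Agent.Y753.SHR
open Pool.Agent.W184 (zn zn_nonneg zn_cont zn_le')
open Pool.Agent.R313.FN

/-- the domain -/
def UB (b : ℝ) : Set ℂ := {w | w.re < b}

lemma UB_open (b : ℝ) : IsOpen (UB b) := isOpen_lt Complex.continuous_re continuous_const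

lemma gzB_ne {b δ t : ℝ} (hδ : 0 < δ) (hδ1 : δ * b ≤ 1 / 2) {w : ℂ} (hw : w ∈ UB b) : (1 / 2 + t * Complex.I + δ * w : ℂ) ≠ 1 := by
  intro h
  have h1 := congrArg Complex.re h
  simp at h1
  have h2 : w.re < b := hw
  nlinarith

lemma gzB_diff {b δ t : ℝ} (hδ : 0 < δ) (hδ1 : δ * b ≤ 1 / 2) : DifferentiableOn ℂ (gz δ t) (UB b) := by
  intro w hw
  refine DifferentiableAt.differentiableWithinAt ?_
  unfold FN.gz
  exact DifferentiableAt.comp (𝕜 := ℂ) (f := fun w : ℂ => (1 / 2 + t * Complex.I + δ * w : ℂ)) w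
    (differentiableAt_riemannZeta (gzB_ne hδ hδ1 hw)) (by fun_prop)

lemma gzB_jc {b δ : ℝ} (hδ : 0 < δ) (hδ1 : δ * b ≤ 1 / 2) :
    ContinuousOn (fun p : ℝ × ℂ => gz δ p.1 p.2) (Set.univ ×ˢ UB b) := by
  intro p hp
  refine ContinuousAt.continuousWithinAt ?_
  unfold FN.gz
  exact ContinuousAt.comp (f := fun p : ℝ × ℂ => (1 / 2 + p.1 * Complex.I + δ * p.2 : ℂ))
    (differentiableAt_riemannZeta (gzB_ne hδ hδ1 hp.2)).continuousAt (by fun_prop)

lemma rc_UB {a b' b B : ℝ} (h : b' < b) : rc a b' B ⊆ UB b := by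
  rintro w ⟨h1, h2, h3⟩
  show w.re < b
  linarith

/-- the area integral -/
noncomputable def Ib (β a' b' δ Q t : ℝ) : ℝ := ∫ w in rc a' b' Q, ‖gz δ t w‖ ^ β

lemma Ib_nonneg (β a' b' δ Q t : ℝ) : 0 ≤ Ib β a' b' δ Q t := integral_nonneg fun w => by positivity

lemma Ib_fub {β a' b' δ Q T : ℝ} (hβ : 0 < β) (hδ : 0 < δ) (hδ1 : δ * (b' + 1) ≤ 1 / 2) :
    IntegrableOn (Ib β a' b' δ Q) (Set.Icc 0 T) ∧
    IntegrableOn (fun w => ∫ t in Set.Icc 0 T, ‖gz δ t w‖ ^ β) (rc a' b' Q) ∧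
    ∫ t in Set.Icc 0 T, Ib β a' b' δ Q t = ∫ w in rc a' b' Q, ∫ t in Set.Icc 0 T, ‖gz δ t w‖ ^ β := by
  have hK : IsCompact (Set.Icc 0 T ×ˢ rc a' b' Q) := isCompact_Icc.prod (rc_compact _ _ _)
  have hc : ContinuousOn (fun p : ℝ × ℂ => ‖gz δ p.1 p.2‖ ^ β) (Set.Icc 0 T ×ˢ rc a' b' Q) :=
    (((gzB_jc hδ hδ1).norm).rpow_const fun _ _ => Or.inr hβ.le).mono (Set.prod_mono (Set.subset_univ _) (rc_UB (by linarith)))
  have hi := ContinuousOn.integrableOn_compact (μ := volume) hK hc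
  rw [IntegrableOn, Measure.volume_eq_prod, ← Measure.prod_restrict] at hi
  exact ⟨hi.integral_prod_left, hi.integral_prod_right, integral_integral_swap hi⟩

lemma innerB_le {β a' b' δ Q T : ℝ} (ha : 0 < a') (hδ : 0 < δ) (hδ1 : δ * (b' + 1) ≤ 1 / 2) (hβ : 0 < β) (hQ : Q * δ ≤ 1) (hT : 0 < T) {w : ℂ}
    (hw : w ∈ rc a' b' Q) :
    ∫ t in Set.Icc 0 T, ‖gz δ t w‖ ^ β ≤ (T + 2) * mom β (1 / 2 + δ * w.re) (-1) (T + 2) := by
  obtain ⟨h1, h2, h3⟩ := hw
  have hw0 : 0 < w.re := by linarith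
  have hre : 0 < δ * w.re := by positivity
  have hre2 : δ * w.re < 1 / 2 := by nlinarith
  have hcont : Continuous fun t => za (δ * w.re) 0 t ^ β :=
    (za_cont hre2 0).rpow_const fun t => Or.inr hβ.le
  have e1 : ∀ t : ℝ, ‖gz δ t w‖ ^ β = za (δ * w.re) 0 (t + δ * w.im) ^ β := by
    intro t
    unfold FN.gz za
    congr 3
    apply Complex.ext
    · simp
    · simp
  have him : |δ * w.im| ≤ 1 := by
    rw [abs_mul, abs_of_pos hδ]
    nlinarith
  have him' := abs_le.mp him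
  simp_rw [e1]
  rw [integral_Icc_eq_integral_Ioc, ← intervalIntegral.integral_of_le hT.le,
    intervalIntegral.integral_comp_add_right (fun t => za (δ * w.re) 0 t ^ β)]
  have e2 : ∫ t in (0 + δ * w.im)..(T + δ * w.im), za (δ * w.re) 0 t ^ β ≤ ∫ t in (-1:ℝ)..(T + 1), za (δ * w.re) 0 t ^ β :=
    intervalIntegral.integral_mono_interval (by linarith) (by linarith) (by linarith)
      (Eventually.of_forall fun t => Real.rpow_nonneg (za_nonneg _ _ _) _) (hcont.intervalIntegrable _ _)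
  refine e2.trans (le_of_eq ?_)
  rw [mom_eq β _ (-1) (show 0 < T + 2 by linarith), ← mul_assoc, mul_inv_cancel₀ (by linarith), one_mul]
  have e5 : T + 2 + -1 = T + 1 := by ring
  rw [e5]
  refine intervalIntegral.integral_congr fun t _ => ?_
  show za (δ * w.re) 0 t ^ β = zn (1 / 2 + δ * w.re) t ^ β
  congr 1
  unfold za zn
  congr 2
  push_cast
  ring

/-- the expected area integral -/
theorem Ib_mass {β : ℝ} (hβ : 0 < β) (hβ4 : β ≤ 4) {a' b' : ℝ} (ha : 0 < a') (Q : ℝ) {δ : ℝ → ℝ} (hδ : Tendsto δ atTop (𝓝 0))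
    (hδL : Tendsto (fun T : ℝ => δ T * Real.log T) atTop atTop) :
    ∃ C : ℝ, ∀ᶠ T in atTop, (2 * δ T) ^ ((β / 2) ^ 2) / T * ∫ t in Set.Icc 0 T, Ib β a' b' (δ T) Q t ≤ C := by
  have hpos : ∀ᶠ T in atTop, 0 < δ T := by
    filter_upwards [hδL.eventually_gt_atTop 0, eventually_gt_atTop 1] with T hT hT1
    exact (pos_iff_pos_of_mul_pos hT).mpr (Real.log_pos hT1)
  have hs0 : 0 < β / 2 := by positivity
  obtain ⟨lam, hlam, hup⟩ := up_full hs0 (by linarith) (ε := 1) one_pos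
  obtain ⟨δ0, C0, hδ0, hC0, hDD⟩ := DD_up hs0
  have hL : ∀ᶠ T : ℝ in atTop, lam / Real.log (T + 2) ≤ δ T * a' := by
    filter_upwards [hδL.eventually_ge_atTop (lam / a'), hpos, eventually_gt_atTop 1] with T h1 h2 h3
    have h4 := Real.log_pos h3
    have h5 : Real.log T ≤ Real.log (T + 2) := Real.log_le_log (by linarith) (by linarith)
    rw [div_le_iff₀ (h4.trans_le h5)]
    rw [div_le_iff₀ ha] at h1
    have h6 : δ T * Real.log T ≤ δ T * Real.log (T + 2) := mul_le_mul_of_nonneg_left h5 h2.le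
    nlinarith
  have hup' : ∀ᶠ T : ℝ in atTop, ∀ δ : ℝ, lam / Real.log (T + 2) ≤ δ → δ ≤ 1 / 16 →
      mom (2 * (β / 2)) (1 / 2 + δ) (-1) (T + 2) ≤ (1 + 1) * DD (β / 2) δ :=
    (tendsto_atTop_add_const_right atTop 2 tendsto_id).eventually (hup (-1))
  have hQδ : ∀ᶠ T in atTop, Q * δ T ≤ 1 := by
    have h1 : Tendsto (fun T => Q * δ T) atTop (𝓝 (Q * 0)) := hδ.const_mul Q
    rw [mul_zero] at h1
    filter_upwards [h1.eventually (gt_mem_nhds one_pos)] with T hT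
    exact hT.le
  have hbδ : ∀ᶠ T in atTop, (b' + 1) * δ T < min (1 / 16) δ0 := by
    have h1 : Tendsto (fun T => (b' + 1) * δ T) atTop (𝓝 ((b' + 1) * 0)) := hδ.const_mul _
    rw [mul_zero] at h1
    exact h1.eventually (gt_mem_nhds (lt_min (by norm_num) hδ0))
  obtain ⟨V, hV⟩ : ∃ V : ℝ, V = volume.real (rc a' b' Q) := ⟨_, rfl⟩
  have hV0 : 0 ≤ V := by rw [hV]; exact measureReal_nonneg
  refine ⟨2 ^ ((β / 2) ^ 2) * (3 * (2 * (C0 * a' ^ (-((β / 2) ^ 2))))) * V, ?_⟩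
  filter_upwards [hup', hL, hpos, hbδ, hQδ, eventually_gt_atTop 1] with T h1 h2 h3 h4 h6 h7
  have hT0 : 0 < T := by linarith
  have h4a : δ T * (b' + 1) < 1 / 16 := by
    rw [mul_comm]
    exact h4.trans_le (min_le_left _ _)
  have h4b : δ T * (b' + 1) < δ0 := by
    rw [mul_comm]
    exact h4.trans_le (min_le_right _ _)
  obtain ⟨f1, f2, f3⟩ := Ib_fub (β := β) (a' := a') (b' := b') (δ := δ T) (Q := Q) (T := T) hβ h3 (by linarith)
  rw [f3]
  have hin : ∀ w ∈ rc a' b' Q, ∫ t in Set.Icc 0 T, ‖gz (δ T) t w‖ ^ β ≤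
      (3 * T) * (2 * (C0 * (a' ^ (-((β / 2) ^ 2)) * (δ T) ^ (-((β / 2) ^ 2))))) := by
    intro w hw
    obtain ⟨w1, w2, w3⟩ := id hw
    refine (innerB_le ha h3 (by linarith) hβ h6 hT0 hw).trans ?_
    have g1 : lam / Real.log (T + 2) ≤ δ T * w.re := h2.trans (mul_le_mul_of_nonneg_left w1 h3.le)
    have g2 : δ T * w.re ≤ 1 / 16 := by nlinarith
    have g3 := h1 _ g1 g2
    have e1 : 2 * (β / 2) = β := by ring
    rw [e1] at g3
    have hw0 : 0 < w.re := by linarith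
    have g0 : 0 < δ T * w.re := by positivity
    have g4 := hDD _ g0 (by nlinarith)
    have g5 : (δ T * w.re) ^ (-((β / 2) ^ 2)) ≤ a' ^ (-((β / 2) ^ 2)) * (δ T) ^ (-((β / 2) ^ 2)) := by
      have g6 : (δ T * w.re) ^ (-((β / 2) ^ 2)) ≤ (δ T * a') ^ (-((β / 2) ^ 2)) :=
        Real.rpow_le_rpow_of_nonpos (by positivity) (mul_le_mul_of_nonneg_left w1 h3.le) (by have := sq_nonneg (β / 2); linarith)
      refine g6.trans (le_of_eq ?_)
      rw [Real.mul_rpow h3.le ha.le, mul_comm]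
    have g7 : 0 ≤ mom β (1 / 2 + δ T * w.re) (-1) (T + 2) := by
      unfold mom
      exact intervalIntegral.integral_nonneg (by norm_num) fun u _ => by positivity
    have g8 : mom β (1 / 2 + δ T * w.re) (-1) (T + 2) ≤ 2 * (C0 * (a' ^ (-((β / 2) ^ 2)) * (δ T) ^ (-((β / 2) ^ 2)))) := by
      refine g3.trans ?_
      have g9 : DD (β / 2) (δ T * w.re) ≤ C0 * (a' ^ (-((β / 2) ^ 2)) * (δ T) ^ (-((β / 2) ^ 2))) :=
        g4.trans (mul_le_mul_of_nonneg_left g5 hC0.le)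
      linarith
    have g10 : T + 2 ≤ 3 * T := by linarith
    calc (T + 2) * mom β (1 / 2 + δ T * w.re) (-1) (T + 2) ≤ (3 * T) * mom β (1 / 2 + δ T * w.re) (-1) (T + 2) :=
          mul_le_mul_of_nonneg_right g10 g7
      _ ≤ _ := mul_le_mul_of_nonneg_left g8 (by positivity)
  have hm : MeasurableSet (rc a' b' Q) := (rc_compact _ _ _).isClosed.measurableSet
  have hint := setIntegral_mono_on f2 (integrableOn_const (C := (3 * T) * (2 * (C0 * (a' ^ (-((β / 2) ^ 2)) * (δ T) ^ (-((β / 2) ^ 2))))))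
    (hs := (rc_compact _ _ _).measure_lt_top.ne)) hm hin
  rw [setIntegral_const, smul_eq_mul, ← hV] at hint
  have hw0 : 0 ≤ (2 * δ T) ^ ((β / 2) ^ 2) / T := by positivity
  refine (mul_le_mul_of_nonneg_left hint hw0).trans (le_of_eq ?_)
  rw [Real.mul_rpow (by norm_num) h3.le, Real.rpow_neg h3.le]
  have h9 : (δ T) ^ ((β / 2) ^ 2) ≠ 0 := (Real.rpow_pos_of_pos h3 _).ne'
  field_simp

end Pool.Agent.R313.CX
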