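import Pool.Agent.R313.CX.I

set_option autoImplicit false

/-! A Gaussian power series in the unit disc. -/

namespace Pool.Agent.R313.CX

open Finset Filter MeasureTheory Topology ProbabilityTheory

/-- the law of a sequence of independent pairs of standard normal variables -/
noncomputable def gp : Measure (ℕ → ℝ × ℝ) := Measure.infinitePi fun _ : ℕ => g2

instance gp_prob : IsProbabilityMeasure gp := by unfold gp; infer_instance

/-- the size of a pair -/
def xa (x : ℝ × ℝ) : ℝ := |x.1| + |x.2|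

lemma xa_nonneg (x : ℝ × ℝ) : 0 ≤ xa x := by unfold xa; positivity

lemma xa_cont : Continuous xa := by unfold xa; fun_prop

lemma gp_prod {𝕜 : Type*} [RCLike 𝕜] (N : ℕ) (f : ℕ → ℝ × ℝ → 𝕜) (hf : ∀ m, Continuous (f m)) :
    ∫ ω, ∏ m ∈ range N, f m (ω m) ∂gp = ∏ m ∈ range N, ∫ x, f m x ∂g2 := by
  have h1 := integral_restrict_infinitePi (μ := fun _ : ℕ => g2) (s := range N)
    (f := fun y : ((i : range N) → ℝ × ℝ) => ∏ i : range N, f i (y i))
    (by
      refine Continuous.aestronglyMeasurable ?_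
      exact continuous_finsetProd _ fun i _ => (hf i).comp (continuous_apply i))
  have h2 : ∀ ω : ℕ → ℝ × ℝ, ∏ i : range N, f i ((range N).restrict ω i) = ∏ m ∈ range N, f m (ω m) := by
    intro ω
    exact prod_coe_sort (range N) fun m => f m (ω m)
  simp_rw [h2] at h1
  unfold gp
  rw [h1, integral_fintype_prod_eq_prod (fun i : range N => f i)]
  exact prod_coe_sort (range N) fun m => ∫ x, f m x ∂g2

/-- the exponential moments of one pair -/
noncomputable def bl (s : ℝ) : ℝ := ∫ x, Real.exp (s * xa x) ∂g2 - 1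

lemma bl_int (s : ℝ) : Integrable (fun x => Real.exp (s * xa x)) g2 := g2_abs s

lemma bl_nonneg {s : ℝ} (hs : 0 ≤ s) : 0 ≤ bl s := by
  unfold bl
  have h1 : ∫ _x : ℝ × ℝ, (1:ℝ) ∂g2 ≤ ∫ x, Real.exp (s * xa x) ∂g2 :=
    integral_mono (integrable_const _) (bl_int s) fun x => Real.one_le_exp (mul_nonneg hs (xa_nonneg x))
  rw [integral_const, probReal_univ, one_smul] at h1
  linarith

lemma mgf_le {s θ : ℝ} (h0 : 0 ≤ θ) (h1 : θ ≤ 1) : ∫ x, Real.exp (s * (θ * xa x)) ∂g2 ≤ Real.exp (θ * bl s) := by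
  have h2 : ∀ x, Real.exp (s * (θ * xa x)) ≤ (1 - θ) + θ * Real.exp (s * xa x) := by
    intro x
    have h3 := convexOn_exp.2 (Set.mem_univ (s * xa x)) (Set.mem_univ 0) h0 (sub_nonneg.mpr h1) (by ring)
    simp only [smul_eq_mul, mul_zero, add_zero, Real.exp_zero, mul_one] at h3
    have e1 : s * (θ * xa x) = θ * (s * xa x) := by ring
    rw [e1]
    linarith
  have h3 : ∫ x, Real.exp (s * (θ * xa x)) ∂g2 ≤ ∫ x, ((1 - θ) + θ * Real.exp (s * xa x)) ∂g2 := by
    refine integral_mono ?_ ((integrable_const _).add ((bl_int s).const_mul θ)) h2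
    have e1 : (fun x => Real.exp (s * (θ * xa x))) = fun x => Real.exp ((s * θ) * xa x) := by
      funext x
      congr 1
      ring
    rw [e1]
    exact bl_int _
  rw [integral_add (integrable_const _) ((bl_int s).const_mul θ), integral_const, probReal_univ, one_smul, integral_const_mul] at h3
  refine h3.trans ?_
  have h4 := Real.add_one_le_exp (θ * bl s)
  have e2 : 1 - θ + θ * ∫ x, Real.exp (s * xa x) ∂g2 = θ * bl s + 1 := by
    unfold bl
    ring
  rw [e2]
  exact h4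

/-- partial sums -/
noncomputable def Sp (q : ℝ) (N : ℕ) (ω : ℕ → ℝ × ℝ) : ℝ := ∑ m ∈ range N, q ^ m * xa (ω m)

lemma Sp_cont (q : ℝ) (N : ℕ) : Continuous (Sp q N) := by
  unfold Sp
  exact continuous_finsetSum _ fun m _ => (xa_cont.comp (continuous_apply m)).const_mul _

lemma Sp_mgf {q s : ℝ} (hq : 0 ≤ q) (hq1 : q < 1) (hs : 0 ≤ s) (N : ℕ) :
    Integrable (fun ω => Real.exp (s * Sp q N ω)) gp ∧ ∫ ω, Real.exp (s * Sp q N ω) ∂gp ≤ Real.exp (bl s * (1 - q)⁻¹) := by
  have hc : ∀ m : ℕ, Continuous fun x : ℝ × ℝ => Real.exp (s * (q ^ m * xa x)) := fun m =>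
    Real.continuous_exp.comp ((xa_cont.const_mul _).const_mul _)
  have e1 : (fun ω => Real.exp (s * Sp q N ω)) = fun ω : ℕ → ℝ × ℝ => ∏ m ∈ range N, Real.exp (s * (q ^ m * xa (ω m))) := by
    funext ω
    rw [← Real.exp_sum, ← mul_sum]
    rfl
  have h1 := gp_prod N (fun m x => Real.exp (s * (q ^ m * xa x))) hc
  have hpos : ∀ m : ℕ, 1 ≤ ∫ x, Real.exp (s * (q ^ m * xa x)) ∂g2 := by
    intro m
    have h2 : ∫ _x : ℝ × ℝ, (1:ℝ) ∂g2 ≤ ∫ x, Real.exp (s * (q ^ m * xa x)) ∂g2 := by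
      refine integral_mono (integrable_const _) ?_ fun x => Real.one_le_exp (mul_nonneg hs (mul_nonneg (pow_nonneg hq m) (xa_nonneg x)))
      have e2 : (fun x => Real.exp (s * (q ^ m * xa x))) = fun x => Real.exp ((s * q ^ m) * xa x) := by
        funext x
        congr 1
        ring
      rw [e2]
      exact bl_int _
    rwa [integral_const, probReal_univ, one_smul] at h2
  constructor
  · rw [e1]
    by_contra hn
    have h2 := integral_undef hn
    have h3 : 0 < ∏ m ∈ range N, ∫ x, Real.exp (s * (q ^ m * xa x)) ∂g2 := prod_pos fun m _ => lt_of_lt_of_le one_pos (hpos m)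
    rw [← h1, h2] at h3
    exact lt_irrefl _ h3
  · rw [e1, h1]
    calc ∏ m ∈ range N, ∫ x, Real.exp (s * (q ^ m * xa x)) ∂g2 ≤ ∏ m ∈ range N, Real.exp (q ^ m * bl s) :=
          prod_le_prod (fun m _ => zero_le_one.trans (hpos m)) fun m _ => mgf_le (pow_nonneg hq m) (pow_le_one₀ hq hq1.le)
      _ = Real.exp (bl s * ∑ m ∈ range N, q ^ m) := by
          rw [← Real.exp_sum, ← sum_mul, mul_comm]
      _ ≤ Real.exp (bl s * (1 - q)⁻¹) := by
          refine Real.exp_le_exp.mpr (mul_le_mul_of_nonneg_left ?_ (bl_nonneg hs))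
          rw [← tsum_geometric_of_lt_one hq hq1]
          exact (summable_geometric_of_lt_one hq hq1).sum_le_tsum _ fun m _ => pow_nonneg hq m

/-- the full sum -/
noncomputable def St (q : ℝ) (ω : ℕ → ℝ × ℝ) : ℝ := ∑' m, q ^ m * xa (ω m)

/-- exponential moments of the full sum -/
theorem St_exp {q s : ℝ} (hq : 0 ≤ q) (hq1 : q < 1) (hs : 0 < s) :
    (∀ᵐ ω ∂gp, Summable fun m => q ^ m * xa (ω m)) ∧ Integrable (fun ω => Real.exp (s * St q ω)) gp := by
  have h0 : ∀ (ω : ℕ → ℝ × ℝ) (m : ℕ), 0 ≤ q ^ m * xa (ω m) := fun ω m => mul_nonneg (pow_nonneg hq m) (xa_nonneg _)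
  have hmono : ∀ ω, Monotone fun N => Sp q N ω := by
    intro ω
    refine monotone_nat_of_le_succ fun N => ?_
    unfold Sp
    rw [sum_range_succ]
    linarith [h0 ω N]
  have hF : ∀ N : ℕ, Continuous fun ω => Real.exp (s * Sp q N ω) := fun N => Real.continuous_exp.comp ((Sp_cont q N).const_mul _)
  have hFm : ∀ N : ℕ, Measurable fun ω => ENNReal.ofReal (Real.exp (s * Sp q N ω)) := fun N => (hF N).measurable.ennreal_ofReal
  have hFmono : Monotone fun N => fun ω => ENNReal.ofReal (Real.exp (s * Sp q N ω)) := by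
    intro N N' hN ω
    exact ENNReal.ofReal_le_ofReal (Real.exp_le_exp.mpr (mul_le_mul_of_nonneg_left (hmono ω hN) hs.le))
  have hsup : ∫⁻ ω, ⨆ N, ENNReal.ofReal (Real.exp (s * Sp q N ω)) ∂gp ≤ ENNReal.ofReal (Real.exp (bl s * (1 - q)⁻¹)) := by
    rw [lintegral_iSup hFm hFmono]
    refine iSup_le fun N => ?_
    obtain ⟨g1, g2'⟩ := Sp_mgf hq hq1 hs.le N
    rw [← ofReal_integral_eq_lintegral_ofReal g1 (Eventually.of_forall fun ω => (Real.exp_pos _).le)]
    exact ENNReal.ofReal_le_ofReal g2'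
  have hae : ∀ᵐ ω ∂gp, ⨆ N, ENNReal.ofReal (Real.exp (s * Sp q N ω)) < ⊤ :=
    ae_lt_top (Measurable.iSup hFm) (hsup.trans_lt ENNReal.ofReal_lt_top).ne
  have hgood : ∀ᵐ ω ∂gp, Summable fun m => q ^ m * xa (ω m) := by
    filter_upwards [hae] with ω hω
    obtain ⟨B, hB⟩ : ∃ B : ℝ, B = (⨆ N, ENNReal.ofReal (Real.exp (s * Sp q N ω))).toReal := ⟨_, rfl⟩
    refine summable_of_sum_range_le (c := Real.log B / s) (h0 ω) fun N => ?_
    have h1 : Real.exp (s * Sp q N ω) ≤ B := by
      rw [hB, ← ENNReal.ofReal_le_iff_le_toReal hω.ne]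
      exact le_iSup (fun N => ENNReal.ofReal (Real.exp (s * Sp q N ω))) N
    have h2 : s * Sp q N ω ≤ Real.log B := by
      have h3 := Real.log_le_log (Real.exp_pos _) h1
      rwa [Real.log_exp] at h3
    rw [le_div_iff₀ hs, mul_comm]
    exact h2
  refine ⟨hgood, ?_⟩
  have hlim : ∀ᵐ ω ∂gp, Tendsto (fun N => Real.exp (s * Sp q N ω)) atTop (𝓝 (Real.exp (s * St q ω))) := by
    filter_upwards [hgood] with ω hω
    exact (Real.continuous_exp.tendsto _).comp (hω.hasSum.tendsto_sum_nat.const_mul s)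
  refine ⟨aestronglyMeasurable_of_tendsto_ae atTop (fun N => (hF N).aestronglyMeasurable) hlim, ?_⟩
  rw [hasFiniteIntegral_iff_ofReal (Eventually.of_forall fun ω => (Real.exp_pos _).le)]
  refine lt_of_le_of_lt (lintegral_mono_ae ?_) (hsup.trans_lt ENNReal.ofReal_lt_top)
  filter_upwards [hlim] with ω hω
  refine le_of_tendsto (ENNReal.tendsto_ofReal hω) (Eventually.of_forall fun N => ?_)
  exact le_iSup (fun N => ENNReal.ofReal (Real.exp (s * Sp q N ω))) N

end Pool.Agent.R313.CX
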