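import Pool.Agent.R313.CX.Q

set_option autoImplicit false

/-! The Gaussian analytic field on the right half plane. -/

namespace Pool.Agent.R313.CX

open Finset Filter MeasureTheory Topology ProbabilityTheory

/-- the terms of the series -/
noncomputable def ft (ω : ℕ → ℝ × ℝ) (z : ℂ) (m : ℕ) : ℂ := z ^ (m + 1) * gs (ω m) / ((Real.sqrt ((m:ℝ) + 1) : ℝ) : ℂ)

/-- the series -/
noncomputable def fs (ω : ℕ → ℝ × ℝ) (z : ℂ) : ℂ := ∑' m, ft ω z m

lemma ft_norm {q : ℝ} (hq : 0 ≤ q) (hq1 : q ≤ 1) {z : ℂ} (hz : ‖z‖ ≤ q) (ω : ℕ → ℝ × ℝ) (m : ℕ) : ‖ft ω z m‖ ≤ q ^ m * xa (ω m) := by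
  unfold ft
  rw [norm_div, Complex.norm_real, Real.norm_of_nonneg (Real.sqrt_nonneg _)]
  have h1 : (1:ℝ) ≤ Real.sqrt ((m:ℝ) + 1) := by
    rw [Real.one_le_sqrt]
    have : (0:ℝ) ≤ m := Nat.cast_nonneg m
    linarith
  refine (div_le_self (norm_nonneg _) h1).trans ?_
  rw [norm_mul, norm_pow]
  refine mul_le_mul ?_ (gs_norm _) (norm_nonneg _) (pow_nonneg hq m)
  refine (pow_le_pow_left₀ (norm_nonneg z) hz (m + 1)).trans ?_
  exact pow_le_pow_of_le_one hq hq1 (Nat.le_succ m)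

lemma ft_hasSum {q : ℝ} (hq : 0 ≤ q) (hq1 : q ≤ 1) {z : ℂ} (hz : ‖z‖ ≤ q) {ω : ℕ → ℝ × ℝ} (hω : Summable fun m => q ^ m * xa (ω m)) :
    HasSum (ft ω z) (fs ω z) :=
  (Summable.of_norm_bounded hω fun m => ft_norm hq hq1 hz ω m).hasSum

lemma fs_norm {q : ℝ} (hq : 0 ≤ q) (hq1 : q ≤ 1) {z : ℂ} (hz : ‖z‖ ≤ q) {ω : ℕ → ℝ × ℝ} (hω : Summable fun m => q ^ m * xa (ω m)) :
    ‖fs ω z‖ ≤ St q ω :=
  tsum_of_norm_bounded hω.hasSum fun m => ft_norm hq hq1 hz ω m

lemma ft_diff (ω : ℕ → ℝ × ℝ) (m : ℕ) : Differentiable ℂ fun z => ft ω z m := by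
  unfold ft
  fun_prop

lemma ft_cont (z : ℂ) (m : ℕ) : Continuous fun ω => ft ω z m := by
  unfold ft
  exact ((gs_cont.comp (continuous_apply m)).const_mul _).div_const _

lemma fs_diff {q : ℝ} (hq : 0 ≤ q) (hq1 : q ≤ 1) {ω : ℕ → ℝ × ℝ} (hω : Summable fun m => q ^ m * xa (ω m)) :
    DifferentiableOn ℂ (fs ω) (Metric.ball 0 q) := by
  refine Complex.differentiableOn_tsum_of_summable_norm hω (fun m => (ft_diff ω m).differentiableOn) Metric.isOpen_ball fun m z hz => ?_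
  exact ft_norm hq hq1 (mem_ball_zero_iff.mp hz).le ω m

lemma fs_meas {z : ℂ} (hz : ‖z‖ < 1) : AEStronglyMeasurable (fun ω => fs ω z) gp := by
  refine aestronglyMeasurable_of_tendsto_ae atTop (f := fun N ω => ∑ m ∈ range N, ft ω z m)
    (fun N => (continuous_finsetSum _ fun m _ => ft_cont z m).aestronglyMeasurable) ?_
  filter_upwards [(St_exp (norm_nonneg z) hz one_pos).1] with ω hω
  exact (ft_hasSum (norm_nonneg z) hz.le le_rfl hω).tendsto_sum_nat

/-- the field -/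
noncomputable def fld (k : ℝ) (ω : ℕ → ℝ × ℝ) (w : ℂ) : ℂ := -(k * Complex.log ((1 + w) / 2)) + fs ω ((w - 1) / (w + 1))

lemma node_mu (k a : ℝ) : -((k:ℂ) * Complex.log ((1 + (1 + (a : ℂ) * Complex.I)) / 2)) = mu k a := by
  unfold mu
  congr 3
  ring

lemma node_zp (a : ℝ) : ((1 + (a : ℂ) * Complex.I) - 1) / ((1 + (a : ℂ) * Complex.I) + 1) = zp a := by
  unfold zp
  have h1 := base_ne a
  have h2 : (1 + (a : ℂ) * Complex.I) + 1 ≠ 0 := by
    intro h
    apply h1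
    linear_combination h / 2
  rw [div_eq_div_iff h2 h1]
  ring

lemma fld_node (k : ℝ) (ω : ℕ → ℝ × ℝ) (a : ℝ) : fld k ω (1 + (a : ℂ) * Complex.I) = mu k a + fs ω (zp a) := by
  unfold fld
  rw [node_mu, node_zp]

variable {n : ℕ}

/-- the values at the nodes -/
noncomputable def fv (k : ℝ) (a : Fin n → ℝ) (ω : ℕ → ℝ × ℝ) : Fin n → ℂ := fun j => fld k ω (1 + (a j : ℂ) * Complex.I)

lemma fv_meas (k : ℝ) (a : Fin n → ℝ) : AEMeasurable (fv k a) gp := by
  refine aemeasurable_pi_lambda _ fun j => ?_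
  have e1 : (fun ω => fv k a ω j) = fun ω => mu k (a j) + fs ω (zp (a j)) := by
    funext ω
    exact fld_node k ω (a j)
  rw [e1]
  exact ((fs_meas (zp_norm (a j))).aemeasurable).const_add _

/-- a common radius -/
lemma rad (a : Fin n → ℝ) : ∃ q : ℝ, 0 ≤ q ∧ q < 1 ∧ ∀ j, ‖zp (a j)‖ ≤ q := by
  rcases isEmpty_or_nonempty (Fin n) with h | h
  · exact ⟨0, le_rfl, one_pos, fun j => (IsEmpty.false j).elim⟩
  · obtain ⟨i, hi⟩ := Finite.exists_max fun j => ‖zp (a j)‖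
    exact ⟨‖zp (a i)‖, norm_nonneg _, zp_norm _, hi⟩

/-- exponential moments of the values -/
lemma fv_exp (k : ℝ) (a : Fin n → ℝ) (s : ℝ) : Integrable (fun ω => Real.exp (s * ‖fv k a ω‖)) gp := by
  obtain ⟨q, hq, hq1, hz⟩ := rad a
  obtain ⟨M, hM⟩ : ∃ M : ℝ, M = ∑ j, ‖mu k (a j)‖ := ⟨_, rfl⟩
  have hM0 : 0 ≤ M := by rw [hM]; exact Finset.sum_nonneg fun _ _ => norm_nonneg _
  obtain ⟨g1, g3⟩ := St_exp (s := |s| + 1) hq hq1 (by positivity)
  refine (g3.const_mul (Real.exp (|s| * M))).mono' ?_ ?_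
  · exact (by fun_prop : Continuous fun z : Fin n → ℂ => Real.exp (s * ‖z‖)).comp_aestronglyMeasurable (fv_meas k a).aestronglyMeasurable
  · filter_upwards [g1] with ω hω
    have hS : 0 ≤ St q ω := tsum_nonneg fun m => mul_nonneg (pow_nonneg hq m) (xa_nonneg _)
    have hb : ‖fv k a ω‖ ≤ M + St q ω := by
      refine (pi_norm_le_iff_of_nonneg (by linarith)).mpr fun j => ?_
      unfold fv
      rw [fld_node]
      refine (norm_add_le _ _).trans (add_le_add ?_ (fs_norm hq hq1.le (hz j) hω))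
      rw [hM]
      exact Finset.single_le_sum (f := fun j => ‖mu k (a j)‖) (fun _ _ => norm_nonneg _) (Finset.mem_univ j)
    rw [Real.norm_of_nonneg (Real.exp_pos _).le, ← Real.exp_add]
    refine Real.exp_le_exp.mpr ?_
    have h2 : s * ‖fv k a ω‖ ≤ |s| * ‖fv k a ω‖ := mul_le_mul_of_nonneg_right (le_abs_self s) (norm_nonneg _)
    have h3 := mul_le_mul_of_nonneg_left hb (abs_nonneg s)
    linarith

/-- the joint Laplace transform of the values -/
lemma fv_law (k : ℝ) (a : Fin n → ℝ) (α β : Fin n → ℂ) :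
    ∫ ω, Complex.exp (∑ j, (α j * fv k a ω j + β j * (starRingEnd ℂ) (fv k a ω j))) ∂gp =
      Complex.exp (∑ j, (α j * mu k (a j) + β j * (starRingEnd ℂ) (mu k (a j))) + ∑ i, ∑ j, α i * β j * Cv (a i) (a j)) := by
  obtain ⟨q, hq, hq1, hz⟩ := rad a
  obtain ⟨C, hC⟩ : ∃ C : ℝ, C = ∑ j, (‖α j‖ + ‖β j‖) := ⟨_, rfl⟩
  have hC0 : 0 ≤ C := by rw [hC]; exact Finset.sum_nonneg fun _ _ => by positivity
  obtain ⟨hgood, hSi⟩ := St_exp (s := C + 1) hq hq1 (by positivity)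
  obtain ⟨c, hc⟩ : ∃ c : ℕ → Fin n → ℂ, ∀ m j, c m j = zp (a j) ^ (m + 1) / ((Real.sqrt ((m:ℝ) + 1) : ℝ) : ℂ) := ⟨fun m j => _, fun _ _ => rfl⟩
  have hft : ∀ (ω : ℕ → ℝ × ℝ) (m : ℕ) (j : Fin n), ft ω (zp (a j)) m = c m j * gs (ω m) := by
    intro ω m j
    rw [hc]
    unfold ft
    ring
  obtain ⟨A, hA⟩ : ∃ A : ℕ → ℂ, ∀ m, A m = ∑ j, α j * c m j := ⟨_, fun _ => rfl⟩
  obtain ⟨B, hB⟩ : ∃ B : ℕ → ℂ, ∀ m, B m = ∑ j, β j * (starRingEnd ℂ) (c m j) := ⟨_, fun _ => rfl⟩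
  obtain ⟨D, hD⟩ : ∃ D : ℂ, D = ∑ j, (α j * mu k (a j) + β j * (starRingEnd ℂ) (mu k (a j))) := ⟨_, rfl⟩
  have hterm : ∀ (ω : ℕ → ℝ × ℝ) (m : ℕ), ∑ j, (α j * ft ω (zp (a j)) m + β j * (starRingEnd ℂ) (ft ω (zp (a j)) m)) = A m * gs (ω m) + B m * (starRingEnd ℂ) (gs (ω m)) := by
    intro ω m
    rw [hA, hB, Finset.sum_mul, Finset.sum_mul, ← Finset.sum_add_distrib]
    refine Finset.sum_congr rfl fun j _ => ?_
    rw [hft, map_mul]
    ring
  have htb : ∀ (ω : ℕ → ℝ × ℝ) (m : ℕ), ‖A m * gs (ω m) + B m * (starRingEnd ℂ) (gs (ω m))‖ ≤ C * (q ^ m * xa (ω m)) := by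
    intro ω m
    rw [← hterm, hC, Finset.sum_mul]
    refine (norm_sum_le _ _).trans (Finset.sum_le_sum fun j _ => (norm_add_le _ _).trans ?_)
    rw [norm_mul, norm_mul, Complex.norm_conj, ← add_mul]
    exact mul_le_mul_of_nonneg_left (ft_norm hq hq1.le (hz j) ω m) (by positivity)
  -- the partial sums
  obtain ⟨F, hF⟩ : ∃ F : ℕ → (ℕ → ℝ × ℝ) → ℂ, ∀ N ω, F N ω = Complex.exp (D + ∑ m ∈ range N, (A m * gs (ω m) + B m * (starRingEnd ℂ) (gs (ω m)))) :=
    ⟨fun N ω => _, fun _ _ => rfl⟩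
  have hFc : ∀ N, Continuous (F N) := by
    intro N
    have e1 : F N = fun ω => Complex.exp (D + ∑ m ∈ range N, (A m * gs (ω m) + B m * (starRingEnd ℂ) (gs (ω m)))) := funext (hF N)
    rw [e1]
    refine Complex.continuous_exp.comp (continuous_const.add (continuous_finsetSum _ fun m _ => ?_))
    exact ((gs_cont.comp (continuous_apply m)).const_mul _).add ((Complex.continuous_conj.comp (gs_cont.comp (continuous_apply m))).const_mul _)
  have hint : ∀ N, ∫ ω, F N ω ∂gp = Complex.exp (D + ∑ m ∈ range N, A m * B m) := by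
    intro N
    have e1 : ∀ ω, F N ω = Complex.exp D * ∏ m ∈ range N, Complex.exp (A m * gs (ω m) + B m * (starRingEnd ℂ) (gs (ω m))) := by
      intro ω
      rw [hF, Complex.exp_add, Complex.exp_sum]
    simp_rw [e1]
    rw [integral_const_mul, gp_prod N (fun m x => Complex.exp (A m * gs x + B m * (starRingEnd ℂ) (gs x))) (fun m =>
      Complex.continuous_exp.comp ((gs_cont.const_mul _).add ((Complex.continuous_conj.comp gs_cont).const_mul _))),
      Complex.exp_add, Complex.exp_sum]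
    congr 1
    exact Finset.prod_congr rfl fun m _ => gs_exp (A m) (B m)
  -- the limits
  have hlimF : Tendsto (fun N => ∫ ω, F N ω ∂gp) atTop (𝓝 (∫ ω, Complex.exp (∑ j, (α j * fv k a ω j + β j * (starRingEnd ℂ) (fv k a ω j))) ∂gp)) := by
    refine tendsto_integral_of_dominated_convergence (fun ω => Real.exp ‖D‖ * Real.exp ((C + 1) * St q ω)) (fun N => (hFc N).aestronglyMeasurable)
      (hSi.const_mul _) (fun N => ?_) ?_
    · filter_upwards [hgood] with ω hω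
      have hS : 0 ≤ St q ω := tsum_nonneg fun m => mul_nonneg (pow_nonneg hq m) (xa_nonneg _)
      rw [hF, Complex.norm_exp, ← Real.exp_add]
      refine Real.exp_le_exp.mpr ?_
      rw [Complex.add_re]
      refine add_le_add (Complex.re_le_norm D) ?_
      refine (Complex.re_le_norm _).trans ((norm_sum_le _ _).trans ((Finset.sum_le_sum fun m _ => htb ω m).trans ?_))
      rw [← Finset.mul_sum]
      have h1 : ∑ m ∈ range N, q ^ m * xa (ω m) ≤ St q ω := hω.sum_le_tsum _ fun m _ => mul_nonneg (pow_nonneg hq m) (xa_nonneg _)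
      have h2 := mul_le_mul_of_nonneg_left h1 hC0
      linarith
    · filter_upwards [hgood] with ω hω
      have h1 : HasSum (fun m => A m * gs (ω m) + B m * (starRingEnd ℂ) (gs (ω m)))
          (∑ j, (α j * fs ω (zp (a j)) + β j * (starRingEnd ℂ) (fs ω (zp (a j))))) := by
        have h2 : HasSum (fun m => ∑ j, (α j * ft ω (zp (a j)) m + β j * (starRingEnd ℂ) (ft ω (zp (a j)) m)))
            (∑ j, (α j * fs ω (zp (a j)) + β j * (starRingEnd ℂ) (fs ω (zp (a j))))) := by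
          refine hasSum_sum fun j _ => ?_
          have h3 := ft_hasSum hq hq1.le (hz j) hω
          have h4 : HasSum (fun m => (starRingEnd ℂ) (ft ω (zp (a j)) m)) ((starRingEnd ℂ) (fs ω (zp (a j)))) :=
            h3.map (starRingEnd ℂ) Complex.continuous_conj
          exact (h3.mul_left _).add (h4.mul_left _)
        simp_rw [hterm] at h2
        exact h2
      have e1 : ∑ j, (α j * fv k a ω j + β j * (starRingEnd ℂ) (fv k a ω j)) =
          D + ∑ j, (α j * fs ω (zp (a j)) + β j * (starRingEnd ℂ) (fs ω (zp (a j)))) := by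
        rw [hD, ← Finset.sum_add_distrib]
        refine Finset.sum_congr rfl fun j _ => ?_
        unfold fv
        rw [fld_node, map_add]
        ring
      rw [e1]
      have h5 := (Complex.continuous_exp.tendsto _).comp (h1.tendsto_sum_nat.const_add D)
      refine h5.congr fun N => ?_
      rw [hF]
      rfl
  have hAB : HasSum (fun m => A m * B m) (∑ i, ∑ j, α i * β j * Cv (a i) (a j)) := by
    have h1 : ∀ i j, HasSum (fun m : ℕ => zp (a i) ^ (m + 1) * (starRingEnd ℂ) (zp (a j)) ^ (m + 1) / ((m:ℂ) + 1)) (Cv (a i) (a j)) := by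
      intro i j
      have h2 := (hasSum_nat_add_iff' 1).mpr (Cv_series (a i) (a j))
      simp only [sum_range_one, Nat.cast_zero, div_zero, sub_zero] at h2
      have e1 : (fun m : ℕ => zp (a i) ^ (m + 1) * (starRingEnd ℂ) (zp (a j)) ^ (m + 1) / ((m:ℂ) + 1)) =
          fun m : ℕ => zp (a i) ^ (m + 1) * (starRingEnd ℂ) (zp (a j)) ^ (m + 1) / ((m + 1 : ℕ) : ℂ) := by
        funext m
        push_cast
        rfl
      rw [e1]
      exact h2
    have h3 : HasSum (fun m : ℕ => ∑ i, ∑ j, α i * β j * (zp (a i) ^ (m + 1) * (starRingEnd ℂ) (zp (a j)) ^ (m + 1) / ((m:ℂ) + 1)))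
        (∑ i, ∑ j, α i * β j * Cv (a i) (a j)) := hasSum_sum fun i _ => hasSum_sum fun j _ => (h1 i j).mul_left _
    have e1 : (fun m => A m * B m) = fun m : ℕ => ∑ i, ∑ j, α i * β j * (zp (a i) ^ (m + 1) * (starRingEnd ℂ) (zp (a j)) ^ (m + 1) / ((m:ℂ) + 1)) := by
      funext m
      rw [hA, hB, Finset.sum_mul_sum]
      refine Finset.sum_congr rfl fun i _ => Finset.sum_congr rfl fun j _ => ?_
      rw [hc, hc, map_div₀, map_pow, Complex.conj_ofReal]
      have hs : (((Real.sqrt ((m:ℝ) + 1) : ℝ) : ℂ)) * ((Real.sqrt ((m:ℝ) + 1) : ℝ) : ℂ) = (m:ℂ) + 1 := by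
        rw [← Complex.ofReal_mul, Real.mul_self_sqrt (by positivity)]
        push_cast
        rfl
      rw [← hs]
      have hs0 : ((Real.sqrt ((m:ℝ) + 1) : ℝ) : ℂ) ≠ 0 := by
        have : Real.sqrt ((m:ℝ) + 1) ≠ 0 := by positivity
        exact_mod_cast this
      field_simp
    rw [e1]
    exact h3
  have hlim2 : Tendsto (fun N => ∫ ω, F N ω ∂gp) atTop (𝓝 (Complex.exp (D + ∑ i, ∑ j, α i * β j * Cv (a i) (a j)))) := by
    simp_rw [hint]
    exact (Complex.continuous_exp.tendsto _).comp (hAB.tendsto_sum_nat.const_add D)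
  rw [← hD]
  exact tendsto_nhds_unique hlimF hlim2

end Pool.Agent.R313.CX
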