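import Pool.Agent.R313.CX.G
import Pool.Agent.R313.CX.O
import Pool.Agent.R313.CX.P
import Pool.Agent.R313.CX.S

set_option autoImplicit false

/-! The unit disc and the half plane. -/

namespace Pool.Agent.R313.CX

open Finset Filter MeasureTheory Topology ProbabilityTheory
open Pool.Agent.R313.FN (rc rc_compact sup_le_area gz)

/-- from the disc to the half plane -/
noncomputable def hp (z : ℂ) : ℂ := (1 + z) / (1 - z)

lemma one_sub_ne {z : ℂ} (hz : ‖z‖ < 1) : 1 - z ≠ 0 := by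
  intro h
  have h1 : z = 1 := by linear_combination -h
  rw [h1, norm_one] at hz
  exact lt_irrefl _ hz

lemma hp_re {z : ℂ} (hz : ‖z‖ < 1) : 0 < (hp z).re := by
  have h1 := one_sub_ne hz
  have h2 : 0 < Complex.normSq (1 - z) := Complex.normSq_pos.mpr h1
  have h3 : Complex.normSq z < 1 := by
    rw [Complex.normSq_eq_norm_sq]
    have := norm_nonneg z
    nlinarith
  unfold hp
  rw [Complex.div_re, ← add_div]
  refine div_pos ?_ h2
  rw [Complex.normSq_apply] at h3
  simp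
  nlinarith

lemma hp_diff {z : ℂ} (hz : ‖z‖ < 1) : DifferentiableAt ℂ hp z := by
  unfold hp
  exact DifferentiableAt.div (by fun_prop) (by fun_prop) (one_sub_ne hz)

lemma re_one_ne {w : ℂ} (hw : 0 < w.re) : w + 1 ≠ 0 := by
  intro h
  have h1 := congrArg Complex.re h
  simp at h1
  linarith

lemma psi_hp {z : ℂ} (hz : ‖z‖ < 1) : (hp z - 1) / (hp z + 1) = z := by
  have h1 := one_sub_ne hz
  rw [div_eq_iff (re_one_ne (hp_re hz))]
  unfold hp
  field_simp
  ring

lemma hp_psi {w : ℂ} (hw : 0 < w.re) : hp ((w - 1) / (w + 1)) = w := by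
  have h1 := re_one_ne hw
  unfold hp
  have h2 : 1 - (w - 1) / (w + 1) = 2 / (w + 1) := by
    field_simp
    ring
  have h3 : 1 + (w - 1) / (w + 1) = 2 * w / (w + 1) := by
    field_simp
    ring
  rw [h2, h3]
  field_simp

lemma psi_norm {w : ℂ} (hw : 0 < w.re) : ‖(w - 1) / (w + 1)‖ < 1 := by
  have h1 := re_one_ne hw
  have h2 : 0 < ‖w + 1‖ := norm_pos_iff.mpr h1
  rw [norm_div, div_lt_one h2]
  refine lt_of_pow_lt_pow_left₀ 2 (norm_nonneg _) ?_
  rw [← Complex.normSq_eq_norm_sq, ← Complex.normSq_eq_norm_sq, Complex.normSq_apply, Complex.normSq_apply]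
  simp
  nlinarith

lemma hp_zp (a : ℝ) : hp (zp a) = 1 + (a : ℂ) * Complex.I := by
  rw [← node_zp]
  exact hp_psi (by simp)

lemma zp_le (a : ℝ) : ‖zp a‖ ≤ |a| / 2 := by
  unfold zp
  rw [norm_div]
  have h1 : 1 ≤ ‖1 + Complex.I * (a : ℂ) / 2‖ := by
    have h2 := Complex.abs_re_le_norm (1 + Complex.I * (a : ℂ) / 2)
    have h3 : (1 + Complex.I * (a : ℂ) / 2).re = 1 := by simp
    rwa [h3, abs_one] at h2
  refine (div_le_self (norm_nonneg _) h1).trans (le_of_eq ?_)
  rw [norm_div, norm_mul, Complex.norm_I, one_mul, Complex.norm_real, Real.norm_eq_abs]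
  norm_num

lemma zp_inj {a b : ℝ} (h : zp a = zp b) : a = b := by
  have h1 := congrArg hp h
  rw [hp_zp, hp_zp] at h1
  have h2 := congrArg Complex.im h1
  simpa using h2

/-- the image of a disc -/
lemma hp_rc {R : ℝ} (hR : R < 1) : ∃ a B : ℝ, 0 < a ∧ 0 < B ∧ ∀ z ∈ Metric.closedBall (0:ℂ) R, hp z ∈ rc a B B := by
  have hlt : ∀ z ∈ Metric.closedBall (0:ℂ) R, ‖z‖ < 1 := fun z hz => (mem_closedBall_zero_iff.mp hz).trans_lt hR
  have hcont : ContinuousOn hp (Metric.closedBall (0:ℂ) R) := fun z hz => (hp_diff (hlt z hz)).continuousAt.continuousWithinAt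
  obtain ⟨B, hB⟩ := (isCompact_closedBall (0:ℂ) R).exists_bound_of_continuousOn hcont
  rcases lt_or_ge R 0 with h0 | h0
  · refine ⟨1, 1, one_pos, one_pos, fun z hz => ?_⟩
    have := (norm_nonneg z).trans (mem_closedBall_zero_iff.mp hz)
    linarith
  · obtain ⟨z0, hz0, hmin⟩ := (isCompact_closedBall (0:ℂ) R).exists_isMinOn ⟨0, Metric.mem_closedBall_self h0⟩
      (Complex.continuous_re.comp_continuousOn hcont)
    have hB0 : 0 ≤ B := (norm_nonneg _).trans (hB z0 hz0)
    refine ⟨(hp z0).re, B + 1, hp_re (hlt _ hz0), by linarith, fun z hz => ⟨hmin hz, ?_, ?_⟩⟩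
    · have := (Complex.re_le_norm (hp z)).trans (hB z hz)
      linarith
    · have := (Complex.abs_im_le_norm (hp z)).trans (hB z hz)
      linarith

lemma mean_diff (k : ℝ) {z : ℂ} (hz : ‖z‖ < 1) : DifferentiableAt ℂ (fun z => -((k:ℂ) * Complex.log ((1 + hp z) / 2))) z := by
  have h1 := hp_diff hz
  have hre := hp_re hz
  refine DifferentiableAt.neg (DifferentiableAt.const_mul (DifferentiableAt.clog (by fun_prop) ?_) _)
  left
  show 0 < ((1 + hp z) / 2).re
  have : ((1 + hp z) / 2).re = (1 + (hp z).re) / 2 := by simp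
  rw [this]
  linarith

/-- the field is differentiable -/
lemma fld_diff {k q : ℝ} (hq : 0 ≤ q) (hq1 : q < 1) {ω : ℕ → ℝ × ℝ} (hω : Summable fun m => q ^ m * xa (ω m)) {z : ℂ} (hz : ‖z‖ < q) :
    DifferentiableAt ℂ (fun z => Complex.exp (fld k ω (hp z))) z := by
  have hz1 : ‖z‖ < 1 := hz.trans hq1
  have h1 := hp_diff hz1
  have hre := hp_re hz1
  unfold fld
  refine DifferentiableAt.cexp (DifferentiableAt.add (mean_diff k hz1) ?_)
  · have h2 : DifferentiableAt ℂ (fun z => (hp z - 1) / (hp z + 1)) z :=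
      DifferentiableAt.div (h1.sub_const 1) (h1.add_const 1) (re_one_ne hre)
    refine DifferentiableAt.comp (g := fs ω) (f := fun z => (hp z - 1) / (hp z + 1)) z ?_ h2
    rw [psi_hp hz1]
    exact ((fs_diff hq hq1.le hω) z (mem_ball_zero_iff.mpr hz)).differentiableAt (Metric.isOpen_ball.mem_nhds (mem_ball_zero_iff.mpr hz))

/-- the field is bounded -/
lemma fld_bound {k R q : ℝ} (hR : R < q) (hq : 0 ≤ q) (hq1 : q < 1) : ∃ L : ℝ, 0 ≤ L ∧ ∀ ω : ℕ → ℝ × ℝ,
    Summable (fun m => q ^ m * xa (ω m)) → ∀ z ∈ Metric.closedBall (0:ℂ) R, ‖Complex.exp (fld k ω (hp z))‖ ≤ Real.exp (L + St q ω) := by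
  have hlt : ∀ z ∈ Metric.closedBall (0:ℂ) R, ‖z‖ < 1 := fun z hz => (mem_closedBall_zero_iff.mp hz).trans_lt (hR.trans hq1)
  have hcont : ContinuousOn (fun z => -((k:ℂ) * Complex.log ((1 + hp z) / 2))) (Metric.closedBall (0:ℂ) R) :=
    fun z hz => (mean_diff k (hlt z hz)).continuousAt.continuousWithinAt
  obtain ⟨L, hL⟩ := (isCompact_closedBall (0:ℂ) R).exists_bound_of_continuousOn hcont
  refine ⟨|L|, abs_nonneg L, fun ω hω z hz => ?_⟩
  rw [Complex.norm_exp]
  refine Real.exp_le_exp.mpr ((Complex.re_le_norm _).trans ?_)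
  unfold fld
  refine (norm_add_le _ _).trans (add_le_add ((hL z hz).trans (le_abs_self L)) ?_)
  rw [psi_hp (hlt z hz)]
  exact fs_norm hq hq1.le ((mem_closedBall_zero_iff.mp hz).trans hR.le) hω

end Pool.Agent.R313.CX
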