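import Pool.Agent.R313.CX.R

set_option autoImplicit false

/-! The functional limit theorem. -/

namespace Pool.Agent.R313.CX

open Finset Filter MeasureTheory Topology ProbabilityTheory
open Pool.Agent.Y753.SHR
open Pool.Agent.H306R2 (aF aF_pos)
open Pool.Agent.R313.FN (rc rc_compact sup_le_area gz)

/-- extension by zero -/
noncomputable def ex {n : ℕ} (y : Fin n → ℂ) : ℕ → ℂ := fun l => if h : l < n then y ⟨l, h⟩ else 0

lemma ex_cont {n : ℕ} : Continuous (ex : (Fin n → ℂ) → ℕ → ℂ) := by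
  refine continuous_pi fun l => ?_
  unfold ex
  by_cases h : l < n
  · simp only [h, dite_true]
    exact continuous_apply _
  · simp only [h, dite_false]
    exact continuous_const

lemma ex_smul {n : ℕ} (u : ℂ) (y : Fin n → ℂ) : ex (u • y) = fun l => u * ex y l := by
  funext l
  unfold ex
  by_cases h : l < n
  · simp only [h, dite_true]
    rfl
  · simp only [h, dite_false, mul_zero]

lemma ex_eq {n : ℕ} (y : ℕ → ℂ) : ∀ l < n, ex (fun j : Fin n => y j) l = y l := by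
  intro l hl
  unfold ex
  rw [dif_pos hl]

section side
variable {r k : ℝ}

/-- the nodes in the disc -/
noncomputable def nd (h : ℝ) (l : ℕ) : ℂ := zp (h / ((l : ℝ) + 1))

lemma nd_norm {h : ℝ} (hh : 0 ≤ h) (l : ℕ) : ‖nd h l‖ ≤ h := by
  have h1 : (0:ℝ) ≤ l := Nat.cast_nonneg l
  refine (zp_le _).trans ?_
  have h2 : h / ((l : ℝ) + 1) ≤ h := div_le_self hh (by linarith)
  have h3 : 0 ≤ h / ((l : ℝ) + 1) := by positivity
  rw [abs_of_nonneg h3]
  linarith

lemma nd_inj {h : ℝ} (hh : 0 < h) : Function.Injective (nd h) := by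
  intro i j hij
  have h1 := zp_inj hij
  rw [div_eq_div_iff (by positivity) (by positivity)] at h1
  have h2 := mul_left_cancel₀ hh.ne' h1
  have h3 : (j:ℝ) = i := by linarith
  exact_mod_cast h3.symm

/-- the zeta function on the disc -/
lemma zt_cont {r δ b : ℝ} {a B : ℝ} (hrc : ∀ z ∈ Metric.closedBall (0:ℂ) r, hp z ∈ rc a B B) (hb : B < b) (hδ : 0 < δ) (hδ1 : δ * b ≤ 1 / 2)
    (hr1 : r < 1) : Continuous (fun t : ℝ => rs (Metric.closedBall (0:ℂ) r) (fun z => gz δ t (hp z))) ∧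
      ∀ t, ContinuousOn (fun z => gz δ t (hp z)) (Metric.closedBall (0:ℂ) r) := by
  have hlt : ∀ z ∈ Metric.closedBall (0:ℂ) r, ‖z‖ < 1 := fun z hz => (mem_closedBall_zero_iff.mp hz).trans_lt hr1
  have hcont : ContinuousOn hp (Metric.closedBall (0:ℂ) r) := fun z hz => (hp_diff (hlt z hz)).continuousAt.continuousWithinAt
  have hj : Continuous fun p : ℝ × Metric.closedBall (0:ℂ) r => gz δ p.1 (hp p.2) := by
    have h1 := gzB_jc (b := b) hδ hδ1
    refine h1.comp_continuous (f := fun p : ℝ × Metric.closedBall (0:ℂ) r => (p.1, hp p.2)) ?_ fun p => ⟨Set.mem_univ _, rc_UB hb (hrc _ p.2.2)⟩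
    exact continuous_fst.prodMk ((continuousOn_iff_continuous_domRestrict.mp hcont).comp continuous_snd)
  have hon : ∀ t, ContinuousOn (fun z => gz δ t (hp z)) (Metric.closedBall (0:ℂ) r) := by
    intro t
    rw [continuousOn_iff_continuous_domRestrict]
    exact hj.comp (continuous_const.prodMk continuous_id)
  refine ⟨?_, hon⟩
  have e1 : (fun t : ℝ => rs (Metric.closedBall (0:ℂ) r) (fun z => gz δ t (hp z))) =
      ContinuousMap.curry ⟨fun p : ℝ × Metric.closedBall (0:ℂ) r => gz δ p.1 (hp p.2), hj⟩ := by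
    funext t
    ext z
    rw [rs_apply (hon t)]
    rfl
  rw [e1]
  exact (ContinuousMap.curry _).continuous

/-- the side of zeta -/
theorem zside {δ : ℝ → ℝ} (hδ : Tendsto δ atTop (𝓝 0))
    (hδL : Tendsto (fun T : ℝ => δ T * Real.log T) atTop atTop) (hk : 0 < k) (hk2 : k ≤ 2) {R : ℝ} (hrR : r < R) (hr0 : 0 ≤ r) (hR : R < 1)
    {x : ℕ → ℂ} (hx : ∀ l, ‖x l‖ ≤ r) :
    ∃ C : ℝ, 0 ≤ C ∧ ∀ (Φ : C(Metric.closedBall (0:ℂ) r, ℂ) → ℂ) (n : ℕ) (η : ℝ), Continuous Φ → 0 < η →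
      (∀ (f : ℂ → ℂ) (M : ℝ), DiffContOnCl ℂ f (Metric.ball 0 R) → (∀ z ∈ Metric.closedBall (0:ℂ) R, ‖f z‖ ≤ M) →
        ‖Φ (rs (Metric.closedBall (0:ℂ) r) f) - Φ (pn 0 r x n (fun l => f (x l)))‖ ≤ η * M ^ (2 * k)) →
      ∀ᶠ T in atTop, ‖(((2 * δ T) ^ (k ^ 2) / T : ℝ) : ℂ) * (∫ t in Set.Icc 0 T, Φ (rs (Metric.closedBall (0:ℂ) r) (fun z => gz (δ T) t (hp z)))) -
        (((2 * δ T) ^ (k ^ 2) / T : ℝ) : ℂ) * ∫ t in Set.Icc 0 T, Φ (pn 0 r x n (fun l => gz (δ T) t (hp (x l))))‖ ≤ η * C := by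
  obtain ⟨a, B, ha, hB, hrc⟩ := hp_rc hR
  obtain ⟨C1, hC1, hsup⟩ := sup_le_area (β := 2 * k) (by positivity) (a := a) (b := B) (a' := a / 2) (b' := B + 1) (B := B) (B' := B + 1)
    (by linarith) (by linarith) (by linarith)
  obtain ⟨C2, hmass⟩ := Ib_mass (β := 2 * k) (by positivity) (by linarith) (a' := a / 2) (b' := B + 1) (by positivity) (B + 1) hδ hδL
  have hpos : ∀ᶠ T in atTop, 0 < δ T := by
    filter_upwards [hδL.eventually_gt_atTop 0, eventually_gt_atTop 1] with T hT hT1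
    exact (pos_iff_pos_of_mul_pos hT).mpr (Real.log_pos hT1)
  have hbδ : ∀ᶠ T in atTop, (B + 1 + 1) * δ T < 1 / 2 := by
    have h1 : Tendsto (fun T => (B + 1 + 1) * δ T) atTop (𝓝 ((B + 1 + 1) * 0)) := hδ.const_mul _
    rw [mul_zero] at h1
    exact h1.eventually (gt_mem_nhds (by norm_num))
  have hsubr : Metric.closedBall (0:ℂ) r ⊆ Metric.closedBall (0:ℂ) R := Metric.closedBall_subset_closedBall hrR.le
  have hcl : closure (Metric.ball (0:ℂ) R) = Metric.closedBall 0 R := closure_ball 0 (by linarith)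
  have hsub : rc (a / 2) (B + 1) (B + 1) ⊆ UB (B + 1 + 1) := rc_UB (by linarith)
  have hsub2 : rc a B B ⊆ UB (B + 1 + 1) := rc_UB (by linarith)
  refine ⟨C1 * |C2|, by positivity, fun Φ n η hc hη happ => ?_⟩
  filter_upwards [hmass, hpos, hbδ, eventually_gt_atTop 0] with T h1 h2 h3 h4
  have h3' : δ T * (B + 1 + 1) ≤ 1 / 2 := by rw [mul_comm]; exact h3.le
  obtain ⟨hcont, hon⟩ := zt_cont (r := r) (δ := δ T) (b := B + 1 + 1) (fun z hz => hrc z (hsubr hz)) (by linarith) h2 h3' (hrR.trans hR)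
  have hv0 : 0 ≤ (2 * δ T) ^ (k ^ 2) / T := by positivity
  have hmem : ∀ l, x l ∈ Metric.closedBall (0:ℂ) r := fun l => mem_closedBall_zero_iff.mpr (hx l)
  have hcn : Continuous fun t : ℝ => Φ (pn 0 r x n (fun l => gz (δ T) t (hp (x l)))) := by
    refine hc.comp ((pn_cont 0 r x n).comp (continuous_pi fun l => ?_))
    have h5 := (gzB_jc (b := B + 1 + 1) h2 h3').comp_continuous (f := fun t : ℝ => (t, hp (x l))) (by fun_prop)
      fun t => ⟨Set.mem_univ _, hsub2 (hrc _ (hsubr (hmem l)))⟩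
    exact h5
  have hcz : Continuous fun t : ℝ => Φ (rs (Metric.closedBall (0:ℂ) r) (fun z => gz (δ T) t (hp z))) := hc.comp hcont
  have hI1 : IntegrableOn (fun t : ℝ => Φ (rs (Metric.closedBall (0:ℂ) r) (fun z => gz (δ T) t (hp z)))) (Set.Icc 0 T) :=
    hcz.continuousOn.integrableOn_compact isCompact_Icc
  have hI2 : IntegrableOn (fun t : ℝ => Φ (pn 0 r x n (fun l => gz (δ T) t (hp (x l))))) (Set.Icc 0 T) :=
    hcn.continuousOn.integrableOn_compact isCompact_Icc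
  have hpt : ∀ t : ℝ, ‖Φ (rs (Metric.closedBall (0:ℂ) r) (fun z => gz (δ T) t (hp z))) - Φ (pn 0 r x n (fun l => gz (δ T) t (hp (x l))))‖ ≤
      η * (C1 * Ib (2 * k) (a / 2) (B + 1) (δ T) (B + 1) t) := by
    intro t
    have hIb : 0 ≤ C1 * Ib (2 * k) (a / 2) (B + 1) (δ T) (B + 1) t := mul_nonneg hC1.le (Ib_nonneg _ _ _ _ _ _)
    have hgd := gzB_diff (b := B + 1 + 1) (t := t) h2 h3'
    have h5 := happ (fun z => gz (δ T) t (hp z)) ((C1 * Ib (2 * k) (a / 2) (B + 1) (δ T) (B + 1) t) ^ (1 / (2 * k))) (by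
      refine DifferentiableOn.diffContOnCl ?_
      rw [hcl]
      intro z hz
      have hz1 : ‖z‖ < 1 := (mem_closedBall_zero_iff.mp hz).trans_lt hR
      have hm : hp z ∈ UB (B + 1 + 1) := hsub2 (hrc z hz)
      have h6 : DifferentiableAt ℂ (gz (δ T) t) (hp z) := (hgd _ hm).differentiableAt ((UB_open _).mem_nhds hm)
      exact (DifferentiableAt.comp (g := gz (δ T) t) (f := hp) z h6 (hp_diff hz1)).differentiableWithinAt) (fun z hz => by
      have h6 := hsup (gz (δ T) t) (UB (B + 1 + 1)) (UB_open _) hsub hgd (hp z) (hrc z hz)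
      have h7 : ‖gz (δ T) t (hp z)‖ = (‖gz (δ T) t (hp z)‖ ^ (2 * k)) ^ (1 / (2 * k)) := by
        rw [← Real.rpow_mul (norm_nonneg _), mul_one_div_cancel (by positivity), Real.rpow_one]
      rw [h7]
      exact Real.rpow_le_rpow (by positivity) h6 (by positivity))
    refine h5.trans (le_of_eq ?_)
    rw [← Real.rpow_mul hIb, one_div_mul_cancel (by positivity), Real.rpow_one]
  obtain ⟨f1, -, -⟩ := Ib_fub (β := 2 * k) (a' := a / 2) (b' := B + 1) (δ := δ T) (Q := B + 1) (T := T) (by positivity) h2 h3'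
  rw [← mul_sub, ← integral_sub hI1 hI2, norm_mul, Complex.norm_real, Real.norm_of_nonneg hv0]
  have h6 : ‖∫ t in Set.Icc 0 T, (Φ (rs (Metric.closedBall (0:ℂ) r) (fun z => gz (δ T) t (hp z))) - Φ (pn 0 r x n (fun l => gz (δ T) t (hp (x l)))))‖ ≤
      ∫ t in Set.Icc 0 T, η * (C1 * Ib (2 * k) (a / 2) (B + 1) (δ T) (B + 1) t) :=
    norm_integral_le_of_norm_le ((f1.const_mul C1).const_mul η) (Eventually.of_forall hpt)
  refine (mul_le_mul_of_nonneg_left h6 hv0).trans ?_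
  rw [integral_const_mul, integral_const_mul]
  have e1 : (2 * k / 2) ^ 2 = k ^ 2 := by ring
  rw [e1] at h1
  have h7 : (2 * δ T) ^ (k ^ 2) / T * ∫ t in Set.Icc 0 T, Ib (2 * k) (a / 2) (B + 1) (δ T) (B + 1) t ≤ |C2| := h1.trans (le_abs_self C2)
  have h8 := mul_le_mul_of_nonneg_left h7 (mul_nonneg hη.le hC1.le)
  calc _ = η * C1 * ((2 * δ T) ^ (k ^ 2) / T * ∫ t in Set.Icc 0 T, Ib (2 * k) (a / 2) (B + 1) (δ T) (B + 1) t) := by ring
    _ ≤ η * C1 * |C2| := h8
    _ = _ := by ring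

end side

end Pool.Agent.R313.CX
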