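import Pool.Agent.R313.CX.U

set_option autoImplicit false

/-! The functional limit theorem: the Gaussian side and the proof. -/

namespace Pool.Agent.R313.CX

open Finset Filter MeasureTheory Topology ProbabilityTheory
open Pool.Agent.Y753.SHR
open Pool.Agent.H306R2 (aF aF_pos)
open Pool.Agent.R313.FN (rc rc_compact sup_le_area gz)

variable {r R q k : ℝ}

/-- the side of the field -/
theorem gside (hk : 0 < k) (hr0 : 0 ≤ r) (hrR : r < R) (hRq : R < q) (hq1 : q < 1) {x : ℕ → ℂ} (hx : ∀ l, ‖x l‖ ≤ r) :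
    ∃ C : ℝ, 0 ≤ C ∧ ∀ Φ : C(Metric.closedBall (0:ℂ) r, ℂ) → ℂ, Continuous Φ →
      (∀ (u : ℂ) (f : C(Metric.closedBall (0:ℂ) r, ℂ)), Φ (u • f) = ((‖u‖ ^ (2 * k) : ℝ) : ℂ) * Φ f) →
      (∀ n, Integrable (fun ω => Φ (pn 0 r x n (fun l => Complex.exp (fld k ω (hp (x l)))))) gp) ∧
      ((∀ η : ℝ, 0 < η → ∃ n : ℕ, ∀ (f : ℂ → ℂ) (M : ℝ), DiffContOnCl ℂ f (Metric.ball 0 R) → (∀ z ∈ Metric.closedBall (0:ℂ) R, ‖f z‖ ≤ M) →
        ‖Φ (rs (Metric.closedBall (0:ℂ) r) f) - Φ (pn 0 r x n (fun l => f (x l)))‖ ≤ η * M ^ (2 * k)) →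
        Integrable (fun ω => Φ (rs (Metric.closedBall (0:ℂ) r) (fun z => Complex.exp (fld k ω (hp z))))) gp ∧
        ∀ (n : ℕ) (η : ℝ), 0 < η →
          (∀ (f : ℂ → ℂ) (M : ℝ), DiffContOnCl ℂ f (Metric.ball 0 R) → (∀ z ∈ Metric.closedBall (0:ℂ) R, ‖f z‖ ≤ M) →
            ‖Φ (rs (Metric.closedBall (0:ℂ) r) f) - Φ (pn 0 r x n (fun l => f (x l)))‖ ≤ η * M ^ (2 * k)) →
          ‖∫ ω, Φ (rs (Metric.closedBall (0:ℂ) r) (fun z => Complex.exp (fld k ω (hp z)))) ∂gp -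
            ∫ ω, Φ (pn 0 r x n (fun l => Complex.exp (fld k ω (hp (x l))))) ∂gp‖ ≤ η * C) := by
  have hq : 0 ≤ q := by linarith
  have hR : R < 1 := by linarith
  obtain ⟨L, hL0, hL⟩ := fld_bound (k := k) hRq hq hq1
  obtain ⟨hgood, hSi⟩ := St_exp (s := 2 * k) hq hq1 (by positivity)
  have hcl : closure (Metric.ball (0:ℂ) R) = Metric.closedBall 0 R := closure_ball 0 (by linarith)
  have hmem : ∀ l, x l ∈ Metric.closedBall (0:ℂ) R := fun l => mem_closedBall_zero_iff.mpr ((hx l).trans hrR.le)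
  have hpow : ∀ ω, Real.exp (L + St q ω) ^ (2 * k) = Real.exp (2 * k * L) * Real.exp (2 * k * St q ω) := by
    intro ω
    rw [← Real.exp_mul, ← Real.exp_add]
    congr 1
    ring
  have hPi : Integrable (fun ω => Real.exp (L + St q ω) ^ (2 * k)) gp := by
    simp_rw [hpow]
    exact hSi.const_mul _
  have hdc : ∀ ω : ℕ → ℝ × ℝ, Summable (fun m => q ^ m * xa (ω m)) →
      DiffContOnCl ℂ (fun z => Complex.exp (fld k ω (hp z))) (Metric.ball 0 R) := by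
    intro ω hω
    refine DifferentiableOn.diffContOnCl ?_
    rw [hcl]
    intro z hz
    exact (fld_diff hq hq1 hω ((mem_closedBall_zero_iff.mp hz).trans_lt hRq)).differentiableWithinAt
  have hmeas : ∀ z : ℂ, ‖z‖ < 1 → AEMeasurable (fun ω => Complex.exp (fld k ω (hp z))) gp := by
    intro z hz
    refine Complex.measurable_exp.comp_aemeasurable ?_
    unfold fld
    rw [psi_hp hz]
    exact (fs_meas hz).aemeasurable.const_add _
  have hyc : AEMeasurable (fun ω => fun l => Complex.exp (fld k ω (hp (x l)))) gp :=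
    aemeasurable_pi_lambda _ fun l => hmeas (x l) (by have := hx l; linarith)
  refine ⟨∫ ω, Real.exp (L + St q ω) ^ (2 * k) ∂gp, integral_nonneg fun ω => by positivity, fun Φ hc hΦ => ?_⟩
  have hasm : ∀ n, AEStronglyMeasurable (fun ω => Φ (pn 0 r x n (fun l => Complex.exp (fld k ω (hp (x l)))))) gp := fun n =>
    (hc.comp (pn_cont 0 r x n)).comp_aestronglyMeasurable hyc.aestronglyMeasurable
  have hint : ∀ n, Integrable (fun ω => Φ (pn 0 r x n (fun l => Complex.exp (fld k ω (hp (x l)))))) gp := by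
    intro n
    obtain ⟨A, hA0, hA⟩ := hom_bound (n := n) hk (Φ := fun y => Φ (pn 0 r x n (ex y))) (hc.comp ((pn_cont 0 r x n).comp ex_cont)) (fun u z => by
      rw [ex_smul, pn_smul, hΦ])
    have h1 : Integrable (fun ω => A * (1 + ∑ _j : Fin n, Real.exp (L + St q ω) ^ (2 * k))) gp :=
      ((integrable_const _).add (integrable_finsetSum _ fun j _ => hPi)).const_mul _
    refine h1.mono' (hasm n) ?_
    filter_upwards [hgood] with ω hω
    have h2 := hA (fun j : Fin n => Complex.exp (fld k ω (hp (x j))))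
    rw [pn_congr 0 r x (ex_eq (n := n) fun l => Complex.exp (fld k ω (hp (x l))))] at h2
    refine h2.trans (mul_le_mul_of_nonneg_left (add_le_add le_rfl (sum_le_sum fun j _ => ?_)) hA0)
    exact Real.rpow_le_rpow (norm_nonneg _) (hL ω hω _ (hmem j)) (by positivity)
  refine ⟨hint, fun hex => ?_⟩
  have hkey : ∀ (n : ℕ) (η : ℝ), (∀ (f : ℂ → ℂ) (M : ℝ), DiffContOnCl ℂ f (Metric.ball 0 R) → (∀ z ∈ Metric.closedBall (0:ℂ) R, ‖f z‖ ≤ M) →
            ‖Φ (rs (Metric.closedBall (0:ℂ) r) f) - Φ (pn 0 r x n (fun l => f (x l)))‖ ≤ η * M ^ (2 * k)) →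
      ∀ᵐ ω ∂gp, ‖Φ (rs (Metric.closedBall (0:ℂ) r) (fun z => Complex.exp (fld k ω (hp z)))) -
        Φ (pn 0 r x n (fun l => Complex.exp (fld k ω (hp (x l)))))‖ ≤ η * Real.exp (L + St q ω) ^ (2 * k) := by
    intro n η h
    filter_upwards [hgood] with ω hω
    exact h _ _ (hdc ω hω) (hL ω hω)
  have hΨm : AEStronglyMeasurable (fun ω => Φ (rs (Metric.closedBall (0:ℂ) r) (fun z => Complex.exp (fld k ω (hp z))))) gp := by
    choose N hN using fun m : ℕ => hex (1 / ((m:ℝ) + 1)) (by positivity)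
    refine aestronglyMeasurable_of_tendsto_ae atTop (fun m => hasm (N m)) ?_
    filter_upwards [ae_all_iff.mpr fun m : ℕ => hkey (N m) _ (hN m)] with ω hω
    rw [tendsto_iff_norm_sub_tendsto_zero]
    have h1 : Tendsto (fun m : ℕ => 1 / ((m:ℝ) + 1) * Real.exp (L + St q ω) ^ (2 * k)) atTop (𝓝 (0 * Real.exp (L + St q ω) ^ (2 * k))) :=
      tendsto_one_div_add_atTop_nhds_zero_nat.mul_const _
    rw [zero_mul] at h1
    refine squeeze_zero (fun m => norm_nonneg _) (fun m => ?_) h1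
    rw [norm_sub_rev]
    exact hω m
  have hΨi : Integrable (fun ω => Φ (rs (Metric.closedBall (0:ℂ) r) (fun z => Complex.exp (fld k ω (hp z))))) gp := by
    obtain ⟨n, hn⟩ := hex 1 one_pos
    refine ((hint n).norm.add (hPi.const_mul 1)).mono' hΨm ?_
    filter_upwards [hkey n 1 hn] with ω hω
    have h1 := norm_le_norm_add_norm_sub' (Φ (rs (Metric.closedBall (0:ℂ) r) (fun z => Complex.exp (fld k ω (hp z)))))
      (Φ (pn 0 r x n (fun l => Complex.exp (fld k ω (hp (x l))))))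
    exact h1.trans (add_le_add le_rfl hω)
  refine ⟨hΨi, fun n η hη h => ?_⟩
  rw [← integral_sub hΨi (hint n), ← integral_const_mul]
  exact norm_integral_le_of_norm_le (hPi.const_mul η) (hkey n η h)

/-- the law of the values at the nodes -/
noncomputable def fl (k : ℝ) {n : ℕ} (a : Fin n → ℝ) : ProbabilityMeasure (Fin n → ℂ) :=
  ⟨gp.map (fv k a), Measure.isProbabilityMeasure_map (fv_meas k a)⟩

lemma fl_int (k : ℝ) {n : ℕ} (a : Fin n → ℝ) {V : Type*} [NormedAddCommGroup V] [NormedSpace ℝ V] [SecondCountableTopology V] {f : (Fin n → ℂ) → V}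
    (hf : Continuous f) : ∫ z, f z ∂(fl k a : Measure (Fin n → ℂ)) = ∫ ω, f (fv k a ω) ∂gp := by
  show ∫ z, f z ∂(gp.map (fv k a)) = _
  rw [integral_map (fv_meas k a) hf.aestronglyMeasurable]

/-- finitely many nodes -/
theorem nodes_lim {δ : ℝ → ℝ} (hδ : Tendsto δ atTop (𝓝 0))
    (hδL : Tendsto (fun T : ℝ => δ T * Real.log T) atTop atTop) (hk : 0 < k) (hk2 : k ≤ 2) (n : ℕ) (a : Fin n → ℝ)
    {Ψ : (Fin n → ℂ) → ℂ} (hc : Continuous Ψ) (hΨ : ∀ (u : ℂ) (z : Fin n → ℂ), Ψ (u • z) = ((‖u‖ ^ (2 * k) : ℝ) : ℂ) * Ψ z) :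
    Tendsto (fun T : ℝ => (((2 * δ T) ^ (k ^ 2) / T : ℝ) : ℂ) * ∫ t in Set.Icc 0 T, Ψ (fun j => gz (δ T) t (1 + (a j : ℂ) * Complex.I))) atTop
      (𝓝 ((aF k : ℂ) * ∫ ω, Ψ (fun j => Complex.exp (fld k ω (1 + (a j : ℂ) * Complex.I))) ∂gp)) := by
  have hρ : ∀ s : ℝ, Integrable (fun z => Real.exp (s * ‖z‖)) (fl k a : Measure (Fin n → ℂ)) := by
    intro s
    show Integrable (fun z => Real.exp (s * ‖z‖)) (gp.map (fv k a))
    rw [integrable_map_measure (by fun_prop) (fv_meas k a)]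
    exact fv_exp k a s
  have hρ2 : ∀ α β : Fin n → ℂ, ∫ z, Complex.exp (∑ j, (α j * z j + β j * (starRingEnd ℂ) (z j))) ∂(fl k a : Measure (Fin n → ℂ)) =
      Complex.exp (∑ j, (α j * mu k (a j) + β j * (starRingEnd ℂ) (mu k (a j))) + ∑ i, ∑ j, α i * β j * Cv (a i) (a j)) := by
    intro α β
    rw [fl_int k a (by
      refine Complex.continuous_exp.comp (continuous_finsetSum _ fun j _ => ?_)
      exact ((continuous_apply j).const_mul _).add ((Complex.continuous_conj.comp (continuous_apply j)).const_mul _))]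
    exact fv_law k a α β
  obtain ⟨E, -, -, hm⟩ := cland hδ hδL (c := 0) le_rfl (S := Set.range a) (B := {k}) (Set.countable_range a) (Set.countable_singleton k) (by
    rintro _ rfl
    exact hk)
  have h1 := to_hom hδ (D := fun T => Set.Icc 0 T) (fun T => subset_rfl) hk a (ρ := fl k a)
    (fun F A hFc hFA => grow_int hk hρ hFc hFA)
    (fun F A hFc hFA => (hm k rfl n a (fun j => Set.mem_range_self j) (fl k a) hρ hρ2 F A hFc hFA).2 hk2) hc hΨ
  have e0 : ∫ z, Ψ (fun j => Complex.exp (z j)) ∂(fl k a : Measure (Fin n → ℂ)) = ∫ ω, Ψ (fun j => Complex.exp (fv k a ω j)) ∂gp :=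
    fl_int k a (f := fun z => Ψ (fun j => Complex.exp (z j)))
      (hc.comp (by fun_prop : Continuous fun z : Fin n → ℂ => (fun j => Complex.exp (z j) : Fin n → ℂ)))
  rw [e0] at h1
  refine h1.congr fun T => ?_
  congr 1
  refine integral_congr_ae (Eventually.of_forall fun t => ?_)
  show Ψ _ = Ψ _
  congr 1
  funext j
  unfold FN.gz
  congr 1
  push_cast
  ring

/-- the limit theorem on discs -/
theorem disc_lim {δ : ℝ → ℝ} (hδ : Tendsto δ atTop (𝓝 0))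
    (hδL : Tendsto (fun T : ℝ => δ T * Real.log T) atTop atTop) (hk : 0 < k) (hk2 : k ≤ 2) (hr0 : 0 < r) (hr1 : r < 1)
    {Φ : C(Metric.closedBall (0:ℂ) r, ℂ) → ℂ} (hc : Continuous Φ)
    (hΦ : ∀ (u : ℂ) (f : C(Metric.closedBall (0:ℂ) r, ℂ)), Φ (u • f) = ((‖u‖ ^ (2 * k) : ℝ) : ℂ) * Φ f) :
    Integrable (fun ω => Φ (rs (Metric.closedBall (0:ℂ) r) (fun z => Complex.exp (fld k ω (hp z))))) gp ∧
    Tendsto (fun T : ℝ => (((2 * δ T) ^ (k ^ 2) / T : ℝ) : ℂ) *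
      ∫ t in Set.Icc 0 T, Φ (rs (Metric.closedBall (0:ℂ) r) (fun z => gz (δ T) t (hp z)))) atTop
      (𝓝 ((aF k : ℂ) * ∫ ω, Φ (rs (Metric.closedBall (0:ℂ) r) (fun z => Complex.exp (fld k ω (hp z)))) ∂gp)) := by
  obtain ⟨R, hRd⟩ : ∃ R : ℝ, R = (1 + r) / 2 := ⟨_, rfl⟩
  obtain ⟨q, hqd⟩ : ∃ q : ℝ, q = (1 + R) / 2 := ⟨_, rfl⟩
  have hrR : r < R := by linarith
  have hR1 : R < 1 := by linarith
  have hRq : R < q := by linarith
  have hq1 : q < 1 := by linarith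
  obtain ⟨h, hh⟩ : ∃ h : ℝ, h = min r ((1 - r) / 8) := ⟨_, rfl⟩
  have hh0 : 0 < h := by rw [hh]; exact lt_min hr0 (by linarith)
  have hh1 : h ≤ r := by rw [hh]; exact min_le_left _ _
  have hh2 : h ≤ (1 - r) / 8 := by rw [hh]; exact min_le_right _ _
  have hxh : ∀ l, ‖nd h l‖ ≤ h := nd_norm hh0.le
  have hx : ∀ l, ‖nd h l‖ ≤ r := fun l => (hxh l).trans hh1
  obtain ⟨Cz, hCz0, hz⟩ := zside hδ hδL hk hk2 hrR hr0.le hR1 hx
  obtain ⟨Cg, hCg0, hg⟩ := gside hk hr0.le hrR hRq hq1 hx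
  have happ : ∀ η : ℝ, 0 < η → ∃ n : ℕ, ∀ (f : ℂ → ℂ) (M : ℝ), DiffContOnCl ℂ f (Metric.ball 0 R) → (∀ z ∈ Metric.closedBall (0:ℂ) R, ‖f z‖ ≤ M) →
        ‖Φ (rs (Metric.closedBall (0:ℂ) r) f) - Φ (pn 0 r (nd h) n (fun l => f (nd h l)))‖ ≤ η * M ^ (2 * k) := fun η hη =>
    approx hr0.le hh0.le (by linarith) (fun l => by rw [sub_zero]; exact hxh l) (nd_inj hh0) hc hΦ hη
  obtain ⟨hint, hg2⟩ := hg Φ hc hΦ
  obtain ⟨hΨi, hg3⟩ := hg2 happ
  refine ⟨hΨi, ?_⟩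
  have hfin : ∀ n : ℕ, Tendsto (fun T : ℝ => (((2 * δ T) ^ (k ^ 2) / T : ℝ) : ℂ) *
      ∫ t in Set.Icc 0 T, Φ (pn 0 r (nd h) n (fun l => gz (δ T) t (hp (nd h l))))) atTop
      (𝓝 ((aF k : ℂ) * ∫ ω, Φ (pn 0 r (nd h) n (fun l => Complex.exp (fld k ω (hp (nd h l))))) ∂gp)) := by
    intro n
    have h1 := nodes_lim hδ hδL hk hk2 n (fun j : Fin n => h / (((j : ℕ) : ℝ) + 1)) (Ψ := fun y => Φ (pn 0 r (nd h) n (ex y)))
      (hc.comp ((pn_cont 0 r (nd h) n).comp ex_cont)) (fun u z => by rw [ex_smul, pn_smul, hΦ])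
    have e1 : ∀ l, hp (nd h l) = 1 + ((h / ((l : ℝ) + 1) : ℝ) : ℂ) * Complex.I := fun l => hp_zp _
    have e2 : ∀ f : ℕ → ℂ, pn 0 r (nd h) n (ex fun j : Fin n => f j) = pn 0 r (nd h) n f := fun f => pn_congr 0 r (nd h) (ex_eq f)
    simp_rw [e1]
    have e3 : ∀ (T t : ℝ), pn 0 r (nd h) n (ex fun j : Fin n => gz (δ T) t (1 + ((h / (((j : ℕ) : ℝ) + 1) : ℝ) : ℂ) * Complex.I)) =
        pn 0 r (nd h) n (fun l => gz (δ T) t (1 + ((h / ((l : ℝ) + 1) : ℝ) : ℂ) * Complex.I)) := fun T t =>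
      e2 fun l => gz (δ T) t (1 + ((h / ((l : ℝ) + 1) : ℝ) : ℂ) * Complex.I)
    have e4 : ∀ ω, pn 0 r (nd h) n (ex fun j : Fin n => Complex.exp (fld k ω (1 + ((h / (((j : ℕ) : ℝ) + 1) : ℝ) : ℂ) * Complex.I))) =
        pn 0 r (nd h) n (fun l => Complex.exp (fld k ω (1 + ((h / ((l : ℝ) + 1) : ℝ) : ℂ) * Complex.I))) := fun ω =>
      e2 fun l => Complex.exp (fld k ω (1 + ((h / ((l : ℝ) + 1) : ℝ) : ℂ) * Complex.I))
    simp_rw [e3, e4] at h1
    exact h1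
  rw [Metric.tendsto_nhds]
  intro ε hε
  obtain ⟨η, hη⟩ : ∃ η : ℝ, η = ε / (3 * (Cz + aF k * Cg + 1)) := ⟨_, rfl⟩
  have haF := aF_pos hk
  have hden : 0 < 3 * (Cz + aF k * Cg + 1) := by positivity
  have hη0 : 0 < η := by rw [hη]; positivity
  have hηc : η * (Cz + aF k * Cg + 1) = ε / 3 := by
    rw [hη]
    field_simp
  obtain ⟨n, hn⟩ := happ η hη0
  have hz1 := hz Φ n η hc hη0 hn
  have hg1 := hg3 n η hη0 hn
  filter_upwards [hz1, (Metric.tendsto_nhds.mp (hfin n)) (ε / 3) (by positivity)] with T h1 h2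
  rw [dist_eq_norm] at h2 ⊢
  have h3 : ‖(aF k : ℂ) * ∫ ω, Φ (pn 0 r (nd h) n (fun l => Complex.exp (fld k ω (hp (nd h l))))) ∂gp -
      (aF k : ℂ) * ∫ ω, Φ (rs (Metric.closedBall (0:ℂ) r) (fun z => Complex.exp (fld k ω (hp z)))) ∂gp‖ ≤ aF k * (η * Cg) := by
    rw [← mul_sub, norm_mul, Complex.norm_real, Real.norm_of_nonneg haF.le, norm_sub_rev]
    exact mul_le_mul_of_nonneg_left hg1 haF.le
  have h4 := norm_add₃_le (a := (((2 * δ T) ^ (k ^ 2) / T : ℝ) : ℂ) * (∫ t in Set.Icc 0 T, Φ (rs (Metric.closedBall (0:ℂ) r) (fun z => gz (δ T) t (hp z)))) -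
        (((2 * δ T) ^ (k ^ 2) / T : ℝ) : ℂ) * ∫ t in Set.Icc 0 T, Φ (pn 0 r (nd h) n (fun l => gz (δ T) t (hp (nd h l)))))
    (b := (((2 * δ T) ^ (k ^ 2) / T : ℝ) : ℂ) * (∫ t in Set.Icc 0 T, Φ (pn 0 r (nd h) n (fun l => gz (δ T) t (hp (nd h l))))) -
      (aF k : ℂ) * ∫ ω, Φ (pn 0 r (nd h) n (fun l => Complex.exp (fld k ω (hp (nd h l))))) ∂gp)
    (c := (aF k : ℂ) * ∫ ω, Φ (pn 0 r (nd h) n (fun l => Complex.exp (fld k ω (hp (nd h l))))) ∂gp -
      (aF k : ℂ) * ∫ ω, Φ (rs (Metric.closedBall (0:ℂ) r) (fun z => Complex.exp (fld k ω (hp z)))) ∂gp)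
  rw [sub_add_sub_cancel, sub_add_sub_cancel] at h4
  have h5 : η * Cz + aF k * (η * Cg) ≤ ε / 3 := by
    rw [← hηc]
    nlinarith
  linarith

end Pool.Agent.R313.CX
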