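import Pool.Agent.R313.CX.V

set_option autoImplicit false

/-! The functional limit theorem on compact subsets of the half plane. -/

namespace Pool.Agent.R313.CX

open Finset Filter MeasureTheory Topology ProbabilityTheory
open Pool.Agent.Y753.SHR
open Pool.Agent.H306R2 (aF aF_pos)
open Pool.Agent.R313.FN (rc rc_compact sup_le_area gz)

/-- a radius for a compact set -/
lemma radK {K : Set ℂ} (hK : IsCompact K) (hKre : ∀ w ∈ K, 0 < w.re) : ∃ r : ℝ, 0 < r ∧ r < 1 ∧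
    ∀ w ∈ K, (w - 1) / (w + 1) ∈ Metric.closedBall (0:ℂ) r := by
  rcases K.eq_empty_or_nonempty with h | h
  · exact ⟨1 / 2, by norm_num, by norm_num, fun w hw => by rw [h] at hw; exact hw.elim⟩
  · have hc : ContinuousOn (fun w : ℂ => ‖(w - 1) / (w + 1)‖) K := by
      refine ContinuousOn.norm (ContinuousOn.div (by fun_prop) (by fun_prop) fun w hw => re_one_ne (hKre w hw))
    obtain ⟨w0, hw0, hmax⟩ := hK.exists_isMaxOn h hc
    refine ⟨max (1 / 2) ‖(w0 - 1) / (w0 + 1)‖, lt_max_of_lt_left (by norm_num), max_lt (by norm_num) (psi_norm (hKre w0 hw0)), fun w hw => ?_⟩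
    rw [mem_closedBall_zero_iff]
    exact (hmax hw).trans (le_max_right _ _)

lemma psi_cont {K : Set ℂ} (hKre : ∀ w ∈ K, 0 < w.re) : ContinuousOn (fun w : ℂ => (w - 1) / (w + 1)) K :=
  ContinuousOn.div (by fun_prop) (by fun_prop) fun w hw => re_one_ne (hKre w hw)

/-- the change of variables -/
noncomputable def tk {K : Set ℂ} {r : ℝ} (hKre : ∀ w ∈ K, 0 < w.re) (hr : ∀ w ∈ K, (w - 1) / (w + 1) ∈ Metric.closedBall (0:ℂ) r) :
    C(K, Metric.closedBall (0:ℂ) r) :=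
  ⟨fun w => ⟨((w:ℂ) - 1) / (w + 1), hr w w.2⟩, (continuousOn_iff_continuous_domRestrict.mp (psi_cont hKre)).subtype_mk _⟩

lemma tk_rs {K : Set ℂ} {r : ℝ} (hKre : ∀ w ∈ K, 0 < w.re) (hr : ∀ w ∈ K, (w - 1) / (w + 1) ∈ Metric.closedBall (0:ℂ) r)
    {F : ℂ → ℂ} (hF : ContinuousOn (fun z => F (hp z)) (Metric.closedBall (0:ℂ) r)) :
    (rs (Metric.closedBall (0:ℂ) r) (fun z => F (hp z))).comp (tk hKre hr) = rs K F ∧ ContinuousOn F K := by
  have h1 : ContinuousOn F K := by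
    have h2 : ContinuousOn ((fun z => F (hp z)) ∘ fun w : ℂ => (w - 1) / (w + 1)) K := hF.comp (psi_cont hKre) hr
    refine h2.congr fun w hw => ?_
    show F w = F (hp ((w - 1) / (w + 1)))
    rw [hp_psi (hKre w hw)]
  refine ⟨?_, h1⟩
  ext w
  rw [ContinuousMap.comp_apply, rs_apply hF, rs_apply h1]
  show F (hp (((w:ℂ) - 1) / (w + 1))) = F w
  rw [hp_psi (hKre w w.2)]

/-- the field is analytic on the half plane and the series converges, almost surely -/
theorem fld_good (k : ℝ) : ∀ᵐ ω ∂gp, ∀ w : ℂ, 0 < w.re →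
    Summable (fun m => ‖ft ω ((w - 1) / (w + 1)) m‖) ∧ DifferentiableAt ℂ (fld k ω) w := by
  have h1 : ∀ᵐ ω ∂gp, ∀ j : ℕ, Summable fun m => (1 - 1 / ((j:ℝ) + 1)) ^ m * xa (ω m) := by
    refine ae_all_iff.mpr fun j => (St_exp (q := 1 - 1 / ((j:ℝ) + 1)) ?_ ?_ one_pos).1
    · have : 1 / ((j:ℝ) + 1) ≤ 1 := by
        rw [div_le_one (by positivity)]
        have : (0:ℝ) ≤ j := Nat.cast_nonneg j
        linarith
      linarith
    · have : 0 < 1 / ((j:ℝ) + 1) := by positivity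
      linarith
  filter_upwards [h1] with ω hω w hw
  have h2 := psi_norm hw
  obtain ⟨j, hj⟩ : ∃ j : ℕ, ‖(w - 1) / (w + 1)‖ < 1 - 1 / ((j:ℝ) + 1) := by
    obtain ⟨j, hj⟩ := exists_nat_one_div_lt (sub_pos.mpr h2)
    exact ⟨j, by linarith⟩
  have hq : 0 ≤ 1 - 1 / ((j:ℝ) + 1) := (norm_nonneg _).trans hj.le
  have hq1 : 1 - 1 / ((j:ℝ) + 1) < 1 := by
    have : 0 < 1 / ((j:ℝ) + 1) := by positivity
    linarith
  refine ⟨Summable.of_nonneg_of_le (fun _ => norm_nonneg _) (fun m => ft_norm hq hq1.le hj.le ω m) (hω j), ?_⟩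
  unfold fld
  refine DifferentiableAt.add (DifferentiableAt.neg (DifferentiableAt.const_mul (DifferentiableAt.clog (by fun_prop) ?_) _)) ?_
  · left
    have h3 : ((1 + w) / 2).re = (1 + w.re) / 2 := by simp
    rw [h3]
    linarith
  · have h4 : DifferentiableAt ℂ (fun w : ℂ => (w - 1) / (w + 1)) w := DifferentiableAt.div (by fun_prop) (by fun_prop) (re_one_ne hw)
    refine DifferentiableAt.comp (g := fs ω) (f := fun w : ℂ => (w - 1) / (w + 1)) w ?_ h4
    exact ((fs_diff hq hq1.le (hω j)) _ (mem_ball_zero_iff.mpr hj)).differentiableAt (Metric.isOpen_ball.mem_nhds (mem_ball_zero_iff.mpr hj))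

/-- the limit theorem on compact sets -/
theorem comp_lim {δ : ℝ → ℝ} (hδ : Tendsto δ atTop (𝓝 0))
    (hδL : Tendsto (fun T : ℝ => δ T * Real.log T) atTop atTop) {k : ℝ} (hk : 0 < k) (hk2 : k ≤ 2)
    {K : Set ℂ} (hK : IsCompact K) (hKre : ∀ w ∈ K, 0 < w.re) :
    (∀ᶠ T in atTop, ∀ t : ℝ, ContinuousOn (gz (δ T) t) K) ∧
    ∀ Φ : C(K, ℂ) → ℂ, Continuous Φ → (∀ (u : ℂ) (f : C(K, ℂ)), Φ (u • f) = ((‖u‖ ^ (2 * k) : ℝ) : ℂ) * Φ f) →
      Integrable (fun ω => Φ (rs K (fun w => Complex.exp (fld k ω w)))) gp ∧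
      Tendsto (fun T : ℝ => (((2 * δ T) ^ (k ^ 2) / T : ℝ) : ℂ) * ∫ t in Set.Icc 0 T, Φ (rs K (gz (δ T) t))) atTop
        (𝓝 ((aF k : ℂ) * ∫ ω, Φ (rs K (fun w => Complex.exp (fld k ω w))) ∂gp)) := by
  obtain ⟨r, hr0, hr1, hr⟩ := radK hK hKre
  obtain ⟨a, B, ha, hB, hrc⟩ := hp_rc hr1
  have hpos : ∀ᶠ T in atTop, 0 < δ T := by
    filter_upwards [hδL.eventually_gt_atTop 0, eventually_gt_atTop 1] with T hT hT1
    exact (pos_iff_pos_of_mul_pos hT).mpr (Real.log_pos hT1)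
  have hbδ : ∀ᶠ T in atTop, (B + 1) * δ T < 1 / 2 := by
    have h1 : Tendsto (fun T => (B + 1) * δ T) atTop (𝓝 ((B + 1) * 0)) := hδ.const_mul _
    rw [mul_zero] at h1
    exact h1.eventually (gt_mem_nhds (by norm_num))
  have hzeta : ∀ᶠ T in atTop, ∀ t : ℝ, ContinuousOn (fun z => gz (δ T) t (hp z)) (Metric.closedBall (0:ℂ) r) := by
    filter_upwards [hpos, hbδ] with T h1 h2 t
    exact (zt_cont (b := B + 1) hrc (by linarith) h1 (by rw [mul_comm]; exact h2.le) hr1).2 t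
  have hfield : ∀ᵐ ω ∂gp, ContinuousOn (fun z => Complex.exp (fld k ω (hp z))) (Metric.closedBall (0:ℂ) r) := by
    filter_upwards [fld_good k] with ω hω z hz
    have hz1 : ‖z‖ < 1 := (mem_closedBall_zero_iff.mp hz).trans_lt hr1
    have h1 := (hω (hp z) (hp_re hz1)).2
    have h2 : DifferentiableAt ℂ (fun z => fld k ω (hp z)) z := DifferentiableAt.comp (g := fld k ω) (f := hp) z h1 (hp_diff hz1)
    exact h2.cexp.continuousAt.continuousWithinAt
  refine ⟨by filter_upwards [hzeta] with T hT t using (tk_rs hKre hr (hT t)).2, fun Φ hc hΦ => ?_⟩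
  obtain ⟨h1, h2⟩ := disc_lim hδ hδL hk hk2 hr0 hr1 (Φ := fun f => Φ (f.comp (tk hKre hr)))
    (hc.comp (ContinuousMap.continuous_precomp _)) (fun u f => by rw [← hΦ]; rfl)
  have e1 : (fun ω => Φ ((rs (Metric.closedBall (0:ℂ) r) (fun z => Complex.exp (fld k ω (hp z)))).comp (tk hKre hr))) =ᵐ[gp]
      fun ω => Φ (rs K (fun w => Complex.exp (fld k ω w))) := by
    filter_upwards [hfield] with ω hω
    rw [(tk_rs hKre hr (F := fun w => Complex.exp (fld k ω w)) hω).1]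
  refine ⟨h1.congr e1, ?_⟩
  rw [integral_congr_ae e1] at h2
  refine h2.congr' ?_
  filter_upwards [hzeta] with T hT
  congr 1
  refine integral_congr_ae (Eventually.of_forall fun t => ?_)
  show Φ _ = Φ _
  rw [(tk_rs hKre hr (hT t)).1]

end Pool.Agent.R313.CX
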