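import Pool.Agent.R313.CX.X

set_option autoImplicit false

/-! Complex powers: the moments of the field at arbitrary points. -/

namespace Pool.Agent.R313.CX

open Finset Filter MeasureTheory Topology ProbabilityTheory
open Pool.Agent.Y753.SHR
open Pool.Agent.H306R2 (aF aF_pos)
open Pool.Agent.R313.FN (rc rc_compact sup_le_area gz)

variable {n : ℕ}

lemma rad' (z : Fin n → ℂ) (hz : ∀ j, ‖z j‖ < 1) : ∃ q : ℝ, 0 ≤ q ∧ q < 1 ∧ ∀ j, ‖z j‖ ≤ q := by
  rcases isEmpty_or_nonempty (Fin n) with h | h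
  · exact ⟨0, le_rfl, one_pos, fun j => (IsEmpty.false j).elim⟩
  · obtain ⟨i, hi⟩ := Finite.exists_max fun j => ‖z j‖
    exact ⟨‖z i‖, norm_nonneg _, hz i, hi⟩

/-- the joint Laplace transform of the values of the series -/
lemma fs_law (z : Fin n → ℂ) (hz1 : ∀ j, ‖z j‖ < 1) (α β : Fin n → ℂ) (D : ℂ) :
    ∫ ω, Complex.exp (D + ∑ j, (α j * fs ω (z j) + β j * (starRingEnd ℂ) (fs ω (z j)))) ∂gp =
      Complex.exp (D + ∑ i, ∑ j, α i * β j * (-Complex.log (1 - z i * (starRingEnd ℂ) (z j)))) := by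
  obtain ⟨q, hq, hq1, hz⟩ := rad' z hz1
  obtain ⟨C, hC⟩ : ∃ C : ℝ, C = ∑ j, (‖α j‖ + ‖β j‖) := ⟨_, rfl⟩
  have hC0 : 0 ≤ C := by rw [hC]; exact Finset.sum_nonneg fun _ _ => by positivity
  obtain ⟨hgood, hSi⟩ := St_exp (s := C + 1) hq hq1 (by positivity)
  obtain ⟨c, hc⟩ : ∃ c : ℕ → Fin n → ℂ, ∀ m j, c m j = z j ^ (m + 1) / ((Real.sqrt ((m:ℝ) + 1) : ℝ) : ℂ) := ⟨fun m j => _, fun _ _ => rfl⟩
  have hft : ∀ (ω : ℕ → ℝ × ℝ) (m : ℕ) (j : Fin n), ft ω (z j) m = c m j * gs (ω m) := by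
    intro ω m j
    rw [hc]
    unfold ft
    ring
  obtain ⟨A, hA⟩ : ∃ A : ℕ → ℂ, ∀ m, A m = ∑ j, α j * c m j := ⟨_, fun _ => rfl⟩
  obtain ⟨B, hB⟩ : ∃ B : ℕ → ℂ, ∀ m, B m = ∑ j, β j * (starRingEnd ℂ) (c m j) := ⟨_, fun _ => rfl⟩
  have hterm : ∀ (ω : ℕ → ℝ × ℝ) (m : ℕ), ∑ j, (α j * ft ω (z j) m + β j * (starRingEnd ℂ) (ft ω (z j) m)) = A m * gs (ω m) + B m * (starRingEnd ℂ) (gs (ω m)) := by
    intro ω m
    rw [hA, hB, Finset.sum_mul, Finset.sum_mul, ← Finset.sum_add_distrib]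
    refine Finset.sum_congr rfl fun j _ => ?_
    rw [hft, map_mul]
    ring
  have htb : ∀ (ω : ℕ → ℝ × ℝ) (m : ℕ), ‖A m * gs (ω m) + B m * (starRingEnd ℂ) (gs (ω m))‖ ≤ C * (q ^ m * xa (ω m)) := by
    intro ω m
    rw [← hterm, hC, Finset.sum_mul]
    refine (norm_sum_le _ _).trans (Finset.sum_le_sum fun j _ => (norm_add_le _ _).trans ?_)
    rw [norm_mul, norm_mul, Complex.norm_conj, ← add_mul]
    exact mul_le_mul_of_nonneg_left (ft_norm hq hq1.le (hz j) ω m) (by positivity)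
  obtain ⟨F, hF⟩ : ∃ F : ℕ → (ℕ → ℝ × ℝ) → ℂ, ∀ N ω, F N ω = Complex.exp (D + ∑ m ∈ range N, (A m * gs (ω m) + B m * (starRingEnd ℂ) (gs (ω m)))) :=
    ⟨fun N ω => _, fun _ _ => rfl⟩
  have hFc : ∀ N, Continuous (F N) := by
    intro N
    have e1 : F N = fun ω => Complex.exp (D + ∑ m ∈ range N, (A m * gs (ω m) + B m * (starRingEnd ℂ) (gs (ω m)))) := funext (hF N)
    rw [e1]
    refine Complex.continuous_exp.comp (continuous_const.add (continuous_finsetSum _ fun m _ => ?_))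
    exact ((gs_cont.comp (continuous_apply m)).const_mul _).add ((Complex.continuous_conj.comp (gs_cont.comp (continuous_apply m))).const_mul _)
  have hint : ∀ N, ∫ ω, F N ω ∂gp = Complex.exp (D + ∑ m ∈ range N, A m * B m) := by
    intro N
    have e1 : ∀ ω, F N ω = Complex.exp D * ∏ m ∈ range N, Complex.exp (A m * gs (ω m) + B m * (starRingEnd ℂ) (gs (ω m))) := by
      intro ω
      rw [hF, Complex.exp_add, Complex.exp_sum]
    simp_rw [e1]
    rw [integral_const_mul, gp_prod N (fun m x => Complex.exp (A m * gs x + B m * (starRingEnd ℂ) (gs x))) (fun m =>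
      Complex.continuous_exp.comp ((gs_cont.const_mul _).add ((Complex.continuous_conj.comp gs_cont).const_mul _))),
      Complex.exp_add, Complex.exp_sum]
    congr 1
    exact Finset.prod_congr rfl fun m _ => gs_exp (A m) (B m)
  have hlimF : Tendsto (fun N => ∫ ω, F N ω ∂gp) atTop (𝓝 (∫ ω, Complex.exp (D + ∑ j, (α j * fs ω (z j) + β j * (starRingEnd ℂ) (fs ω (z j)))) ∂gp)) := by
    refine tendsto_integral_of_dominated_convergence (fun ω => Real.exp ‖D‖ * Real.exp ((C + 1) * St q ω)) (fun N => (hFc N).aestronglyMeasurable)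
      (hSi.const_mul _) (fun N => ?_) ?_
    · filter_upwards [hgood] with ω hω
      have hS : 0 ≤ St q ω := tsum_nonneg fun m => mul_nonneg (pow_nonneg hq m) (xa_nonneg _)
      rw [hF, Complex.norm_exp, ← Real.exp_add]
      refine Real.exp_le_exp.mpr ?_
      rw [Complex.add_re]
      refine add_le_add (Complex.re_le_norm D) ?_
      refine (Complex.re_le_norm _).trans ((norm_sum_le _ _).trans ((Finset.sum_le_sum fun m _ => htb ω m).trans ?_))
      rw [← Finset.mul_sum]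
      have h1 : ∑ m ∈ range N, q ^ m * xa (ω m) ≤ St q ω := hω.sum_le_tsum _ fun m _ => mul_nonneg (pow_nonneg hq m) (xa_nonneg _)
      have h2 := mul_le_mul_of_nonneg_left h1 hC0
      linarith
    · filter_upwards [hgood] with ω hω
      have h1 : HasSum (fun m => A m * gs (ω m) + B m * (starRingEnd ℂ) (gs (ω m)))
          (∑ j, (α j * fs ω (z j) + β j * (starRingEnd ℂ) (fs ω (z j)))) := by
        have h2 : HasSum (fun m => ∑ j, (α j * ft ω (z j) m + β j * (starRingEnd ℂ) (ft ω (z j) m)))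
            (∑ j, (α j * fs ω (z j) + β j * (starRingEnd ℂ) (fs ω (z j)))) := by
          refine hasSum_sum fun j _ => ?_
          have h3 := ft_hasSum hq hq1.le (hz j) hω
          have h4 : HasSum (fun m => (starRingEnd ℂ) (ft ω (z j) m)) ((starRingEnd ℂ) (fs ω (z j))) :=
            h3.map (starRingEnd ℂ) Complex.continuous_conj
          exact (h3.mul_left _).add (h4.mul_left _)
        simp_rw [hterm] at h2
        exact h2
      have h5 := (Complex.continuous_exp.tendsto _).comp (h1.tendsto_sum_nat.const_add D)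
      refine h5.congr fun N => ?_
      rw [hF]
      rfl
  have hAB : HasSum (fun m => A m * B m) (∑ i, ∑ j, α i * β j * (-Complex.log (1 - z i * (starRingEnd ℂ) (z j)))) := by
    have h1 : ∀ i j, HasSum (fun m : ℕ => z i ^ (m + 1) * (starRingEnd ℂ) (z j) ^ (m + 1) / ((m:ℂ) + 1)) (-Complex.log (1 - z i * (starRingEnd ℂ) (z j))) := by
      intro i j
      have h0 := Complex.hasSum_taylorSeries_neg_log (z := z i * (starRingEnd ℂ) (z j)) (by
        rw [norm_mul, RCLike.norm_conj]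
        have h1 := hz1 i
        have h2 := hz1 j
        have h3 := norm_nonneg (z i)
        have h4 := norm_nonneg (z j)
        nlinarith)
      have h2 := (hasSum_nat_add_iff' 1).mpr h0
      simp only [sum_range_one, Nat.cast_zero, div_zero, sub_zero] at h2
      have e1 : (fun m : ℕ => z i ^ (m + 1) * (starRingEnd ℂ) (z j) ^ (m + 1) / ((m:ℂ) + 1)) =
          fun m : ℕ => (z i * (starRingEnd ℂ) (z j)) ^ (m + 1) / ((m + 1 : ℕ) : ℂ) := by
        funext m
        rw [mul_pow]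
        push_cast
        rfl
      rw [e1]
      exact h2
    have h3 : HasSum (fun m : ℕ => ∑ i, ∑ j, α i * β j * (z i ^ (m + 1) * (starRingEnd ℂ) (z j) ^ (m + 1) / ((m:ℂ) + 1)))
        (∑ i, ∑ j, α i * β j * (-Complex.log (1 - z i * (starRingEnd ℂ) (z j)))) := hasSum_sum fun i _ => hasSum_sum fun j _ => (h1 i j).mul_left _
    have e1 : (fun m => A m * B m) = fun m : ℕ => ∑ i, ∑ j, α i * β j * (z i ^ (m + 1) * (starRingEnd ℂ) (z j) ^ (m + 1) / ((m:ℂ) + 1)) := by
      funext m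
      rw [hA, hB, Finset.sum_mul_sum]
      refine Finset.sum_congr rfl fun i _ => Finset.sum_congr rfl fun j _ => ?_
      rw [hc, hc, map_div₀, map_pow, Complex.conj_ofReal]
      have hs : (((Real.sqrt ((m:ℝ) + 1) : ℝ) : ℂ)) * ((Real.sqrt ((m:ℝ) + 1) : ℝ) : ℂ) = (m:ℂ) + 1 := by
        rw [← Complex.ofReal_mul, Real.mul_self_sqrt (by positivity)]
        push_cast
        rfl
      rw [← hs]
      have hs0 : ((Real.sqrt ((m:ℝ) + 1) : ℝ) : ℂ) ≠ 0 := by
        have : Real.sqrt ((m:ℝ) + 1) ≠ 0 := by positivity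
        exact_mod_cast this
      field_simp
    rw [e1]
    exact h3
  have hlim2 : Tendsto (fun N => ∫ ω, F N ω ∂gp) atTop (𝓝 (Complex.exp (D + ∑ i, ∑ j, α i * β j * (-Complex.log (1 - z i * (starRingEnd ℂ) (z j)))))) := by
    simp_rw [hint]
    exact (Complex.continuous_exp.tendsto _).comp (hAB.tendsto_sum_nat.const_add D)
  exact tendsto_nhds_unique hlimF hlim2

/-- identity of logarithms -/
lemma log_id2 {w v : ℂ} (hw : 0 < w.re) (hv : 0 < v.re) :
    -Complex.log (1 - (w - 1) / (w + 1) * (starRingEnd ℂ) ((v - 1) / (v + 1))) =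
      Complex.log ((1 + w) / 2) + Complex.log ((1 + (starRingEnd ℂ) v) / 2) - Complex.log ((w + (starRingEnd ℂ) v) / 2) := by
  obtain ⟨u, hu⟩ : ∃ u, u = (starRingEnd ℂ) v := ⟨_, rfl⟩
  have hur : 0 < u.re := by rw [hu, Complex.conj_re]; exact hv
  have e0 : (starRingEnd ℂ) ((v - 1) / (v + 1)) = (u - 1) / (u + 1) := by
    rw [map_div₀, map_sub, map_add, map_one, ← hu]
  rw [e0, ← hu]
  have hA : 0 < ((w + u) / 2).re := by
    have : ((w + u) / 2).re = (w.re + u.re) / 2 := by simp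
    rw [this]; linarith
  have hB : 0 < ((1 + w) / 2).re := by
    have : ((1 + w) / 2).re = (1 + w.re) / 2 := by simp
    rw [this]; linarith
  have hC : 0 < ((1 + u) / 2).re := by
    have : ((1 + u) / 2).re = (1 + u.re) / 2 := by simp
    rw [this]; linarith
  have hne : ∀ {x : ℂ}, 0 < x.re → x ≠ 0 := fun hx h => by rw [h, Complex.zero_re] at hx; exact lt_irrefl _ hx
  have harg : ∀ {x : ℂ}, 0 < x.re → |(Complex.log x).im| < Real.pi / 2 := fun hx => by
    rw [Complex.log_im]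
    exact Complex.abs_arg_lt_pi_div_two_iff.mpr (Or.inl hx)
  have hw1 := re_one_ne hw
  have hu1 := re_one_ne hur
  have e1 : 1 - (w - 1) / (w + 1) * ((u - 1) / (u + 1)) = ((w + u) / 2) / ((1 + w) / 2) / ((1 + u) / 2) := by
    have h1 : 1 + w ≠ 0 := by rw [add_comm]; exact hw1
    have h2 : 1 + u ≠ 0 := by rw [add_comm]; exact hu1
    field_simp
    ring
  have hnz : ‖(w - 1) / (w + 1) * ((u - 1) / (u + 1))‖ < 1 := by
    rw [norm_mul]
    have h1 := psi_norm hw
    have h2 := psi_norm hur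
    have h3 := norm_nonneg ((w - 1) / (w + 1))
    have h4 := norm_nonneg ((u - 1) / (u + 1))
    nlinarith
  have hZ : 0 < (1 - (w - 1) / (w + 1) * ((u - 1) / (u + 1))).re := by
    rw [Complex.sub_re, Complex.one_re]
    have := (Complex.re_le_norm ((w - 1) / (w + 1) * ((u - 1) / (u + 1)))).trans_lt hnz
    linarith
  have hex : Complex.exp (Complex.log ((w + u) / 2) - Complex.log ((1 + w) / 2) - Complex.log ((1 + u) / 2)) =
      Complex.exp (Complex.log (1 - (w - 1) / (w + 1) * ((u - 1) / (u + 1)))) := by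
    rw [Complex.exp_sub, Complex.exp_sub, Complex.exp_log (hne hA), Complex.exp_log (hne hB), Complex.exp_log (hne hC), Complex.exp_log (hne hZ), e1]
  obtain ⟨m, hm⟩ := Complex.exp_eq_exp_iff_exists_int.mp hex
  have him := congrArg Complex.im hm
  have e2 : (Complex.log (1 - (w - 1) / (w + 1) * ((u - 1) / (u + 1))) + (m:ℂ) * (2 * Real.pi * Complex.I)).im =
      (Complex.log (1 - (w - 1) / (w + 1) * ((u - 1) / (u + 1)))).im + m * (2 * Real.pi) := by
    rw [Complex.add_im]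
    congr 1
    simp
  rw [e2, Complex.sub_im, Complex.sub_im] at him
  have g1 := abs_lt.mp (harg hA)
  have g2 := abs_lt.mp (harg hB)
  have g3 := abs_lt.mp (harg hC)
  have g4 := abs_lt.mp (harg hZ)
  have hpi := Real.pi_pos
  have hm0 : m = 0 := by
    have h1 : (m:ℝ) * (2 * Real.pi) < 1 * (2 * Real.pi) := by linarith
    have h2 : (-1:ℝ) * (2 * Real.pi) < m * (2 * Real.pi) := by linarith
    have h3 : (m:ℝ) < 1 := lt_of_mul_lt_mul_right h1 (by positivity)
    have h4 : (-1:ℝ) < m := lt_of_mul_lt_mul_right h2 (by positivity)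
    have h5 : m < 1 := by exact_mod_cast h3
    have h6 : -1 < m := by exact_mod_cast h4
    omega
  rw [hm0, Int.cast_zero, zero_mul, add_zero] at hm
  rw [← hm]
  ring

/-- the joint moments of the field with balanced exponents -/
theorem fld_moments (k : ℝ) (w : Fin n → ℂ) (hw : ∀ j, 0 < (w j).re) (α β : Fin n → ℂ) (hα : ∑ j, α j = k) (hβ : ∑ j, β j = k) :
    ∫ ω, Complex.exp (∑ j, (α j * fld k ω (w j) + β j * (starRingEnd ℂ) (fld k ω (w j)))) ∂gp =
      Complex.exp (-∑ i, ∑ j, α i * β j * Complex.log ((w i + (starRingEnd ℂ) (w j)) / 2)) := by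
  obtain ⟨l, hl⟩ : ∃ l : Fin n → ℂ, ∀ j, l j = Complex.log ((1 + w j) / 2) := ⟨_, fun _ => rfl⟩
  obtain ⟨l', hl'⟩ : ∃ l' : Fin n → ℂ, ∀ j, l' j = Complex.log ((1 + (starRingEnd ℂ) (w j)) / 2) := ⟨_, fun _ => rfl⟩
  have hcl : ∀ j, (starRingEnd ℂ) (l j) = l' j := by
    intro j
    rw [hl, hl', ← Complex.log_conj]
    · rw [map_div₀, map_add, map_one, map_ofNat]
    · have h1 : 0 < ((1 + w j) / 2).re := by
        have : ((1 + w j) / 2).re = (1 + (w j).re) / 2 := by simp
        rw [this]; have := hw j; linarith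
      intro h
      have h2 := Complex.abs_arg_lt_pi_div_two_iff.mpr (Or.inl h1)
      rw [h, abs_of_pos Real.pi_pos] at h2
      have := Real.pi_pos
      linarith
  have e1 : ∀ ω, ∑ j, (α j * fld k ω (w j) + β j * (starRingEnd ℂ) (fld k ω (w j))) =
      (∑ j, (α j * (-(k * l j)) + β j * (-(k * l' j)))) + ∑ j, (α j * fs ω ((w j - 1) / (w j + 1)) + β j * (starRingEnd ℂ) (fs ω ((w j - 1) / (w j + 1)))) := by
    intro ω
    rw [← Finset.sum_add_distrib]
    refine Finset.sum_congr rfl fun j _ => ?_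
    unfold fld
    rw [← hl, map_add, map_neg, map_mul, Complex.conj_ofReal, hcl]
    ring
  simp_rw [e1]
  rw [fs_law _ (fun j => psi_norm (hw j))]
  congr 1
  have e2 : ∀ i j, -Complex.log (1 - (w i - 1) / (w i + 1) * (starRingEnd ℂ) ((w j - 1) / (w j + 1))) =
      l i + l' j - Complex.log ((w i + (starRingEnd ℂ) (w j)) / 2) := fun i j => by rw [log_id2 (hw i) (hw j), hl, hl']
  simp_rw [e2]
  have e3 : ∑ i, ∑ j, α i * β j * (l i + l' j - Complex.log ((w i + (starRingEnd ℂ) (w j)) / 2)) =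
      (∑ i, α i * l i) * (∑ j, β j) + (∑ i, α i) * (∑ j, β j * l' j) - ∑ i, ∑ j, α i * β j * Complex.log ((w i + (starRingEnd ℂ) (w j)) / 2) := by
    rw [Finset.sum_mul_sum, Finset.sum_mul_sum, ← Finset.sum_add_distrib, ← Finset.sum_sub_distrib]
    refine Finset.sum_congr rfl fun i _ => ?_
    rw [← Finset.sum_add_distrib, ← Finset.sum_sub_distrib]
    refine Finset.sum_congr rfl fun j _ => ?_
    ring
  rw [e3, hα, hβ, Finset.sum_add_distrib]
  have e4 : ∑ j, α j * (-(k * l j)) = -(k * ∑ j, α j * l j) := by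
    rw [Finset.mul_sum, ← Finset.sum_neg_distrib]
    exact Finset.sum_congr rfl fun j _ => by ring
  have e5 : ∑ j, β j * (-(k * l' j)) = -(k * ∑ j, β j * l' j) := by
    rw [Finset.mul_sum, ← Finset.sum_neg_distrib]
    exact Finset.sum_congr rfl fun j _ => by ring
  rw [e4, e5]
  ring

end Pool.Agent.R313.CX
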