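import Pool.Agent.R313.CX.Y

set_option autoImplicit false

/-! Complex powers of zeta near the line. -/

namespace Pool.Agent.R313.CX

open Finset Filter MeasureTheory Topology ProbabilityTheory
open Pool.Agent.Y753.SHR
open Pool.Agent.H306R2 (aF aF_pos)
open Pool.Agent.R313.FN (rc rc_compact sup_le_area gz)

/-- the power `|z|^γ (z/|z|)^m` -/
noncomputable def cp (γ : ℂ) (m : ℤ) (z : ℂ) : ℂ := ((‖z‖ : ℝ) : ℂ) ^ γ * (z / ((‖z‖ : ℝ) : ℂ)) ^ m

lemma phase_norm (m : ℤ) (z : ℂ) : ‖(z / ((‖z‖ : ℝ) : ℂ)) ^ m‖ ≤ 1 := by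
  rcases eq_or_ne z 0 with h | h
  · rw [h, zero_div]
    rcases eq_or_ne m 0 with h0 | h0
    · rw [h0, zpow_zero, norm_one]
    · rw [zero_zpow m h0, norm_zero]
      exact zero_le_one
  · have h1 : ‖z / ((‖z‖ : ℝ) : ℂ)‖ = 1 := by
      rw [norm_div, Complex.norm_real, norm_norm, div_self (norm_ne_zero_iff.mpr h)]
    rw [norm_zpow, h1, one_zpow]

lemma cp_norm {γ : ℂ} (hγ : 0 < γ.re) (m : ℤ) (z : ℂ) : ‖cp γ m z‖ ≤ ‖z‖ ^ γ.re := by
  unfold cp
  rw [norm_mul, Complex.norm_cpow_eq_rpow_re_of_nonneg (norm_nonneg z) hγ.ne']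
  exact mul_le_of_le_one_right (Real.rpow_nonneg (norm_nonneg z) _) (phase_norm m z)

lemma cp_zero {γ : ℂ} (hγ : 0 < γ.re) (m : ℤ) : cp γ m 0 = 0 := by
  have h := cp_norm hγ m 0
  rw [norm_zero, Real.zero_rpow hγ.ne'] at h
  exact norm_le_zero_iff.mp h

lemma cp_cont {γ : ℂ} (hγ : 0 < γ.re) (m : ℤ) : Continuous (cp γ m) := by
  rw [continuous_iff_continuousAt]
  intro z
  rcases eq_or_ne z 0 with h | h
  · rw [h]
    unfold ContinuousAt
    rw [cp_zero hγ]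
    refine squeeze_zero_norm (fun z => cp_norm hγ m z) ?_
    have h1 : Tendsto (fun z : ℂ => ‖z‖ ^ γ.re) (𝓝 0) (𝓝 (‖(0:ℂ)‖ ^ γ.re)) :=
      (continuous_norm.rpow_const fun _ => Or.inr hγ.le).tendsto 0
    rwa [norm_zero, Real.zero_rpow hγ.ne'] at h1
  · have hn : ((‖z‖ : ℝ) : ℂ) ≠ 0 := by exact_mod_cast norm_ne_zero_iff.mpr h
    have hc : ContinuousAt (fun z : ℂ => ((‖z‖ : ℝ) : ℂ)) z := (Complex.continuous_ofReal.comp continuous_norm).continuousAt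
    unfold cp
    refine ContinuousAt.mul ?_ ?_
    · refine hc.cpow continuousAt_const ?_
      left
      rw [Complex.ofReal_re]
      exact norm_pos_iff.mpr h
    · refine ContinuousAt.zpow₀ (continuousAt_id.div hc hn) m (Or.inl ?_)
      exact div_ne_zero h hn

lemma cp_mul (γ : ℂ) (m : ℤ) (u z : ℂ) : cp γ m (u * z) = cp γ m u * cp γ m z := by
  unfold cp
  rw [norm_mul, Complex.ofReal_mul, Complex.mul_cpow_ofReal_nonneg (norm_nonneg u) (norm_nonneg z), mul_div_mul_comm, mul_zpow]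
  ring

lemma cp_exp (γ : ℂ) (m : ℤ) (x : ℂ) : cp γ m (Complex.exp x) =
    Complex.exp ((γ + m) / 2 * x + (γ - m) / 2 * (starRingEnd ℂ) x) := by
  unfold cp
  have e1 : ((‖Complex.exp x‖ : ℝ) : ℂ) = Complex.exp (x.re : ℂ) := by
    rw [Complex.norm_exp, Complex.ofReal_exp]
  have e2 : Complex.exp x / Complex.exp (x.re : ℂ) = Complex.exp ((x.im : ℂ) * Complex.I) := by
    rw [← Complex.exp_sub]
    congr 1
    nth_rewrite 1 [← Complex.re_add_im x]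
    ring
  have e3 : Complex.exp (x.re : ℂ) ^ γ = Complex.exp (γ * (x.re : ℂ)) := by
    rw [Complex.cpow_def_of_ne_zero (Complex.exp_ne_zero _), ← Complex.ofReal_exp, ← Complex.ofReal_log (Real.exp_pos _).le, Real.log_exp,
      mul_comm]
  rw [e1, e2, e3, ← Complex.exp_int_mul, ← Complex.exp_add]
  congr 1
  have h1 : (x.re : ℂ) = (x + (starRingEnd ℂ) x) / 2 := by
    rw [Complex.add_conj]
    push_cast
    ring
  have h2 : (x.im : ℂ) * Complex.I = (x - (starRingEnd ℂ) x) / 2 := by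
    rw [Complex.sub_conj]
    push_cast
    ring
  rw [h1, h2]
  ring

variable {n : ℕ}

lemma cp_const {k : ℝ} (hk : 0 < k) {γ : Fin n → ℂ} {m : Fin n → ℤ} (hγ : ∀ j, 0 < (γ j).re) (hs : ∑ j, γ j = 2 * k) (hm : ∑ j, m j = 0) (u : ℂ) :
    ∏ j, cp (γ j) (m j) u = ((‖u‖ ^ (2 * k) : ℝ) : ℂ) := by
  rcases eq_or_ne u 0 with h | h
  · have hn : Nonempty (Fin n) := by
      by_contra hcon
      rw [not_nonempty_iff] at hcon
      rw [Finset.univ_eq_empty, sum_empty] at hs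
      have h2 : ((2 * k : ℝ) : ℂ) = ((0:ℝ) : ℂ) := by
        push_cast
        exact hs.symm
      have h3 : 2 * k = 0 := by exact_mod_cast h2
      linarith
    rw [h, norm_zero, Real.zero_rpow (by positivity), Complex.ofReal_zero]
    exact prod_eq_zero (mem_univ (Classical.arbitrary (Fin n))) (cp_zero (hγ _) _)
  · have hn : ((‖u‖ : ℝ) : ℂ) ≠ 0 := by exact_mod_cast norm_ne_zero_iff.mpr h
    unfold cp
    rw [prod_mul_distrib]
    have e1 : ∏ j, ((‖u‖ : ℝ) : ℂ) ^ γ j = ((‖u‖ : ℝ) : ℂ) ^ (∑ j, γ j) := by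
      simp_rw [Complex.cpow_def_of_ne_zero hn]
      rw [← Complex.exp_sum, mul_sum]
    have e2 : ∏ j, (u / ((‖u‖ : ℝ) : ℂ)) ^ m j = (u / ((‖u‖ : ℝ) : ℂ)) ^ (∑ j, m j) := by
      have h0 : u / ((‖u‖ : ℝ) : ℂ) ≠ 0 := div_ne_zero h hn
      have h5 : ∀ s : Finset (Fin n), ∏ j ∈ s, (u / ((‖u‖ : ℝ) : ℂ)) ^ m j = (u / ((‖u‖ : ℝ) : ℂ)) ^ (∑ j ∈ s, m j) := by
        intro s
        induction s using Finset.induction_on with
        | empty => simp
        | insert a s ha ih => rw [prod_insert ha, sum_insert ha, ih, zpow_add₀ h0]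
      exact h5 univ
    rw [e1, e2, hs, hm, zpow_zero, mul_one]
    have e3 : (2 * k : ℂ) = ((2 * k : ℝ) : ℂ) := by push_cast; rfl
    rw [e3, ← Complex.ofReal_cpow (norm_nonneg u)]

/-- the value of the constant -/
noncomputable def cc (γ : Fin n → ℂ) (m : Fin n → ℤ) (w : Fin n → ℂ) : ℂ :=
  ∏ i, ∏ j, ((w i + (starRingEnd ℂ) (w j)) / 2) ^ (-((γ i + m i) * (γ j - m j) / 4))

lemma field_cc {k : ℝ} {γ : Fin n → ℂ} {m : Fin n → ℤ} (hs : ∑ j, γ j = 2 * k) (hm : ∑ j, m j = 0)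
    (w : Fin n → ℂ) (hw : ∀ j, 0 < (w j).re) :
    ∫ ω, ∏ j, cp (γ j) (m j) (Complex.exp (fld k ω (w j))) ∂gp = cc γ m w := by
  have hm' : ∑ j, ((m j : ℤ) : ℂ) = 0 := by exact_mod_cast congrArg (fun x : ℤ => (x : ℂ)) hm
  have e1 : ∀ ω, ∏ j, cp (γ j) (m j) (Complex.exp (fld k ω (w j))) =
      Complex.exp (∑ j, ((γ j + m j) / 2 * fld k ω (w j) + (γ j - m j) / 2 * (starRingEnd ℂ) (fld k ω (w j)))) := by
    intro ω
    rw [Complex.exp_sum]
    exact prod_congr rfl fun j _ => cp_exp _ _ _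
  simp_rw [e1]
  rw [fld_moments k w hw (fun j => (γ j + m j) / 2) (fun j => (γ j - m j) / 2) (by
    rw [← sum_div, sum_add_distrib, hs, hm']
    ring) (by
    rw [← sum_div, sum_sub_distrib, hs, hm']
    ring)]
  unfold cc
  rw [← sum_neg_distrib, Complex.exp_sum]
  refine prod_congr rfl fun i _ => ?_
  rw [← sum_neg_distrib, Complex.exp_sum]
  refine prod_congr rfl fun j _ => ?_
  have h1 : (w i + (starRingEnd ℂ) (w j)) / 2 ≠ 0 := by
    intro h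
    have h2 := congrArg Complex.re h
    have h3 : ((w i + (starRingEnd ℂ) (w j)) / 2).re = ((w i).re + (w j).re) / 2 := by simp
    rw [h3, Complex.zero_re] at h2
    have := hw i
    have := hw j
    linarith
  rw [Complex.cpow_def_of_ne_zero h1]
  congr 1
  ring

lemma cp_prod_cont {γ : Fin n → ℂ} {m : Fin n → ℤ} (hγ : ∀ j, 0 < (γ j).re) :
    Continuous fun z : Fin n → ℂ => ∏ j, cp (γ j) (m j) (z j) :=
  continuous_finsetProd _ fun j _ => (cp_cont (hγ j) _).comp (continuous_apply j)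

lemma cp_prod_hom {k : ℝ} (hk : 0 < k) {γ : Fin n → ℂ} {m : Fin n → ℤ} (hγ : ∀ j, 0 < (γ j).re) (hs : ∑ j, γ j = 2 * k) (hm : ∑ j, m j = 0)
    (u : ℂ) (z : Fin n → ℂ) : ∏ j, cp (γ j) (m j) ((u • z) j) = ((‖u‖ ^ (2 * k) : ℝ) : ℂ) * ∏ j, cp (γ j) (m j) (z j) := by
  simp_rw [Pi.smul_apply, smul_eq_mul, cp_mul]
  rw [prod_mul_distrib, cp_const hk hγ hs hm]

/-- complex powers at arbitrary points, orders at most four -/
theorem cpow_full {δ : ℝ → ℝ} (hδ : Tendsto δ atTop (𝓝 0))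
    (hδL : Tendsto (fun T : ℝ => δ T * Real.log T) atTop atTop) {k : ℝ} (hk : 0 < k) (hk2 : k ≤ 2)
    (w : Fin n → ℂ) (hw : ∀ j, 0 < (w j).re) {γ : Fin n → ℂ} {m : Fin n → ℤ} (hγ : ∀ j, 0 < (γ j).re) (hs : ∑ j, γ j = 2 * k) (hm : ∑ j, m j = 0) :
    Tendsto (fun T : ℝ => (((2 * δ T) ^ (k ^ 2) / T : ℝ) : ℂ) * ∫ t in Set.Icc 0 T, ∏ j, cp (γ j) (m j) (gz (δ T) t (w j))) atTop
      (𝓝 ((aF k : ℂ) * cc γ m w)) := by
  obtain ⟨K, hK⟩ : ∃ K : Set ℂ, K = Set.range w := ⟨_, rfl⟩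
  have hmem : ∀ j, w j ∈ K := fun j => by rw [hK]; exact Set.mem_range_self j
  obtain ⟨h1, h2⟩ := comp_lim hδ hδL hk hk2 (K := K) (by rw [hK]; exact (Set.finite_range w).isCompact) (by
    rw [hK]
    rintro _ ⟨j, rfl⟩
    exact hw j)
  obtain ⟨-, h3⟩ := h2 (fun f => ∏ j, cp (γ j) (m j) (f ⟨w j, hmem j⟩))
    ((cp_prod_cont hγ).comp (continuous_pi fun j => continuous_eval_const _))
    (fun u f => cp_prod_hom hk hγ hs hm u fun j => f ⟨w j, hmem j⟩)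
  rw [← field_cc hs hm w hw]
  have e1 : ∫ ω, ∏ j, cp (γ j) (m j) ((rs K (fun w => Complex.exp (fld k ω w))) ⟨w j, hmem j⟩) ∂gp =
      ∫ ω, ∏ j, cp (γ j) (m j) (Complex.exp (fld k ω (w j))) ∂gp := by
    refine integral_congr_ae ?_
    filter_upwards [fld_good k] with ω hω
    refine prod_congr rfl fun j _ => ?_
    rw [rs_apply]
    intro x hx
    rw [hK] at hx
    obtain ⟨i, rfl⟩ := hx
    exact ((hω _ (hw i)).2.cexp).continuousAt.continuousWithinAt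
  rw [e1] at h3
  refine h3.congr' ?_
  filter_upwards [h1] with T hT
  congr 1
  refine integral_congr_ae (Eventually.of_forall fun t => ?_)
  show ∏ j, cp (γ j) (m j) ((rs K (gz (δ T) t)) ⟨w j, hmem j⟩) = ∏ j, cp (γ j) (m j) (gz (δ T) t (w j))
  refine prod_congr rfl fun j _ => ?_
  rw [rs_apply (hT t)]

/-- complex powers on one line, all orders, off small sets -/
theorem cpow_off {δ : ℝ → ℝ} (hδ : Tendsto δ atTop (𝓝 0))
    (hδL : Tendsto (fun T : ℝ => δ T * Real.log T) atTop atTop) {c : ℝ} (hc : 0 ≤ c) {S B : Set ℝ} (hS : S.Countable)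
    (hB : B.Countable) (hB0 : ∀ k ∈ B, 0 < k) :
    ∃ E : ℝ → Set ℝ, (∀ T, MeasurableSet (E T) ∧ E T ⊆ Set.Icc 0 T ∧ ∀ t ∈ E T, ∃ a ∈ insert 0 S, (δ T) ^ (-(2 + c)) < za (δ T) a t) ∧
      Tendsto (fun T => (volume (E T)).toReal / (T * (δ T) ^ (4 + 4 * c))) atTop (𝓝 0) ∧
      ∀ k ∈ B, (k ≤ 2 ∨ 2 + 2 * c ≤ k) → ∀ (n : ℕ) (a : Fin n → ℝ), (∀ j, a j ∈ S) → ∀ (γ : Fin n → ℂ) (m : Fin n → ℤ),
        (∀ j, 0 < (γ j).re) → ∑ j, γ j = 2 * k → ∑ j, m j = 0 →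
        Tendsto (fun T : ℝ => (((2 * δ T) ^ (k ^ 2) / T : ℝ) : ℂ) * ∫ t in Set.Icc 0 T \ E T,
          ∏ j, cp (γ j) (m j) (riemannZeta (1 / 2 + δ T + ((t + a j * δ T : ℝ) : ℂ) * Complex.I))) atTop
          (𝓝 ((aF k : ℂ) * cc γ m (fun j => 1 + (a j : ℂ) * Complex.I))) := by
  obtain ⟨E, hE, hvol, hm⟩ := cland hδ hδL hc hS hB hB0
  refine ⟨E, hE, hvol, fun k hk hcase n a ha γ m hγ hs hms => ?_⟩
  have hk0 := hB0 k hk
  have hρ : ∀ s : ℝ, Integrable (fun z => Real.exp (s * ‖z‖)) (fl k a : Measure (Fin n → ℂ)) := by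
    intro s
    show Integrable (fun z => Real.exp (s * ‖z‖)) (gp.map (fv k a))
    rw [integrable_map_measure (by fun_prop) (fv_meas k a)]
    exact fv_exp k a s
  have hρ2 : ∀ α β : Fin n → ℂ, ∫ z, Complex.exp (∑ j, (α j * z j + β j * (starRingEnd ℂ) (z j))) ∂(fl k a : Measure (Fin n → ℂ)) =
      Complex.exp (∑ j, (α j * mu k (a j) + β j * (starRingEnd ℂ) (mu k (a j))) + ∑ i, ∑ j, α i * β j * Cv (a i) (a j)) := by
    intro α β
    rw [fl_int k a (by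
      refine Complex.continuous_exp.comp (continuous_finsetSum _ fun j _ => ?_)
      exact ((continuous_apply j).const_mul _).add ((Complex.continuous_conj.comp (continuous_apply j)).const_mul _))]
    exact fv_law k a α β
  have hcont := cp_prod_cont (n := n) (γ := γ) (m := m) hγ
  have h1 := to_hom hδ (D := fun T => Set.Icc 0 T \ E T) (fun T => Set.sdiff_subset) hk0 a (ρ := fl k a)
    (fun F A hFc hFA => grow_int hk0 hρ hFc hFA)
    (fun F A hFc hFA => (hm k hk n a ha (fl k a) hρ hρ2 F A hFc hFA).1 hcase) hcont (cp_prod_hom hk0 hγ hs hms)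
  have e0 : ∫ z, ∏ j, cp (γ j) (m j) (Complex.exp (z j)) ∂(fl k a : Measure (Fin n → ℂ)) =
      ∫ ω, ∏ j, cp (γ j) (m j) (Complex.exp (fv k a ω j)) ∂gp :=
    fl_int k a (f := fun z : Fin n → ℂ => ∏ j, cp (γ j) (m j) (Complex.exp (z j)))
      (hcont.comp (by fun_prop : Continuous fun z : Fin n → ℂ => (fun j => Complex.exp (z j) : Fin n → ℂ)))
  rw [e0] at h1
  rw [← field_cc hs hms (fun j => 1 + (a j : ℂ) * Complex.I) (fun j => by simp)]
  exact h1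

end Pool.Agent.R313.CX
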